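import Pool.Agent.H74.PZ.Defs

/-!
# The large sieve over residue classes and a real variable

`parseval`: `∑_r ‖∑_{χ ∈ C} z_χ χ(r)‖^2 = φ(q) ∑_{χ ∈ C} ‖z_χ‖^2`, by
`∑_r χ(r) conj(χ'(r)) = ∑_r (χ χ'⁻¹)(r) = φ(q)` if `χ = χ'`, `0` otherwise
(`MulChar.sum_eq_zero_of_ne_one`, `MulChar.sum_one_eq_card_units`, `ZMod.card_units_eq_totient`,
`MulChar.star_apply'`).
-/

namespace Pool.Agent.H74.PZ

open Finset MeasureTheory

variable {q : ℕ} [NeZero q]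

lemma par_orth (χ χ' : DirichletCharacter ℂ q) :
    ∑ r : ZMod q, χ r * (starRingEnd ℂ) (χ' r) = if χ = χ' then (q.totient : ℂ) else 0 := by
  classical
  have h1 : ∀ r : ZMod q, χ r * (starRingEnd ℂ) (χ' r) = (χ * χ'⁻¹) r := by
    intro r
    rw [MulChar.mul_apply, ← MulChar.star_apply']
    rfl
  rw [Finset.sum_congr rfl fun r _ => h1 r]
  split_ifs with h
  · rw [h, mul_inv_cancel, MulChar.sum_one_eq_card_units, ZMod.card_units_eq_totient]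
  · exact MulChar.sum_eq_zero_of_ne_one (fun h2 => h (mul_inv_eq_one.1 h2))

theorem parseval (C : Finset (DirichletCharacter ℂ q)) (z : DirichletCharacter ℂ q → ℂ) :
    ∑ r : ZMod q, ‖∑ χ ∈ C, z χ * χ r‖ ^ 2 = q.totient * ∑ χ ∈ C, ‖z χ‖ ^ 2 := by
  classical
  have h : ((∑ r : ZMod q, ‖∑ χ ∈ C, z χ * χ r‖ ^ 2 : ℝ) : ℂ) =
      ((q.totient * ∑ χ ∈ C, ‖z χ‖ ^ 2 : ℝ) : ℂ) := by
    push_cast
    have h1 : ∀ r : ZMod q, ((‖∑ χ ∈ C, z χ * χ r‖ : ℝ) : ℂ) ^ 2 =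
        ∑ χ ∈ C, ∑ χ' ∈ C, (z χ * (starRingEnd ℂ) (z χ')) * (χ r * (starRingEnd ℂ) (χ' r)) := by
      intro r
      rw [← Complex.mul_conj', map_sum, Finset.sum_mul_sum]
      refine Finset.sum_congr rfl fun χ _ => Finset.sum_congr rfl fun χ' _ => ?_
      rw [map_mul]
      ring
    rw [Finset.sum_congr rfl fun r _ => h1 r, Finset.sum_comm, Finset.mul_sum]
    refine Finset.sum_congr rfl fun χ hχ => ?_
    rw [Finset.sum_comm]
    have h2 : ∀ χ' ∈ C, ∑ r : ZMod q, (z χ * (starRingEnd ℂ) (z χ')) *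
        (χ r * (starRingEnd ℂ) (χ' r)) =
        if χ = χ' then (z χ * (starRingEnd ℂ) (z χ')) * (q.totient : ℂ) else 0 := by
      intro χ' _
      rw [← Finset.mul_sum, par_orth, mul_ite, mul_zero]
    rw [Finset.sum_congr rfl h2, Finset.sum_ite_eq, if_pos hχ, Complex.mul_conj']
    ring
  exact_mod_cast h

end Pool.Agent.H74.PZ
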