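import Pool.Agent.H74.PZ.Arith1

/-!
# Mean values of divisor functions

`sum_dj_mul`: for `g ≥ 0`, `g 1 ≤ 1`, `g (m n) ≤ g m · g n` for `m, n ≥ 1`:
`∑_{m ≤ M} dj j m · g m / m ≤ (∑_{m ≤ M} g m / m)^j`.  Induction on `j`; `j = 0`: the sum is `g 1 ≤ 1` (or empty).  Step:
`∑_{m ≤ M} (g m/m) ∑_{d ∣ m} dj j d`, write `m = d e` with `d, e ≤ M`:
`≤ ∑_{d ≤ M} ∑_{e ≤ M} dj j d · (g d/d)(g e/e) ≤ (∑ g/m)^j (∑ g/m)`.

`sum_dj_sq`: `sum_dj_mul` with `g = dj j` (`dj_submul`), then with `g = 1`, and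
`∑_{m ≤ M} 1/m ≤ 1 + log M` (`sum_one_div_le` of `H14.PT.Tau`); the bound is `(1 + log M)^(j*j)`.
-/

namespace Pool.Agent.H74.PZ

open Finset MeasureTheory

theorem ar_step (M : ℕ) (f g : ℕ → ℝ) (hf : ∀ n, 0 ≤ f n) (hg : ∀ n, 0 ≤ g n) :
    ∑ m ∈ Icc 1 M, ∑ p ∈ m.divisorsAntidiagonal, f p.1 * g p.2 ≤
      (∑ m ∈ Icc 1 M, f m) * ∑ m ∈ Icc 1 M, g m := by
  rw [Finset.sum_mul_sum, ← Finset.sum_product', Finset.sum_sigma']
  have h1 : ∑ x ∈ (Icc 1 M).sigma fun m => m.divisorsAntidiagonal, f x.2.1 * g x.2.2 =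
      ∑ p ∈ ((Icc 1 M).sigma fun m => m.divisorsAntidiagonal).image (fun x => x.2),
        f p.1 * g p.2 := by
    rw [Finset.sum_image]
    rintro ⟨m, p⟩ hx ⟨m', p'⟩ hy hxy
    simp only [Finset.coe_sigma, Set.mem_sigma_iff, Finset.mem_coe,
      Nat.mem_divisorsAntidiagonal] at hx hy
    simp only at hxy
    subst hxy
    have : m = m' := by rw [← hx.2.1, ← hy.2.1]
    subst this
    rfl
  rw [h1]
  refine Finset.sum_le_sum_of_subset_of_nonneg ?_ fun p _ _ => mul_nonneg (hf _) (hg _)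
  intro p hp
  obtain ⟨⟨m, p'⟩, hx, rfl⟩ := Finset.mem_image.mp hp
  rw [Finset.mem_sigma, Finset.mem_Icc, Nat.mem_divisorsAntidiagonal] at hx
  simp only at hx
  obtain ⟨⟨h1, h2⟩, h3, h4⟩ := hx
  have h5 : p'.1 ≠ 0 := by rintro h; rw [h, zero_mul] at h3; omega
  have h6 : p'.2 ≠ 0 := by rintro h; rw [h, mul_zero] at h3; omega
  have h7 : p'.1 ≤ m := h3 ▸ Nat.le_mul_of_pos_right _ (Nat.pos_of_ne_zero h6)
  have h8 : p'.2 ≤ m := h3 ▸ Nat.le_mul_of_pos_left _ (Nat.pos_of_ne_zero h5)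
  simp only [Finset.mem_product, Finset.mem_Icc]
  omega

theorem sum_dj_mul (j M : ℕ) (g : ℕ → ℝ) (hg : ∀ n, 0 ≤ g n) (hg1 : g 1 ≤ 1)
    (hgm : ∀ m n, 1 ≤ m → 1 ≤ n → g (m * n) ≤ g m * g n) :
    ∑ m ∈ Icc 1 M, (dj j m : ℝ) * (g m / m) ≤ (∑ m ∈ Icc 1 M, g m / m) ^ j := by
  induction j with
  | zero =>
    rw [pow_zero]
    have h1 : ∀ m ∈ Icc 1 M, (dj 0 m : ℝ) * (g m / m) = if m = 1 then g 1 else 0 := by
      intro m _
      unfold dj
      split_ifs with h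
      · rw [h]; simp
      · simp
    rw [Finset.sum_congr rfl h1, Finset.sum_ite_eq']
    split_ifs
    · exact hg1
    · exact zero_le_one
  | succ j ih =>
    have hpos : 0 ≤ ∑ m ∈ Icc 1 M, g m / m :=
      Finset.sum_nonneg fun m _ => div_nonneg (hg m) (Nat.cast_nonneg m)
    rw [pow_succ]
    refine le_trans ?_ (mul_le_mul_of_nonneg_right ih hpos)
    refine le_trans ?_ (ar_step M (fun m => (dj j m : ℝ) * (g m / m)) (fun m => g m / m)
      (fun m => mul_nonneg (Nat.cast_nonneg _) (div_nonneg (hg m) (Nat.cast_nonneg m)))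
      (fun m => div_nonneg (hg m) (Nat.cast_nonneg m)))
    refine Finset.sum_le_sum fun m hm => ?_
    rw [Finset.mem_Icc] at hm
    have h1 : (dj (j + 1) m : ℝ) = ∑ p ∈ m.divisorsAntidiagonal, (dj j p.1 : ℝ) := by
      have h2 := dj_conv j 1 m hm.1
      rw [← h2]
      push_cast
      refine Finset.sum_congr rfl fun p hp => ?_
      rw [Nat.mem_divisorsAntidiagonal] at hp
      have h6 : p.2 ≠ 0 := by rintro h; rw [h, mul_zero] at hp; omega
      have h7 := ar1_zeta 1 p.2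
      rw [pow_one, ArithmeticFunction.zeta_apply_ne h6] at h7
      rw [← h7]
      simp
    rw [h1, Finset.sum_mul]
    refine Finset.sum_le_sum fun p hp => ?_
    rw [Nat.mem_divisorsAntidiagonal] at hp
    have h5 : p.1 ≠ 0 := by rintro h; rw [h, zero_mul] at hp; omega
    have h6 : p.2 ≠ 0 := by rintro h; rw [h, mul_zero] at hp; omega
    have h8 := hgm p.1 p.2 (by omega) (by omega)
    have h5' : (0 : ℝ) < p.1 := by exact_mod_cast Nat.pos_of_ne_zero h5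
    have h6' : (0 : ℝ) < p.2 := by exact_mod_cast Nat.pos_of_ne_zero h6
    have h9 : g m / m ≤ (g p.1 / p.1) * (g p.2 / p.2) := by
      rw [← hp.1, div_mul_div_comm]
      push_cast
      exact div_le_div_of_nonneg_right h8 (by positivity)
    calc (dj j p.1 : ℝ) * (g m / m) ≤ (dj j p.1 : ℝ) * ((g p.1 / p.1) * (g p.2 / p.2)) :=
          mul_le_mul_of_nonneg_left h9 (Nat.cast_nonneg _)
      _ = _ := by ring

theorem sum_dj_sq (j M : ℕ) :
    ∑ m ∈ Icc 1 M, (dj j m : ℝ) ^ 2 / m ≤ (1 + Real.log M) ^ (j * j) := by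
  have h1 := sum_dj_mul j M (fun n => (dj j n : ℝ)) (fun n => Nat.cast_nonneg _)
    (by rw [dj_one]; simp) (fun m n hm hn => by exact_mod_cast dj_submul j m n hm hn)
  have h2 := sum_dj_mul j M (fun _ => (1 : ℝ)) (fun n => zero_le_one) le_rfl
    (fun m n hm hn => by norm_num)
  have h3 : ∑ m ∈ Icc 1 M, (1 : ℝ) / m ≤ 1 + Real.log M := Pool.Agent.H14.PT.sum_one_div_le M
  have h4 : 0 ≤ ∑ m ∈ Icc 1 M, (1 : ℝ) / m := Finset.sum_nonneg fun m _ => by positivity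
  have h5 : ∑ m ∈ Icc 1 M, (dj j m : ℝ) / m ≤ (1 + Real.log M) ^ j := by
    refine le_trans (le_of_eq ?_) (h2.trans (pow_le_pow_left₀ h4 h3 j))
    exact Finset.sum_congr rfl fun m _ => by ring
  calc ∑ m ∈ Icc 1 M, (dj j m : ℝ) ^ 2 / m =
        ∑ m ∈ Icc 1 M, (dj j m : ℝ) * ((dj j m : ℝ) / m) :=
        Finset.sum_congr rfl fun m _ => by ring
    _ ≤ (∑ m ∈ Icc 1 M, (dj j m : ℝ) / m) ^ j := h1
    _ ≤ ((1 + Real.log M) ^ j) ^ j := by
        refine pow_le_pow_left₀ (Finset.sum_nonneg fun m _ => by positivity) h5 j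
    _ = _ := by rw [← pow_mul]

end Pool.Agent.H74.PZ
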