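import Pool.Agent.H74.PZ.Defs
import Pool.Agent.H14.PT.Tau

/-!
# Divisor functions `dj j n = d_j(n)`

`dj_one`: `dj j 1 = 1`.  `dj_two`: `dj 2 n = τ(n)` for `n ≥ 1` (`dj 1 n = 1` for `n ≥ 1`).
`dj_submul`: induction on `j`.  Every divisor `d` of `m n` is `d₁ d₂` with `d₁ ∣ m`, `d₂ ∣ n`
(`Nat.divisors_mul`), so `dj (j+1) (m n) = ∑_{d ∣ m n} dj j d ≤ ∑_{d₁ ∣ m} ∑_{d₂ ∣ n} dj j (d₁ d₂)
≤ ∑∑ dj j d₁ · dj j d₂ = dj (j+1) m · dj (j+1) n`.  (`j = 0`: `m n = 1` forces `m = n = 1`.  All for `m, n ≥ 1`.)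

`dj_conv`: `∑_{(d,e) : d e = n} dj i d · dj j e = dj (i + j) n` for `n ≥ 1`.  Induction on `j` (for all `n`): `j = 0`: only
`e = 1`.  Step: `∑_{d e = n} dj i d ∑_{e' ∣ e} dj j e' = ∑_{d e' ∣ n} dj i d · dj j e' = ∑_{m ∣ n} ∑_{d e' = m} …`.
(An alternative is to identify `dj j` with the power `ζ^j` in `ArithmeticFunction ℕ` and use
`pow_add`, `ArithmeticFunction.mul_apply`.)

`tau_sq_le`: `τ(n)^2 ≤ dj 4 n`: `dj 4 n = ∑_{d e = n} dj 2 d · dj 2 e = ∑ τ(d) τ(e) ≥ ∑_{d e = n} τ(n) = τ(n)^2`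
(`card_divisors_mul_le` of `H14.PT.Tau`).
-/

namespace Pool.Agent.H74.PZ

open Finset MeasureTheory

theorem ar1_zeta (j : ℕ) : ∀ n, (ArithmeticFunction.zeta ^ j : ArithmeticFunction ℕ) n = dj j n := by
  induction j with
  | zero =>
    intro n
    rw [pow_zero, ArithmeticFunction.one_apply]
    rfl
  | succ j ih =>
    intro n
    rw [pow_succ, ArithmeticFunction.mul_zeta_apply]
    exact Finset.sum_congr rfl fun d _ => ih d

theorem dj_one (j : ℕ) : dj j 1 = 1 := by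
  induction j with
  | zero => rfl
  | succ j ih => simp [dj, ih]

theorem dj_two (n : ℕ) (hn : 1 ≤ n) : dj 2 n = n.divisors.card := by
  have h1 : ∀ m, 1 ≤ m → dj 1 m = 1 := by
    intro m hm
    have h2 := ar1_zeta 1 m
    rw [pow_one, ArithmeticFunction.zeta_apply_ne (by omega)] at h2
    exact h2.symm
  have h3 : dj 2 n = ∑ d ∈ n.divisors, dj 1 d := rfl
  rw [h3, Finset.card_eq_sum_ones]
  exact Finset.sum_congr rfl fun d hd => h1 d (Nat.pos_of_mem_divisors hd)

theorem ar1_image {α : Type*} (s : Finset α) (g : α → ℕ) (f : ℕ → ℕ) :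
    ∑ d ∈ s.image g, f d ≤ ∑ x ∈ s, f (g x) := by
  rw [Finset.sum_comp f g]
  refine Finset.sum_le_sum fun d hd => ?_
  obtain ⟨x, hx, rfl⟩ := Finset.mem_image.mp hd
  rw [smul_eq_mul]
  refine Nat.le_mul_of_pos_left _ (Finset.card_pos.mpr ⟨x, ?_⟩)
  simp [hx]

theorem dj_submul (j m n : ℕ) (hm : 1 ≤ m) (hn : 1 ≤ n) : dj j (m * n) ≤ dj j m * dj j n := by
  induction j generalizing m n with
  | zero =>
    unfold dj
    by_cases h : m * n = 1
    · have h1 : m = 1 := Nat.eq_one_of_mul_eq_one_right h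
      have h2 : n = 1 := Nat.eq_one_of_mul_eq_one_left h
      simp [h1, h2]
    · simp [h]
  | succ j ih =>
    have h1 : (m * n).divisors = (m.divisors ×ˢ n.divisors).image (fun p => p.1 * p.2) := by
      rw [Nat.divisors_mul]
      rfl
    calc dj (j + 1) (m * n) = ∑ d ∈ (m * n).divisors, dj j d := rfl
      _ ≤ ∑ p ∈ m.divisors ×ˢ n.divisors, dj j (p.1 * p.2) := by
          rw [h1]; exact ar1_image _ _ _
      _ ≤ ∑ p ∈ m.divisors ×ˢ n.divisors, dj j p.1 * dj j p.2 := by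
          refine Finset.sum_le_sum fun p hp => ?_
          rw [Finset.mem_product] at hp
          exact ih _ _ (Nat.pos_of_mem_divisors hp.1) (Nat.pos_of_mem_divisors hp.2)
      _ = dj (j + 1) m * dj (j + 1) n := by
          rw [Finset.sum_product]
          have h2 : dj (j + 1) m = ∑ d ∈ m.divisors, dj j d := rfl
          have h3 : dj (j + 1) n = ∑ d ∈ n.divisors, dj j d := rfl
          rw [h2, h3, Finset.sum_mul_sum]

theorem dj_conv (i j n : ℕ) (hn : 1 ≤ n) :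
    ∑ p ∈ n.divisorsAntidiagonal, dj i p.1 * dj j p.2 = dj (i + j) n := by
  rw [← ar1_zeta (i + j) n, pow_add, ArithmeticFunction.mul_apply]
  exact Finset.sum_congr rfl fun p _ => by rw [ar1_zeta, ar1_zeta]

theorem tau_sq_le (n : ℕ) (hn : 1 ≤ n) : n.divisors.card ^ 2 ≤ dj 4 n := by
  have h1 := dj_conv 2 2 n hn
  rw [show 2 + 2 = 4 from rfl] at h1
  rw [← h1]
  have h2 : n.divisorsAntidiagonal.card = n.divisors.card := by
    rw [← Nat.map_div_right_divisors, Finset.card_map]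
  calc n.divisors.card ^ 2 = ∑ _p ∈ n.divisorsAntidiagonal, dj 2 n := by
        rw [Finset.sum_const, smul_eq_mul, h2, dj_two n hn, sq]
    _ ≤ _ := by
        refine Finset.sum_le_sum fun p hp => ?_
        rw [Nat.mem_divisorsAntidiagonal] at hp
        have h3 : p.1 ≠ 0 := by
          rintro h; rw [h, zero_mul] at hp; omega
        have h4 : p.2 ≠ 0 := by
          rintro h; rw [h, mul_zero] at hp; omega
        rw [← hp.1]
        exact dj_submul 2 _ _ (by omega) (by omega)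

end Pool.Agent.H74.PZ
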