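import Pool.Agent.H74.PZ.Err

/-!
# The error sum on average over `B`

`N = q ⌈T⌉₊`, `D = LS q N`, `K = |A|`, `F(m) = ∑_{p ∈ A} hh p m`.  For `p' ∈ B` sum `zero_identity` (for the points
`pm p p'`, `X = ⌈T⌉₊`) over `p ∈ A`:
`K = - G₁(p') - G₂(p')`, `G₁(p') = ∑_{m ∈ Ioc Y N} (cc Y m/√m) F(m) hh p' m`,
`G₂(p') = ∑_{d ≤ Y} μ(d)/√d · hh p' d · ∑_{p ∈ A} hh p d · RR ⌈T⌉₊ d (pm p p')`.
So `|B| K^2 ≤ 2 ∑_B |G₁|^2 + 2 ∑_B |G₂|^2`.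

`g2_bound`: Cauchy-Schwarz over `d`: `|G₂|^2 ≤ (∑_{d≤Y} 1/d) ∑_{d ≤ Y} |∑_p hh p d RR|^2`; sum over `B`, `err_ls` with `x_p = hh p d`:
`∑_B |G₂|^2 ≤ (1 + log Y) · Y · 30 D^2 Y q T K ≤ 30 D^3 Y^2 q T K` (`1 + log Y ≤ D` as `Y ≤ N`).
-/

namespace Pool.Agent.H74.PZ

open Finset MeasureTheory

variable {q : ℕ} [NeZero q]

theorem g2_bound (A B : Finset (DirichletCharacter ℂ q × ℝ)) (hA : Sep A) (hB : Sep B) (T : ℝ)
    (hT : 1 ≤ T) (hAT : ∀ p ∈ A, |p.2| ≤ T) (hBT : ∀ p ∈ B, |p.2| ≤ T) (Y : ℕ) (hY : 1 ≤ Y)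
    (hYN : Y ≤ q * ⌈T⌉₊) :
    ∑ p' ∈ B, ‖∑ d ∈ Icc 1 Y, ((ArithmeticFunction.moebius d : ℤ) : ℂ) / (Real.sqrt d : ℂ) *
        hh p' d * ∑ p ∈ A, hh p d * RR ⌈T⌉₊ d (pm p p')‖ ^ 2 ≤
      30 * LS q (q * ⌈T⌉₊) ^ 3 * (Y : ℝ) ^ 2 * (q * T) * A.card := by
  set N := q * ⌈T⌉₊ with hN
  have hq1 : (1 : ℝ) ≤ q := by exact_mod_cast Nat.one_le_iff_ne_zero.mpr (NeZero.ne q)
  have hY1 : (1 : ℝ) ≤ Y := by exact_mod_cast hY
  have hYN' : (Y : ℝ) ≤ N := by exact_mod_cast hYN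
  -- harmonic sum
  have hharm : ∑ d ∈ Icc 1 Y, (1 / (d : ℝ)) ≤ 1 + Real.log Y := by
    have h := harmonic_le_one_add_log Y
    rw [harmonic_eq_sum_Icc] at h
    push_cast at h
    simpa [one_div] using h
  have hlog : 1 + Real.log Y ≤ LS q N := by
    unfold LS
    have h1 : Real.log Y ≤ Real.log ((N : ℝ) + q) := Real.log_le_log (by linarith) (by linarith)
    have h2 : 0 ≤ Real.log Y := Real.log_nonneg hY1
    linarith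
  -- pointwise Cauchy-Schwarz
  have hcs : ∀ p' : DirichletCharacter ℂ q × ℝ,
      ‖∑ d ∈ Icc 1 Y, ((ArithmeticFunction.moebius d : ℤ) : ℂ) / (Real.sqrt d : ℂ) *
        hh p' d * ∑ p ∈ A, hh p d * RR ⌈T⌉₊ d (pm p p')‖ ^ 2 ≤
      LS q N * ∑ d ∈ Icc 1 Y, ‖∑ p ∈ A, hh p d * RR ⌈T⌉₊ d (pm p p')‖ ^ 2 := by
    intro p'
    have h1 : ‖∑ d ∈ Icc 1 Y, ((ArithmeticFunction.moebius d : ℤ) : ℂ) / (Real.sqrt d : ℂ) *
        hh p' d * ∑ p ∈ A, hh p d * RR ⌈T⌉₊ d (pm p p')‖ ≤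
        ∑ d ∈ Icc 1 Y, (1 / Real.sqrt d) * ‖∑ p ∈ A, hh p d * RR ⌈T⌉₊ d (pm p p')‖ := by
      refine (norm_sum_le _ _).trans (Finset.sum_le_sum fun d hd => ?_)
      have hd0 : (0 : ℝ) < d := by exact_mod_cast (Finset.mem_Icc.mp hd).1
      rw [norm_mul, norm_mul]
      refine mul_le_mul_of_nonneg_right ?_ (norm_nonneg _)
      rw [norm_div, Complex.norm_real, Real.norm_eq_abs, abs_of_nonneg (Real.sqrt_nonneg _)]
      have h2 : ‖((ArithmeticFunction.moebius d : ℤ) : ℂ)‖ ≤ 1 := by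
        rw [Complex.norm_intCast]
        have h := ArithmeticFunction.abs_moebius_le_one (n := d)
        exact_mod_cast h
      have h3 := norm_hh_le p' d
      have h4 : 0 ≤ 1 / Real.sqrt d := by positivity
      calc ‖((ArithmeticFunction.moebius d : ℤ) : ℂ)‖ / Real.sqrt d * ‖hh p' d‖
          ≤ 1 / Real.sqrt d * 1 := by
            refine mul_le_mul ?_ h3 (norm_nonneg _) h4
            exact div_le_div_of_nonneg_right h2 (Real.sqrt_nonneg _)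
        _ = 1 / Real.sqrt d := mul_one _
    have h5 : (∑ d ∈ Icc 1 Y, (1 / Real.sqrt d) * ‖∑ p ∈ A, hh p d * RR ⌈T⌉₊ d (pm p p')‖) ^ 2 ≤
        (∑ d ∈ Icc 1 Y, (1 / Real.sqrt d) ^ 2) *
          ∑ d ∈ Icc 1 Y, ‖∑ p ∈ A, hh p d * RR ⌈T⌉₊ d (pm p p')‖ ^ 2 :=
      Finset.sum_mul_sq_le_sq_mul_sq _ _ _
    have h6 : ∑ d ∈ Icc 1 Y, (1 / Real.sqrt d) ^ 2 = ∑ d ∈ Icc 1 Y, (1 / (d : ℝ)) := by
      refine Finset.sum_congr rfl fun d _ => ?_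
      rw [div_pow, one_pow, Real.sq_sqrt (Nat.cast_nonneg d)]
    calc _ ≤ (∑ d ∈ Icc 1 Y, (1 / Real.sqrt d) *
            ‖∑ p ∈ A, hh p d * RR ⌈T⌉₊ d (pm p p')‖) ^ 2 :=
          pow_le_pow_left₀ (norm_nonneg _) h1 2
      _ ≤ _ := h5
      _ ≤ _ := by
          refine mul_le_mul_of_nonneg_right ?_ (Finset.sum_nonneg fun _ _ => by positivity)
          rw [h6]
          exact hharm.trans hlog
  calc ∑ p' ∈ B, ‖∑ d ∈ Icc 1 Y, ((ArithmeticFunction.moebius d : ℤ) : ℂ) / (Real.sqrt d : ℂ) *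
        hh p' d * ∑ p ∈ A, hh p d * RR ⌈T⌉₊ d (pm p p')‖ ^ 2
      ≤ ∑ p' ∈ B, LS q N * ∑ d ∈ Icc 1 Y, ‖∑ p ∈ A, hh p d * RR ⌈T⌉₊ d (pm p p')‖ ^ 2 :=
        Finset.sum_le_sum fun p' _ => hcs p'
    _ = LS q N * ∑ d ∈ Icc 1 Y, ∑ p' ∈ B, ‖∑ p ∈ A, hh p d * RR ⌈T⌉₊ d (pm p p')‖ ^ 2 := by
        rw [← Finset.mul_sum, Finset.sum_comm]
    _ ≤ LS q N * ∑ d ∈ Icc 1 Y, 30 * LS q N ^ 2 * Y * (q * T) * A.card := by
        refine mul_le_mul_of_nonneg_left ?_ (LS_pos q N).le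
        refine Finset.sum_le_sum fun d hd => ?_
        obtain ⟨hd1, hd2⟩ := Finset.mem_Icc.mp hd
        refine (err_ls A B hA hB T hT hAT hBT (fun p => hh p d)
          (fun p _ => norm_hh_le p d) d hd1).trans ?_
        have h7 : (d : ℝ) ≤ Y := by exact_mod_cast hd2
        have h8 : 0 ≤ 30 * LS q N ^ 2 := by positivity
        have h9 : (0 : ℝ) ≤ q * T := by positivity
        gcongr
    _ = 30 * LS q N ^ 3 * (Y : ℝ) ^ 2 * (q * T) * A.card := by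
        rw [Finset.sum_const, Nat.card_Icc, nsmul_eq_mul]
        push_cast
        ring

end Pool.Agent.H74.PZ
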