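import Pool.Agent.H74.PZ.Form2

/-!
# The mollified identity at a zero

`cc_one`, `cc_zero`: `cc Y 1 = 1` (`Y ≥ 1`), and for `1 < m ≤ Y` all divisors are `≤ Y`, so
`cc Y m = ∑_{d ∣ m} μ(d) = 0`.  `abs_cc_le`: `|cc Y m| ≤ τ(m)` as `|μ| ≤ 1`.

`zero_identity`: multiply `LFunction_half` for `χ = p.1`, `τ = p.2` (left side `0`) by
`M = ∑_{d ≤ Y} μ(d) hh p d / √d`:
`0 = ∑_{d ≤ Y} μ(d) (hh p d/√d) (∑_{n ≤ N} hh p n/√n + rest)`, `N = q X`.  For each `d` split the sum over `n` into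
`n d ≤ N` and `n d > N`; the second part plus `rest` is `RR X d p` by definition.  The first parts give
`∑_{d ≤ Y} ∑_{n ≤ N, n d ≤ N} μ(d) hh p (n d)/√(n d)` (`hh_mul`), and sorting by `m = n d`:
`= ∑_{m ≤ N} cc Y m · hh p m/√m` (for fixed `m ≤ N` the pairs are the divisors `d ≤ Y` of `m`), which by `cc_one`,
`cc_zero` (and `Y ≤ N`) is `1 + ∑_{Y < m ≤ N} cc Y m · hh p m/√m`.
-/

namespace Pool.Agent.H74.PZ

open Finset MeasureTheory

variable {q : ℕ} [NeZero q]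

theorem cc_one (Y : ℕ) (hY : 1 ≤ Y) : cc Y 1 = 1 := by
  unfold cc
  rw [Nat.divisors_one, Finset.filter_singleton, if_pos hY]
  simp

theorem cc_zero (Y m : ℕ) (h1 : 1 < m) (h2 : m ≤ Y) : cc Y m = 0 := by
  unfold cc
  have h3 : m.divisors.filter (fun d => d ≤ Y) = m.divisors := by
    apply Finset.filter_true_of_mem
    intro d hd
    exact (Nat.divisor_le hd).trans h2
  rw [h3]
  have h4 := congrArg (fun f : ArithmeticFunction ℤ => f m) ArithmeticFunction.moebius_mul_coe_zeta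
  simp only [ArithmeticFunction.coe_mul_zeta_apply] at h4
  rw [h4, ArithmeticFunction.one_apply_ne (by omega)]

theorem abs_cc_le (Y m : ℕ) : |((cc Y m : ℤ) : ℝ)| ≤ m.divisors.card := by
  have h1 : |cc Y m| ≤ (m.divisors.card : ℤ) := by
    unfold cc
    refine (Finset.abs_sum_le_sum_abs _ _).trans ?_
    calc ∑ d ∈ m.divisors.filter (fun d => d ≤ Y), |ArithmeticFunction.moebius d|
        ≤ ∑ d ∈ m.divisors.filter (fun d => d ≤ Y), 1 :=
          Finset.sum_le_sum fun d _ => ArithmeticFunction.abs_moebius_le_one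
      _ = ((m.divisors.filter (fun d => d ≤ Y)).card : ℤ) := by simp
      _ ≤ _ := by exact_mod_cast Finset.card_filter_le _ _
  rw [← Int.cast_abs]
  exact_mod_cast h1

omit [NeZero q] in
lemma moll_sum (N Y : ℕ) (p : DirichletCharacter ℂ q × ℝ) :
    ∑ d ∈ Icc 1 Y, ((ArithmeticFunction.moebius d : ℤ) : ℂ) * (hh p d / (Real.sqrt d : ℂ)) *
      ∑ n ∈ (Icc 1 N).filter (fun n => ¬ N < n * d), hh p n / (Real.sqrt n : ℂ) =
    ∑ m ∈ Icc 1 N, ((cc Y m : ℤ) : ℂ) * (hh p m / (Real.sqrt m : ℂ)) := by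
  classical
  have h1 : ∀ m ∈ Icc 1 N, ((cc Y m : ℤ) : ℂ) * (hh p m / (Real.sqrt m : ℂ)) =
      ∑ d ∈ m.divisors.filter (fun d => d ≤ Y), ((ArithmeticFunction.moebius d : ℤ) : ℂ) *
        (hh p d / (Real.sqrt d : ℂ)) * (hh p (m / d) / (Real.sqrt (m / d : ℕ) : ℂ)) := by
    intro m hm
    unfold cc
    push_cast
    rw [Finset.sum_mul]
    refine Finset.sum_congr rfl fun d hd => ?_
    obtain ⟨hd1, hd2⟩ := Finset.mem_filter.mp hd
    have hdm := Nat.dvd_of_mem_divisors hd1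
    have hm0 : m ≠ 0 := by have := (Finset.mem_Icc.mp hm).1; omega
    have hd0 : d ≠ 0 := fun h => hm0 (by rw [h] at hdm; exact Nat.eq_zero_of_zero_dvd hdm)
    obtain ⟨e, he⟩ := hdm
    have he0 : e ≠ 0 := fun h => hm0 (by rw [he, h, mul_zero])
    have hmd : m / d = e := by rw [he]; exact Nat.mul_div_cancel_left e (Nat.pos_of_ne_zero hd0)
    rw [hmd, he, hh_mul p d e hd0 he0]
    push_cast
    rw [Real.sqrt_mul (by positivity)]
    push_cast
    rw [mul_assoc, div_mul_div_comm]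
  rw [Finset.sum_congr rfl h1, Finset.sum_congr rfl fun d _ => Finset.mul_sum _ _ _]
  rw [Finset.sum_sigma', Finset.sum_sigma']
  refine Finset.sum_bij' (fun x _ => ⟨x.1 * x.2, x.1⟩) (fun x _ => ⟨x.2, x.1 / x.2⟩) ?_ ?_ ?_ ?_ ?_
  · rintro ⟨d, n⟩ hx
    simp only [Finset.mem_sigma, Finset.mem_Icc, Finset.mem_filter] at hx
    simp only [Finset.mem_sigma, Finset.mem_Icc, Finset.mem_filter, Nat.mem_divisors]
    obtain ⟨⟨h1, h2⟩, ⟨h3, h4⟩, h5⟩ := hx
    refine ⟨⟨Nat.mul_pos h1 h3, by rw [mul_comm]; omega⟩, ⟨Dvd.intro _ rfl, ?_⟩, h2⟩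
    exact (Nat.mul_pos h1 h3).ne'
  · rintro ⟨m, d⟩ hx
    simp only [Finset.mem_sigma, Finset.mem_Icc, Finset.mem_filter, Nat.mem_divisors] at hx
    simp only [Finset.mem_sigma, Finset.mem_Icc, Finset.mem_filter]
    obtain ⟨⟨h1, h2⟩, ⟨h3, h4⟩, h5⟩ := hx
    have hd0 : 0 < d := Nat.pos_of_dvd_of_pos h3 h1
    refine ⟨⟨hd0, h5⟩, ⟨Nat.div_pos (Nat.le_of_dvd h1 h3) hd0, (Nat.div_le_self _ _).trans h2⟩, ?_⟩
    rw [Nat.div_mul_cancel h3]
    omega
  · rintro ⟨d, n⟩ hx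
    simp only [Finset.mem_sigma, Finset.mem_Icc, Finset.mem_filter] at hx
    simp only
    rw [Nat.mul_div_cancel_left n (by omega)]
  · rintro ⟨m, d⟩ hx
    simp only [Finset.mem_sigma, Finset.mem_Icc, Finset.mem_filter, Nat.mem_divisors] at hx
    simp only
    rw [Nat.mul_div_cancel' hx.2.1.1]
  · rintro ⟨d, n⟩ hx
    simp only [Finset.mem_sigma, Finset.mem_Icc, Finset.mem_filter] at hx
    simp only
    rw [Nat.mul_div_cancel_left n (by omega)]

theorem zero_identity (X Y : ℕ) (hX : 1 ≤ X) (hY : 1 ≤ Y) (hYN : Y ≤ q * X)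
    (p : DirichletCharacter ℂ q × ℝ) (h0 : p.1.LFunction (1 / 2 + (p.2 : ℂ) * Complex.I) = 0) :
    1 + ∑ m ∈ Ioc Y (q * X), ((cc Y m : ℤ) : ℂ) * (hh p m / (Real.sqrt m : ℂ)) +
      ∑ d ∈ Icc 1 Y, ((ArithmeticFunction.moebius d : ℤ) : ℂ) * (hh p d / (Real.sqrt d : ℂ)) *
        RR X d p = 0 := by
  classical
  have hF := LFunction_half p.1 X hX p.2
  rw [h0] at hF
  set N := q * X with hN
  have hN1 : 1 ≤ N := hY.trans hYN
  -- the main sum
  have h1 : ∑ m ∈ Icc 1 N, ((cc Y m : ℤ) : ℂ) * (hh p m / (Real.sqrt m : ℂ)) =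
      1 + ∑ m ∈ Ioc Y N, ((cc Y m : ℤ) : ℂ) * (hh p m / (Real.sqrt m : ℂ)) := by
    have e1 : Icc 1 N = Icc 1 Y ∪ Ioc Y N := by
      ext m
      simp only [Finset.mem_Icc, Finset.mem_union, Finset.mem_Ioc]
      omega
    have e2 : Disjoint (Icc 1 Y) (Ioc Y N) := by
      rw [Finset.disjoint_left]
      intro m h1 h2
      rw [Finset.mem_Icc] at h1
      rw [Finset.mem_Ioc] at h2
      omega
    rw [e1, Finset.sum_union e2]
    congr 1
    rw [Finset.sum_eq_single_of_mem 1 (Finset.mem_Icc.mpr ⟨le_rfl, hY⟩)]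
    · rw [cc_one Y hY, hh_one]
      simp
    · intro m hm hne
      rw [Finset.mem_Icc] at hm
      rw [cc_zero Y m (by omega) hm.2]
      simp
  rw [← h1, ← moll_sum N Y p, ← Finset.sum_add_distrib]
  apply Finset.sum_eq_zero
  intro d _
  rw [← mul_add]
  have h2 : ∑ n ∈ (Icc 1 N).filter (fun n => ¬ N < n * d), hh p n / (Real.sqrt n : ℂ) +
      RR X d p = 0 := by
    unfold RR
    rw [← hN]
    rw [← add_assoc, ← add_assoc]
    rw [add_comm (∑ n ∈ (Icc 1 N).filter (fun n => ¬ N < n * d), hh p n / (Real.sqrt n : ℂ))]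
    rw [Finset.sum_filter_add_sum_filter_not]
    exact hF.symm
  rw [h2, mul_zero]

end Pool.Agent.H74.PZ
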