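import Pool.Agent.H74.PZ.Mom1

/-!
# The moment lemma

`K = |A|`, `a n = τ(n)^2/n`, `F(n) = ∑_{p ∈ A} hh p n`, and for `p, p' ∈ A`
`S(p, p') = ∑_{n ∈ Ioc Y N} a n · hh p n · conj (hh p' n) = ∑ a n · hh (pm p (pc p')) n` (`hh_pc`, `hh_pm`).

`moment`: `Mo := ∑_{n ∈ Ioc Y N} a n |F(n)|^2 = ∑_{p, p'} S(p, p')`, so `Mo ≤ ∑_{p,p'} |S(p,p')|` and by the power mean
inequality (`inner_le…` or `pow_arith_mean_le_arith_mean_pow`, `Finset.inner_mul_le_norm_mul_norm`; convenient: `inv_card…`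
`pow_sum_div_card_le_sum_pow : (∑ i ∈ s, f i) ^ (n+1) / s.card ^ n ≤ ∑ i ∈ s, f i ^ (n+1)`) over the `K^2` pairs
`Mo^{2k} ≤ (K^2)^{2k-1} ∑_{p,p'} |S|^{2k} ≤ K^{4k-2} · K · Z`.
-/

namespace Pool.Agent.H74.PZ

open Finset MeasureTheory

variable {q : ℕ} [NeZero q]

theorem mo_expand (A : Finset (DirichletCharacter ℂ q × ℝ)) (n : ℕ) :
    ((‖∑ p ∈ A, hh p n‖ ^ 2 : ℝ) : ℂ) = ∑ x ∈ A ×ˢ A, hh (pm x.1 (pc x.2)) n := by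
  rw [Complex.ofReal_pow, ← Complex.mul_conj', map_sum, Finset.sum_mul_sum, ← Finset.sum_product']
  refine Finset.sum_congr rfl fun x _ => ?_
  rw [hh_pm, hh_pc]

theorem mo_le (A : Finset (DirichletCharacter ℂ q × ℝ)) (Y N : ℕ) (a : ℕ → ℝ)
    (ha : ∀ n, 0 ≤ a n) :
    ∑ n ∈ Ioc Y N, a n * ‖∑ p ∈ A, hh p n‖ ^ 2 ≤
      ∑ x ∈ A ×ˢ A, ‖∑ n ∈ Ioc Y N, (a n : ℂ) * hh (pm x.1 (pc x.2)) n‖ := by
  have h1 : ((∑ n ∈ Ioc Y N, a n * ‖∑ p ∈ A, hh p n‖ ^ 2 : ℝ) : ℂ) =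
      ∑ x ∈ A ×ˢ A, ∑ n ∈ Ioc Y N, (a n : ℂ) * hh (pm x.1 (pc x.2)) n := by
    rw [Finset.sum_comm]
    push_cast
    refine Finset.sum_congr rfl fun n _ => ?_
    rw [← Finset.mul_sum, ← mo_expand]
    push_cast
    rfl
  have h2 : 0 ≤ ∑ n ∈ Ioc Y N, a n * ‖∑ p ∈ A, hh p n‖ ^ 2 :=
    Finset.sum_nonneg fun n _ => mul_nonneg (ha n) (sq_nonneg _)
  have h3 := norm_sum_le (A ×ˢ A) fun x => ∑ n ∈ Ioc Y N, (a n : ℂ) * hh (pm x.1 (pc x.2)) n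
  rw [← h1, Complex.norm_real, Real.norm_of_nonneg h2] at h3
  exact h3

theorem moment (A : Finset (DirichletCharacter ℂ q × ℝ)) (hA : Sep A) (T : ℝ) (hT : 1 ≤ T)
    (hAT : ∀ p ∈ A, |p.2| ≤ T) (Y N k : ℕ) (hk : 1 ≤ k) (hY : 1 ≤ Y) (hYN : Y ≤ N)
    (hQ : q * T ≤ (Y : ℝ) ^ k) :
    (∑ n ∈ Ioc Y N, (n.divisors.card : ℝ) ^ 2 / n * ‖∑ p ∈ A, hh p n‖ ^ 2) ^ (2 * k) ≤
      (A.card : ℝ) ^ (4 * k - 1) *
        (3 * LS q (N ^ k) * (1 + Real.log ((N : ℝ) ^ k)) ^ (16 * k ^ 2)) := by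
  rcases A.eq_empty_or_nonempty with hE | hne
  · subst hE
    simp only [Finset.sum_empty, norm_zero, Finset.card_empty, Nat.cast_zero]
    rw [zero_pow (by omega : 4 * k - 1 ≠ 0), zero_mul]
    simp [show k ≠ 0 by omega]
  obtain ⟨m, hm⟩ : ∃ m, 2 * k = m + 1 := ⟨2 * k - 1, by omega⟩
  have ha : ∀ n : ℕ, 0 ≤ (n.divisors.card : ℝ) ^ 2 / n := fun n => by positivity
  have h1 := mo_le A Y N (fun n : ℕ => (n.divisors.card : ℝ) ^ 2 / n) ha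
  have h0 : 0 ≤ ∑ n ∈ Ioc Y N, (n.divisors.card : ℝ) ^ 2 / n * ‖∑ p ∈ A, hh p n‖ ^ 2 :=
    Finset.sum_nonneg fun n _ => mul_nonneg (ha n) (sq_nonneg _)
  have h2 := pow_le_pow_left₀ h0 h1 (2 * k)
  refine h2.trans ?_
  have h3 := pow_sum_div_card_le_sum_pow (s := A ×ˢ A)
    (f := fun x => ‖∑ n ∈ Ioc Y N, (((n.divisors.card : ℝ) ^ 2 / n : ℝ) : ℂ) *
      hh (pm x.1 (pc x.2)) n‖) (fun x _ => norm_nonneg _) m
  rw [← hm] at h3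
  have hK : (0 : ℝ) < (A ×ˢ A).card := by
    rw [Finset.card_product]
    have := hne.card_pos
    positivity
  rw [div_le_iff₀ (by positivity)] at h3
  refine h3.trans ?_
  have h4 : ∑ x ∈ A ×ˢ A, ‖∑ n ∈ Ioc Y N, (((n.divisors.card : ℝ) ^ 2 / n : ℝ) : ℂ) *
      hh (pm x.1 (pc x.2)) n‖ ^ (2 * k) ≤ A.card *
        (3 * LS q (N ^ k) * (1 + Real.log ((N : ℝ) ^ k)) ^ (16 * k ^ 2)) := by
    rw [Finset.sum_product_right, ← nsmul_eq_mul, ← Finset.sum_const]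
    exact Finset.sum_le_sum fun p' hp' => mom_fixed A hA T hT hAT Y N k hk hY hYN hQ p' hp'
  have h5 : ((A ×ˢ A).card : ℝ) ^ m = (A.card : ℝ) ^ (4 * k - 2) := by
    rw [Finset.card_product]
    push_cast
    rw [← sq, ← pow_mul]
    congr 1
    omega
  rw [h5]
  have h6 : (A.card : ℝ) ^ (4 * k - 1) = (A.card : ℝ) ^ (4 * k - 2) * A.card := by
    rw [← pow_succ]
    congr 1
    omega
  rw [h6]
  have h7 : (0 : ℝ) ≤ (A.card : ℝ) ^ (4 * k - 2) := by positivity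
  calc _ ≤ (A.card * (3 * LS q (N ^ k) * (1 + Real.log ((N : ℝ) ^ k)) ^ (16 * k ^ 2))) *
        (A.card : ℝ) ^ (4 * k - 2) := mul_le_mul_of_nonneg_right h4 h7
    _ = _ := by ring

end Pool.Agent.H74.PZ
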