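import Pool.Agent.H74.PZ.G1
import Pool.Agent.H74.PZ.G2
import Pool.Agent.H74.PZ.Moll
import Pool.Agent.H74.PZ.Mom

/-!
# The inequality for separated sets

`N = q ⌈T⌉₊`, `D = LS q N`, `K = |A|`, `F(m) = ∑_{p ∈ A} hh p m`.  For `p' ∈ B` sum `zero_identity` (for the points
`pm p p'`, `X = ⌈T⌉₊`) over `p ∈ A`:
`K = - G₁(p') - G₂(p')`, `G₁(p') = ∑_{m ∈ Ioc Y N} (cc Y m/√m) F(m) hh p' m`,
`G₂(p') = ∑_{d ≤ Y} μ(d)/√d · hh p' d · ∑_{p ∈ A} hh p d · RR ⌈T⌉₊ d (pm p p')`.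
So `|B| K^2 ≤ 2 ∑_B |G₁|^2 + 2 ∑_B |G₂|^2`.

`sep_bound`: combine; `Mo` is the sum in `moment` (`N := q ⌈T⌉₊`).

Use `g1_bound`, `g2_bound`, `moment`.
-/

namespace Pool.Agent.H74.PZ

open Finset MeasureTheory

variable {q : ℕ} [NeZero q]

theorem sep_bound (A B : Finset (DirichletCharacter ℂ q × ℝ)) (hA : Sep A) (hB : Sep B) (T : ℝ)
    (hT : 1 ≤ T) (hAT : ∀ p ∈ A, |p.2| ≤ T) (hBT : ∀ p ∈ B, |p.2| ≤ T) (Y k : ℕ) (hk : 1 ≤ k)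
    (hY : 1 ≤ Y) (hYN : Y ≤ q * ⌈T⌉₊) (hQ : q * T ≤ (Y : ℝ) ^ k)
    (h0 : ∀ p ∈ A, ∀ p' ∈ B,
      (p.1 * p'.1).LFunction (1 / 2 + ((p.2 + p'.2 : ℝ) : ℂ) * Complex.I) = 0) :
    ∃ Mo : ℝ, 0 ≤ Mo ∧ Mo ^ (2 * k) ≤ (A.card : ℝ) ^ (4 * k - 1) *
        (3 * LS q ((q * ⌈T⌉₊) ^ k) * (1 + Real.log (((q * ⌈T⌉₊ : ℕ) : ℝ) ^ k)) ^ (16 * k ^ 2)) ∧
      (B.card : ℝ) * (A.card : ℝ) ^ 2 ≤ 6 * (q * T) * LS q (q * ⌈T⌉₊) * Mo +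
        60 * LS q (q * ⌈T⌉₊) ^ 3 * (Y : ℝ) ^ 2 * (q * T) * A.card := by
  have hX : 1 ≤ ⌈T⌉₊ := Nat.one_le_iff_ne_zero.mpr (by
    intro h
    rw [Nat.ceil_eq_zero] at h
    linarith)
  have hid : ∀ p' ∈ B, (A.card : ℂ) +
      (∑ m ∈ Ioc Y (q * ⌈T⌉₊), ((cc Y m : ℤ) : ℂ) / (Real.sqrt m : ℂ) *
        (∑ p ∈ A, hh p m) * hh p' m) +
      (∑ d ∈ Icc 1 Y, ((ArithmeticFunction.moebius d : ℤ) : ℂ) / (Real.sqrt d : ℂ) *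
        hh p' d * ∑ p ∈ A, hh p d * RR ⌈T⌉₊ d (pm p p')) = 0 := by
    intro p' hp'
    have h1 : ∀ p ∈ A, 1 + ∑ m ∈ Ioc Y (q * ⌈T⌉₊), ((cc Y m : ℤ) : ℂ) *
        (hh (pm p p') m / (Real.sqrt m : ℂ)) +
      ∑ d ∈ Icc 1 Y, ((ArithmeticFunction.moebius d : ℤ) : ℂ) *
        (hh (pm p p') d / (Real.sqrt d : ℂ)) * RR ⌈T⌉₊ d (pm p p') = 0 := by
      intro p hp
      exact zero_identity ⌈T⌉₊ Y hX hY hYN (pm p p') (h0 p hp p' hp')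
    have h2 := Finset.sum_eq_zero h1
    rw [Finset.sum_add_distrib, Finset.sum_add_distrib, Finset.sum_const, nsmul_eq_mul,
      mul_one, Finset.sum_comm, Finset.sum_comm (s := A) (t := Icc 1 Y)] at h2
    rw [← h2]
    congr 1
    · congr 1
      refine Finset.sum_congr rfl fun m _ => ?_
      rw [Finset.mul_sum, Finset.sum_mul]
      refine Finset.sum_congr rfl fun p _ => ?_
      rw [hh_pm]
      ring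
    · refine Finset.sum_congr rfl fun d _ => ?_
      rw [Finset.mul_sum]
      refine Finset.sum_congr rfl fun p _ => ?_
      rw [hh_pm]
      ring
  have hsq : ∀ p' ∈ B, (A.card : ℝ) ^ 2 ≤
      2 * ‖∑ m ∈ Ioc Y (q * ⌈T⌉₊), ((cc Y m : ℤ) : ℂ) / (Real.sqrt m : ℂ) *
        (∑ p ∈ A, hh p m) * hh p' m‖ ^ 2 +
      2 * ‖∑ d ∈ Icc 1 Y, ((ArithmeticFunction.moebius d : ℤ) : ℂ) / (Real.sqrt d : ℂ) *
        hh p' d * ∑ p ∈ A, hh p d * RR ⌈T⌉₊ d (pm p p')‖ ^ 2 := by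
    intro p' hp'
    have h1 := hid p' hp'
    set G1 := ∑ m ∈ Ioc Y (q * ⌈T⌉₊), ((cc Y m : ℤ) : ℂ) / (Real.sqrt m : ℂ) *
        (∑ p ∈ A, hh p m) * hh p' m with hG1
    set G2 := ∑ d ∈ Icc 1 Y, ((ArithmeticFunction.moebius d : ℤ) : ℂ) / (Real.sqrt d : ℂ) *
        hh p' d * ∑ p ∈ A, hh p d * RR ⌈T⌉₊ d (pm p p') with hG2
    have h2 : (A.card : ℂ) = -(G1 + G2) := by linear_combination h1
    have h3 : (A.card : ℝ) ≤ ‖G1‖ + ‖G2‖ := by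
      have h4 : ‖(A.card : ℂ)‖ = (A.card : ℝ) := by simp
      rw [← h4, h2, norm_neg]
      exact norm_add_le _ _
    have h5 : (0 : ℝ) ≤ A.card := Nat.cast_nonneg _
    have h6 := pow_le_pow_left₀ h5 h3 2
    nlinarith [sq_nonneg (‖G1‖ - ‖G2‖)]
  refine ⟨∑ m ∈ Ioc Y (q * ⌈T⌉₊), (m.divisors.card : ℝ) ^ 2 / m * ‖∑ p ∈ A, hh p m‖ ^ 2,
    Finset.sum_nonneg fun m _ => by positivity, moment A hA T hT hAT Y _ k hk hY hYN hQ, ?_⟩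
  have hsum := Finset.sum_le_sum hsq
  rw [Finset.sum_const, nsmul_eq_mul, Finset.sum_add_distrib, ← Finset.mul_sum,
    ← Finset.mul_sum] at hsum
  have hg1 := g1_bound A B hB T hT hBT Y
  have hg2 := g2_bound A B hA hB T hT hAT hBT Y hY hYN
  linarith

end Pool.Agent.H74.PZ
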