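import Mathlib

/-!
# Patterns of zeros: definitions and elementary lemmas

`ee a y = e^{-i a y}`, `hh (χ, t) n = χ(n) n^{-it}`, separated sets of points `(χ, t)`.
-/

namespace Pool.Agent.H74.PZ

open Finset MeasureTheory

/-- `e^{-i a y}` -/
noncomputable def ee (a y : ℝ) : ℂ := Complex.exp (((-(a * y) : ℝ) : ℂ) * Complex.I)

/-- `χ(n) n^{-it}` for the point `p = (χ, t)` -/
noncomputable def hh {q : ℕ} (p : DirichletCharacter ℂ q × ℝ) (n : ℕ) : ℂ :=
  p.1 (n : ZMod q) * ee p.2 (Real.log n)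

/-- product of points -/
noncomputable def pm {q : ℕ} (p p' : DirichletCharacter ℂ q × ℝ) : DirichletCharacter ℂ q × ℝ :=
  (p.1 * p'.1, p.2 + p'.2)

/-- two points with the same character have ordinates at distance at least one -/
def Sep {q : ℕ} (s : Finset (DirichletCharacter ℂ q × ℝ)) : Prop :=
  ∀ p ∈ s, ∀ p' ∈ s, p ≠ p' → p.1 = p'.1 → 1 ≤ |p.2 - p'.2|

lemma norm_ee (a y : ℝ) : ‖ee a y‖ = 1 := by
  unfold ee
  exact Complex.norm_exp_ofReal_mul_I _

lemma ee_zero_left (y : ℝ) : ee 0 y = 1 := by simp [ee]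

lemma ee_zero_right (a : ℝ) : ee a 0 = 1 := by simp [ee]

lemma ee_add_left (a b y : ℝ) : ee (a + b) y = ee a y * ee b y := by
  unfold ee
  rw [← Complex.exp_add]
  congr 1
  push_cast
  ring

lemma ee_add_right (a y z : ℝ) : ee a (y + z) = ee a y * ee a z := by
  unfold ee
  rw [← Complex.exp_add]
  congr 1
  push_cast
  ring

lemma conj_ee (a y : ℝ) : (starRingEnd ℂ) (ee a y) = ee (-a) y := by
  unfold ee
  rw [← Complex.exp_conj]
  congr 1
  rw [map_mul, Complex.conj_ofReal, Complex.conj_I]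
  push_cast
  ring

lemma ee_ne_zero (a y : ℝ) : ee a y ≠ 0 := by
  unfold ee
  exact Complex.exp_ne_zero _

lemma continuous_ee (a : ℝ) : Continuous (ee a) := by
  unfold ee
  fun_prop

lemma hasDerivAt_ee (a y : ℝ) :
    HasDerivAt (ee a) (-(a : ℂ) * Complex.I * ee a y) y := by
  unfold ee
  have h1 : HasDerivAt (fun y : ℝ => ((-(a * y) : ℝ) : ℂ) * Complex.I)
      (-(a : ℂ) * Complex.I) y := by
    have h2 : HasDerivAt (fun y : ℝ => (-(a * y) : ℝ)) (-a) y := by
      have h5 := ((hasDerivAt_id y).const_mul (-a))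
      simp only [mul_one, id] at h5
      refine h5.congr_of_eventuallyEq (Filter.Eventually.of_forall fun z => ?_)
      simp
    have h3 := (h2.ofReal_comp).mul_const Complex.I
    simpa using h3
  have h4 := h1.cexp
  convert h4 using 1
  ring

/-- `n^{-s}` on the critical line -/
lemma cpow_eq_ee (n : ℕ) (hn : n ≠ 0) (τ : ℝ) :
    ((n : ℂ)) ^ (-(1 / 2 + (τ : ℂ) * Complex.I)) = ee τ (Real.log n) / (Real.sqrt n : ℂ) := by
  have hn0 : (0 : ℝ) < n := by exact_mod_cast Nat.pos_of_ne_zero hn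
  have hnc : (n : ℂ) ≠ 0 := by exact_mod_cast hn
  rw [Complex.cpow_def_of_ne_zero hnc]
  have h1 : (Real.sqrt n : ℂ) = Complex.exp ((Real.log n : ℂ) * (1 / 2)) := by
    rw [Real.sqrt_eq_rpow, Real.rpow_def_of_pos hn0]
    push_cast
    rfl
  rw [h1, ee, ← Complex.exp_sub]
  congr 1
  rw [← Complex.natCast_log]
  push_cast
  ring

variable {q : ℕ}

lemma norm_hh_le (p : DirichletCharacter ℂ q × ℝ) (n : ℕ) : ‖hh p n‖ ≤ 1 := by
  unfold hh
  rw [norm_mul, norm_ee, mul_one]
  exact DirichletCharacter.norm_le_one _ _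

lemma hh_one (p : DirichletCharacter ℂ q × ℝ) : hh p 1 = 1 := by
  simp [hh, ee_zero_right]

lemma hh_mul (p : DirichletCharacter ℂ q × ℝ) (m n : ℕ) (hm : m ≠ 0) (hn : n ≠ 0) :
    hh p (m * n) = hh p m * hh p n := by
  unfold hh
  have h1 : Real.log ((m * n : ℕ) : ℝ) = Real.log m + Real.log n := by
    push_cast
    exact Real.log_mul (by exact_mod_cast hm) (by exact_mod_cast hn)
  rw [h1, ee_add_right, Nat.cast_mul, map_mul]
  ring

lemma hh_pm (p p' : DirichletCharacter ℂ q × ℝ) (n : ℕ) : hh (pm p p') n = hh p n * hh p' n := by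
  unfold hh pm
  simp only [MulChar.mul_apply, ee_add_left]
  ring

/-- the conjugate point -/
noncomputable def pc (p : DirichletCharacter ℂ q × ℝ) : DirichletCharacter ℂ q × ℝ := (p.1⁻¹, -p.2)

lemma hh_pc [NeZero q] (p : DirichletCharacter ℂ q × ℝ) (n : ℕ) :
    hh (pc p) n = (starRingEnd ℂ) (hh p n) := by
  unfold hh pc
  simp only [map_mul, conj_ee]
  rw [← MulChar.star_apply', ← starRingEnd_apply]

/-- `∑ x_p χ_p(r) e^{-i t_p y}` -/
noncomputable def FF (s : Finset (DirichletCharacter ℂ q × ℝ)) (x : DirichletCharacter ℂ q × ℝ → ℂ)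
    (r : ZMod q) (y : ℝ) : ℂ := ∑ p ∈ s, x p * p.1 r * ee p.2 y

lemma continuous_FF (s : Finset (DirichletCharacter ℂ q × ℝ))
    (x : DirichletCharacter ℂ q × ℝ → ℂ) (r : ZMod q) : Continuous (FF s x r) := by
  unfold FF
  exact continuous_finsetSum _ fun p _ => continuous_const.mul (continuous_ee p.2)

lemma norm_FF_le (s : Finset (DirichletCharacter ℂ q × ℝ))
    (x : DirichletCharacter ℂ q × ℝ → ℂ) (r : ZMod q) (y : ℝ) :
    ‖FF s x r y‖ ≤ ∑ p ∈ s, ‖x p‖ := by
  unfold FF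
  refine (norm_sum_le _ _).trans (Finset.sum_le_sum fun p _ => ?_)
  rw [norm_mul, norm_mul, norm_ee, mul_one]
  exact mul_le_of_le_one_right (norm_nonneg _) (DirichletCharacter.norm_le_one _ _)

lemma FF_log (s : Finset (DirichletCharacter ℂ q × ℝ))
    (x : DirichletCharacter ℂ q × ℝ → ℂ) (n : ℕ) :
    FF s x (n : ZMod q) (Real.log n) = ∑ p ∈ s, x p * hh p n := by
  unfold FF hh
  exact Finset.sum_congr rfl fun p _ => by ring

/-- the discrepancy of the residue class `r` mod `q` at `u` -/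
noncomputable def er (q : ℕ) (r : ZMod q) (u : ℝ) : ℝ :=
  (((Icc 1 ⌊u⌋₊).filter (fun n : ℕ => (n : ZMod q) = r)).card : ℝ) - u / q

/-- mean value of a character -/
noncomputable def kap [NeZero q] (χ : DirichletCharacter ℂ q) : ℂ := (∑ r : ZMod q, χ r) / q

/-- the error terms in the formula for the L-function, with the part `n d > q X` of the sum -/
noncomputable def RR [NeZero q] (X d : ℕ) (p : DirichletCharacter ℂ q × ℝ) : ℂ :=
  (∑ n ∈ (Icc 1 (q * X)).filter (fun n => q * X < n * d), hh p n / (Real.sqrt n : ℂ)) +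
  kap p.1 * ((Real.sqrt (q * X : ℕ) : ℂ) * ee p.2 (Real.log (q * X : ℕ))) /
    (-(1 / 2) + (p.2 : ℂ) * Complex.I) +
  (1 / 2 + (p.2 : ℂ) * Complex.I) * ∑ r : ZMod q, p.1 r *
    ∫ y in Set.Ioi (Real.log (q * X : ℕ)),
      ((er q r (Real.exp y) * Real.exp (-y / 2) : ℝ) : ℂ) * ee p.2 y

/-- the coefficients of the mollified polynomial -/
def cc (Y m : ℕ) : ℤ := ∑ d ∈ m.divisors.filter (fun d => d ≤ Y), ArithmeticFunction.moebius d

/-- `d_j(n)` -/
def dj : ℕ → ℕ → ℕ
  | 0, n => if n = 1 then 1 else 0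
  | j + 1, n => ∑ d ∈ n.divisors, dj j d

/-- the constant of the large sieve -/
noncomputable def LS (q W : ℕ) : ℝ := 60 * (2 + Real.log (W + q))

lemma LS_pos (q W : ℕ) : 0 < LS q W := by
  unfold LS
  have : 0 ≤ Real.log ((W : ℝ) + q) := by
    rcases Nat.eq_zero_or_pos (W + q) with h | h
    · have : ((W : ℝ) + q) = 0 := by exact_mod_cast h
      rw [this, Real.log_zero]
    · apply Real.log_nonneg
      exact_mod_cast h
  linarith

end Pool.Agent.H74.PZ
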