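import Pool.Agent.H74.PZ.Defs

/-!
# Overlap of logarithmic intervals

`overlap`: for `g : ZMod q → ℝ → ℝ`, `g ≥ 0` continuous:
`∑_{n ≤ W} ∫_{log n}^{log (n+q)} g_{n mod q} ≤ ∑_r ∫_0^{log(W+q)} g_r`.  Proof: both sides are integrals over
`(0, log (W+q)]` (set integrals, indicator functions), and pointwise
`∑_{n ≤ W, log n < y ≤ log (n+q)} g_{n mod q}(y) ≤ ∑_r g_r(y)`, because the `n` with
`n < e^y ≤ n + q` have distinct residues mod `q` (two of them differ by less than `q`).
-/

namespace Pool.Agent.H74.PZ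

open Finset MeasureTheory

variable {q : ℕ} [NeZero q]

omit [NeZero q] in
theorem ov_inj {y : ℝ} {n n' : ℕ} (hn : 1 ≤ n) (hn' : 1 ≤ n') (h1 : Real.log n < y)
    (h2 : y ≤ Real.log (n + q)) (h1' : Real.log n' < y) (h2' : y ≤ Real.log (n' + q))
    (h : (n : ZMod q) = n') : n = n' := by
  have key : ∀ {a b : ℕ}, 1 ≤ a → 1 ≤ b → Real.log a < y → y ≤ Real.log (b + q) →
      a < b + q := by
    intro a b ha hb h3 h4
    have ha0 : (0 : ℝ) < a := by exact_mod_cast ha
    have h5 : Real.log a < Real.log ((b : ℝ) + q) := h3.trans_le h4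
    have h6 := (Real.log_lt_log_iff ha0 (by positivity)).mp h5
    exact_mod_cast h6
  have k1 := key hn hn' h1 h2'
  have k2 := key hn' hn h1' h2
  rcases lt_trichotomy n n' with hlt | heq | hlt
  · exfalso
    have h3 : q ∣ n' - n := (Nat.modEq_iff_dvd' hlt.le).mp ((ZMod.natCast_eq_natCast_iff _ _ _).mp h)
    have h4 := Nat.le_of_dvd (by omega) h3
    omega
  · exact heq
  · exfalso
    have h3 : q ∣ n - n' :=
      (Nat.modEq_iff_dvd' hlt.le).mp ((ZMod.natCast_eq_natCast_iff _ _ _).mp h.symm)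
    have h4 := Nat.le_of_dvd (by omega) h3
    omega

theorem ov_point (g : ZMod q → ℝ → ℝ) (hg0 : ∀ r y, 0 ≤ g r y) (W : ℕ) (y : ℝ) :
    ∑ n ∈ Icc 1 W, (Set.Ioc (Real.log n) (Real.log (n + q))).indicator (g (n : ZMod q)) y ≤
      ∑ r : ZMod q, g r y := by
  classical
  have h1 : ∑ n ∈ Icc 1 W,
      (Set.Ioc (Real.log n) (Real.log (n + q))).indicator (g (n : ZMod q)) y =
      ∑ n ∈ (Icc 1 W).filter (fun n : ℕ => y ∈ Set.Ioc (Real.log n) (Real.log (n + q))),
        g (n : ZMod q) y := by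
    rw [Finset.sum_filter]
    refine Finset.sum_congr rfl fun n _ => ?_
    rw [Set.indicator_apply]
  rw [h1, ← Finset.sum_image (f := fun r => g r y) (g := fun n : ℕ => (n : ZMod q))]
  · exact Finset.sum_le_sum_of_subset_of_nonneg (Finset.subset_univ _) fun r _ _ => hg0 r y
  · intro n hn n' hn' h
    simp only [Finset.coe_filter, Finset.mem_Icc, Set.mem_ofPred_eq, Set.mem_Ioc] at hn hn'
    exact ov_inj hn.1.1 hn'.1.1 hn.2.1 hn.2.2 hn'.2.1 hn'.2.2 h

theorem overlap (g : ZMod q → ℝ → ℝ) (hg : ∀ r, Continuous (g r)) (hg0 : ∀ r y, 0 ≤ g r y)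
    (W : ℕ) : ∑ n ∈ Icc 1 W, ∫ y in (Real.log n)..(Real.log (n + q)), g (n : ZMod q) y ≤
      ∑ r : ZMod q, ∫ y in (0 : ℝ)..(Real.log (W + q)), g r y := by
  have hq : (1 : ℝ) ≤ q := by exact_mod_cast NeZero.one_le
  have hW : (0 : ℝ) ≤ W := Nat.cast_nonneg W
  have hint : ∀ r, IntegrableOn (g r) (Set.Ioc 0 (Real.log (W + q))) := fun r =>
    (hg r).integrableOn_Ioc
  have h1 : ∀ n ∈ Icc 1 W, ∫ y in (Real.log n)..(Real.log (n + q)), g (n : ZMod q) y =
      ∫ y in Set.Ioc 0 (Real.log (W + q)),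
        (Set.Ioc (Real.log n) (Real.log (n + q))).indicator (g (n : ZMod q)) y := by
    intro n hn
    rw [Finset.mem_Icc] at hn
    have hn0 : (1 : ℝ) ≤ n := by exact_mod_cast hn.1
    have hnW : (n : ℝ) ≤ W := by exact_mod_cast hn.2
    rw [intervalIntegral.integral_of_le (Real.log_le_log (by linarith) (by linarith)),
      MeasureTheory.setIntegral_indicator measurableSet_Ioc, Set.inter_eq_right.mpr]
    exact Set.Ioc_subset_Ioc (Real.log_nonneg hn0)
      (Real.log_le_log (by linarith) (by linarith))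
  have h2 : ∀ r : ZMod q, ∫ y in (0 : ℝ)..(Real.log (W + q)), g r y =
      ∫ y in Set.Ioc 0 (Real.log (W + q)), g r y := fun r =>
    intervalIntegral.integral_of_le (Real.log_nonneg (by linarith))
  rw [Finset.sum_congr rfl h1, Finset.sum_congr rfl fun r _ => h2 r,
    ← MeasureTheory.integral_finsetSum _ fun n _ => (hint _).indicator measurableSet_Ioc,
    ← MeasureTheory.integral_finsetSum _ fun r _ => hint r]
  refine MeasureTheory.integral_mono
    (MeasureTheory.integrable_finsetSum _ fun n _ => (hint _).indicator measurableSet_Ioc)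
    (MeasureTheory.integrable_finsetSum _ fun r _ => hint r) fun y => ov_point g hg0 W y

end Pool.Agent.H74.PZ
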