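import Pool.Agent.H74.PZ.Defs

/-!
# A Sobolev inequality

`sobolev`: for `f : ℝ → ℂ` with derivative `f'` (continuous) and `a < b`:
`‖f a‖^2 ≤ (1/(b-a)) ∫_a^b ‖f‖^2 + 2 ∫_a^b ‖f‖ ‖f'‖`.  Proof: for `z ∈ [a, b]`,
`‖f a‖^2 = ‖f z‖^2 - ∫_a^z (‖f‖^2)' ≤ ‖f z‖^2 + 2 ∫_a^b ‖f‖‖f'‖`, because
`(‖f‖^2)' = 2 Re (conj f f')` (write `‖f‖^2 = Re f ^2 + Im f ^2`); integrate over `z`.
-/

namespace Pool.Agent.H74.PZ

open Finset MeasureTheory

theorem sobolev (f f' : ℝ → ℂ) (hf : ∀ y, HasDerivAt f (f' y) y) (hf' : Continuous f') (a b : ℝ)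
    (hab : a < b) : ‖f a‖ ^ 2 ≤ (1 / (b - a)) * (∫ y in a..b, ‖f y‖ ^ 2) +
      2 * ∫ y in a..b, ‖f y‖ * ‖f' y‖ := by
  have hfc : Continuous f := continuous_iff_continuousAt.2 fun y => (hf y).continuousAt
  have hba : 0 < b - a := sub_pos.2 hab
  set G : ℝ → ℝ := fun y => 2 * inner ℝ (f y) (f' y) with hG
  have hGc : Continuous G := by
    rw [hG]; exact continuous_const.mul (hfc.inner hf')
  have hF : ∀ y, HasDerivAt (fun y => ‖f y‖ ^ 2) (G y) y := fun y => (hf y).norm_sq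
  have hGle : ∀ y, |G y| ≤ 2 * (‖f y‖ * ‖f' y‖) := by
    intro y
    rw [hG]
    simp only [abs_mul, abs_two]
    exact mul_le_mul_of_nonneg_left (abs_real_inner_le_norm _ _) (by norm_num)
  have hpc : Continuous fun y => 2 * (‖f y‖ * ‖f' y‖) :=
    continuous_const.mul (hfc.norm.mul hf'.norm)
  set K := 2 * ∫ y in a..b, ‖f y‖ * ‖f' y‖ with hK
  have key : ∀ z ∈ Set.Icc a b, ‖f a‖ ^ 2 ≤ ‖f z‖ ^ 2 + K := by
    intro z hz
    have h1 : ∫ y in a..z, G y = ‖f z‖ ^ 2 - ‖f a‖ ^ 2 :=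
      intervalIntegral.integral_eq_sub_of_hasDerivAt (fun y _ => hF y)
        (hGc.intervalIntegrable _ _)
    have h2 : |∫ y in a..z, G y| ≤ ∫ y in a..z, 2 * (‖f y‖ * ‖f' y‖) := by
      refine (intervalIntegral.abs_integral_le_integral_abs hz.1).trans ?_
      exact intervalIntegral.integral_mono_on hz.1 (hGc.abs.intervalIntegrable _ _)
        (hpc.intervalIntegrable _ _) fun y _ => hGle y
    have h3 : ∫ y in a..z, 2 * (‖f y‖ * ‖f' y‖) ≤ ∫ y in a..b, 2 * (‖f y‖ * ‖f' y‖) := by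
      refine intervalIntegral.integral_mono_interval le_rfl hz.1 hz.2 ?_
        (hpc.intervalIntegrable _ _)
      exact Filter.Eventually.of_forall fun y => by positivity
    have h4 : ∫ y in a..b, 2 * (‖f y‖ * ‖f' y‖) = K := by
      rw [hK, intervalIntegral.integral_const_mul]
    have h5 := abs_le.1 (h2.trans (h3.trans h4.le))
    rw [h1] at h5
    linarith [h5.1]
  have hcF : Continuous fun y => ‖f y‖ ^ 2 := hfc.norm.pow 2
  have h6 : (b - a) * ‖f a‖ ^ 2 ≤ (∫ y in a..b, ‖f y‖ ^ 2) + (b - a) * K := by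
    have h7 : ∫ _ in a..b, ‖f a‖ ^ 2 ≤ ∫ y in a..b, (‖f y‖ ^ 2 + K) :=
      intervalIntegral.integral_mono_on hab.le (continuous_const.intervalIntegrable _ _)
        ((hcF.add continuous_const).intervalIntegrable _ _) fun z hz => key z hz
    rw [intervalIntegral.integral_const, intervalIntegral.integral_add
      (hcF.intervalIntegrable _ _) (continuous_const.intervalIntegrable _ _),
      intervalIntegral.integral_const, smul_eq_mul, smul_eq_mul] at h7
    exact h7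
  have h8 : ‖f a‖ ^ 2 ≤ ((∫ y in a..b, ‖f y‖ ^ 2) + (b - a) * K) / (b - a) := by
    rw [le_div_iff₀ hba]; linarith
  refine h8.trans (le_of_eq ?_)
  field_simp

end Pool.Agent.H74.PZ
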