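import Pool.Agent.H74.PZ.Res
import Pool.Agent.H74.PZ.Sob
import Pool.Agent.H74.PZ.Over

/-!
# The dual large sieve at integers

`dual_ls`: let `f_r = FF s x r`; its derivative is `FF s x' r`, `x'_p = - i p.2 x_p`, `|x'_p| ≤ T |x_p|`.  For
`1 ≤ n ≤ W` with residue `r`, `sobolev` on `[log n, log (n+q)]`, whose length is
`log (1 + q/n) ≥ q/(n+q)`, gives with `FF_log`
`‖∑ x_p hh p n‖^2 ≤ ((n+q)/q) ∫ ‖f_r‖^2 + 2 ∫ ‖f_r‖‖f_r'‖`.  Divide by `q T + n` (`≥ n + q`, `≥ q T`):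
`≤ (1/q) ∫ ‖f_r‖^2 + (2/(q T)) ∫ ‖f_r‖ ‖f_r'‖ ≤ (1/q) ∫ (2 ‖f_r‖^2 + T^{-2} ‖f_r'‖^2)`.
Sum over `n` with `overlap` (`g_r = 2‖f_r‖^2 + T^{-2}‖f_r'‖^2`), then `long_ls` with
`L = log (W + q)` for `x` and for `x'`:
total `≤ (1/q) · 3 · 20 (L+1) φ(q) ∑ ‖x_p‖^2 ≤ 60 (L + 1) ∑ ‖x_p‖^2 ≤ LS q W ∑ ‖x_p‖^2`.
-/

namespace Pool.Agent.H74.PZ

open Finset MeasureTheory

variable {q : ℕ} [NeZero q]

/-- the coefficients of the derivative -/
noncomputable def dx (x : DirichletCharacter ℂ q × ℝ → ℂ) (p : DirichletCharacter ℂ q × ℝ) : ℂ :=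
  -(p.2 : ℂ) * Complex.I * x p

omit [NeZero q] in
theorem hasDerivAt_FF (s : Finset (DirichletCharacter ℂ q × ℝ))
    (x : DirichletCharacter ℂ q × ℝ → ℂ) (r : ZMod q) (y : ℝ) :
    HasDerivAt (FF s x r) (FF s (dx x) r y) y := by
  have h1 : HasDerivAt (fun y => ∑ p ∈ s, x p * p.1 r * ee p.2 y)
      (∑ p ∈ s, x p * p.1 r * (-(p.2 : ℂ) * Complex.I * ee p.2 y)) y :=
    HasDerivAt.fun_sum fun p _ => (hasDerivAt_ee p.2 y).const_mul _
  have h2 : ∑ p ∈ s, x p * p.1 r * (-(p.2 : ℂ) * Complex.I * ee p.2 y) = FF s (dx x) r y := by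
    unfold FF dx
    exact Finset.sum_congr rfl fun p _ => by ring
  rw [h2] at h1
  exact h1

omit [NeZero q] in
theorem norm_dx_le {s : Finset (DirichletCharacter ℂ q × ℝ)} {T : ℝ}
    (hsT : ∀ p ∈ s, |p.2| ≤ T) (x : DirichletCharacter ℂ q × ℝ → ℂ) {p : DirichletCharacter ℂ q × ℝ}
    (hp : p ∈ s) : ‖dx x p‖ ^ 2 ≤ T ^ 2 * ‖x p‖ ^ 2 := by
  unfold dx
  rw [norm_mul, norm_mul, norm_neg, Complex.norm_I, mul_one, Complex.norm_real, mul_pow]
  apply mul_le_mul_of_nonneg_right _ (by positivity)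
  rw [Real.norm_eq_abs]
  exact pow_le_pow_left₀ (abs_nonneg _) (hsT p hp) 2

/-- the pointwise estimate -/
theorem dual_pt (s : Finset (DirichletCharacter ℂ q × ℝ)) (T : ℝ) (hT : 1 ≤ T)
    (x : DirichletCharacter ℂ q × ℝ → ℂ) (n : ℕ) (hn : 1 ≤ n) :
    ‖∑ p ∈ s, x p * hh p n‖ ^ 2 / (q * T + n) ≤
      (1 / q) * ∫ y in (Real.log n)..(Real.log (n + q)),
        (2 * ‖FF s x (n : ZMod q) y‖ ^ 2 + (1 / T ^ 2) * ‖FF s (dx x) (n : ZMod q) y‖ ^ 2) := by
  have hq0 : (0 : ℝ) < q := by exact_mod_cast Nat.pos_of_ne_zero (NeZero.ne q)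
  have hn0 : (0 : ℝ) < n := by exact_mod_cast hn
  have hT0 : 0 < T := by linarith
  set f := FF s x (n : ZMod q) with hf
  set f' := FF s (dx x) (n : ZMod q) with hf'
  have hab : Real.log n < Real.log (n + q) := Real.log_lt_log hn0 (by linarith)
  have hdiff : (q : ℝ) / (n + q) ≤ Real.log (n + q) - Real.log n := by
    rw [← Real.log_div (by positivity) (by positivity)]
    have h1 := Real.one_sub_inv_le_log_of_pos (x := ((n : ℝ) + q) / n) (by positivity)
    have h2 : 1 - (((n : ℝ) + q) / n)⁻¹ = q / (n + q) := by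
      field_simp
      ring
    rw [h2] at h1
    exact h1
  have hsob := sobolev f f' (fun y => hasDerivAt_FF s x _ y) (continuous_FF s (dx x) _) _ _ hab
  have hlog : f (Real.log n) = ∑ p ∈ s, x p * hh p n := FF_log s x n
  rw [hlog] at hsob
  have hc1 : Continuous (fun y => ‖f y‖ ^ 2) := (continuous_FF s x _).norm.pow 2
  have hc2 : Continuous (fun y => ‖f' y‖ ^ 2) := (continuous_FF s (dx x) _).norm.pow 2
  have hc3 : Continuous (fun y => ‖f y‖ * ‖f' y‖) :=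
    (continuous_FF s x _).norm.mul (continuous_FF s (dx x) _).norm
  set A := ∫ y in (Real.log n)..(Real.log (n + q)), ‖f y‖ ^ 2 with hA
  set B := ∫ y in (Real.log n)..(Real.log (n + q)), ‖f y‖ * ‖f' y‖ with hB
  set C := ∫ y in (Real.log n)..(Real.log (n + q)), ‖f' y‖ ^ 2 with hC
  have hA0 : 0 ≤ A := intervalIntegral.integral_nonneg hab.le fun y _ => by positivity
  have hB0 : 0 ≤ B := intervalIntegral.integral_nonneg hab.le fun y _ => by positivity
  have hsum : ∫ y in (Real.log n)..(Real.log (n + q)),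
      (2 * ‖f y‖ ^ 2 + (1 / T ^ 2) * ‖f' y‖ ^ 2) = 2 * A + (1 / T ^ 2) * C := by
    rw [intervalIntegral.integral_add ((hc1.const_mul 2).intervalIntegrable _ _)
      ((hc2.const_mul _).intervalIntegrable _ _), intervalIntegral.integral_const_mul,
      intervalIntegral.integral_const_mul]
  have hBle : 2 * B ≤ T * A + (1 / T) * C := by
    have h1 : ∫ y in (Real.log n)..(Real.log (n + q)), 2 * (‖f y‖ * ‖f' y‖) ≤
        ∫ y in (Real.log n)..(Real.log (n + q)), (T * ‖f y‖ ^ 2 + (1 / T) * ‖f' y‖ ^ 2) := by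
      refine intervalIntegral.integral_mono_on hab.le ((hc3.const_mul 2).intervalIntegrable _ _)
        (((hc1.const_mul T).add (hc2.const_mul (1 / T))).intervalIntegrable _ _) fun y _ => ?_
      have h2 : 0 ≤ T * (‖f y‖ - (1 / T) * ‖f' y‖) ^ 2 := by positivity
      have h3 : T * (‖f y‖ - (1 / T) * ‖f' y‖) ^ 2 =
          T * ‖f y‖ ^ 2 + (1 / T) * ‖f' y‖ ^ 2 - 2 * (‖f y‖ * ‖f' y‖) := by
        field_simp
        ring
      linarith
    rw [intervalIntegral.integral_const_mul, intervalIntegral.integral_add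
      ((hc1.const_mul T).intervalIntegrable _ _) ((hc2.const_mul (1 / T)).intervalIntegrable _ _),
      intervalIntegral.integral_const_mul, intervalIntegral.integral_const_mul] at h1
    exact h1
  rw [hsum]
  have hb0 : 0 < Real.log (n + q) - Real.log n := by linarith
  have hinv : 1 / (Real.log (n + q) - Real.log n) ≤ (n + q) / q := by
    rw [div_le_div_iff₀ hb0 hq0]
    rw [div_le_iff₀ (by positivity)] at hdiff
    linarith
  have hD : (0 : ℝ) < q * T + n := by positivity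
  rw [div_le_iff₀ hD]
  have h1 : ‖∑ p ∈ s, x p * hh p n‖ ^ 2 ≤ (n + q) / q * A + 2 * B :=
    hsob.trans (add_le_add (mul_le_mul_of_nonneg_right hinv hA0) le_rfl)
  have hC0 : 0 ≤ C := intervalIntegral.integral_nonneg hab.le fun y _ => by positivity
  have h2 : ((n : ℝ) + q) / q * A ≤ (q * T + n) / q * A := by
    apply mul_le_mul_of_nonneg_right _ hA0
    apply div_le_div_of_nonneg_right _ hq0.le
    nlinarith
  have h3 : 2 * B ≤ (q * T + n) / (q * T) * (2 * B) := by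
    have : 1 ≤ (q * T + n) / (q * T) := by
      rw [le_div_iff₀ (by positivity)]
      linarith
    nlinarith
  have h4 : (q * T + n) / (q * T) * (2 * B) ≤ (q * T + n) / (q * T) * (T * A + (1 / T) * C) :=
    mul_le_mul_of_nonneg_left hBle (by positivity)
  have h5 : (q * T + n) / q * A + (q * T + n) / (q * T) * (T * A + (1 / T) * C) =
      1 / q * (2 * A + 1 / T ^ 2 * C) * (q * T + n) := by
    field_simp
    ring
  linarith

theorem dual_ls (s : Finset (DirichletCharacter ℂ q × ℝ)) (hs : Sep s) (T : ℝ) (hT : 1 ≤ T)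
    (hsT : ∀ p ∈ s, |p.2| ≤ T) (x : DirichletCharacter ℂ q × ℝ → ℂ) (W : ℕ) :
    ∑ n ∈ Icc 1 W, ‖∑ p ∈ s, x p * hh p n‖ ^ 2 / (q * T + n) ≤
      LS q W * ∑ p ∈ s, ‖x p‖ ^ 2 := by
  have hq1 : (1 : ℝ) ≤ q := by exact_mod_cast Nat.one_le_iff_ne_zero.2 (NeZero.ne q)
  have hq0 : (0 : ℝ) < q := by linarith
  have hT0 : 0 < T := by linarith
  have hL0 : 0 ≤ Real.log (W + q) := by
    apply Real.log_nonneg
    have : (0 : ℝ) ≤ W := Nat.cast_nonneg _
    linarith
  set g : ZMod q → ℝ → ℝ := fun r y =>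
    2 * ‖FF s x r y‖ ^ 2 + (1 / T ^ 2) * ‖FF s (dx x) r y‖ ^ 2 with hg
  have hgc : ∀ r, Continuous (g r) := fun r =>
    (((continuous_FF s x r).norm.pow 2).const_mul 2).add
      (((continuous_FF s (dx x) r).norm.pow 2).const_mul _)
  have hg0 : ∀ r y, 0 ≤ g r y := fun r y => by
    simp only [hg]
    positivity
  set S := ∑ p ∈ s, ‖x p‖ ^ 2 with hS
  have hS0 : 0 ≤ S := sum_nonneg fun p _ => by positivity
  have h1 : ∑ n ∈ Icc 1 W, ‖∑ p ∈ s, x p * hh p n‖ ^ 2 / (q * T + n) ≤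
      ∑ n ∈ Icc 1 W, (1 / q) * ∫ y in (Real.log n)..(Real.log (n + q)), g (n : ZMod q) y :=
    sum_le_sum fun n hn => dual_pt s T hT x n (mem_Icc.1 hn).1
  rw [← mul_sum] at h1
  have h2 := overlap g hgc hg0 W
  have h3 : ∑ r : ZMod q, ∫ y in (0 : ℝ)..(Real.log (W + q)), g r y =
      2 * (∑ r : ZMod q, ∫ y in (0 : ℝ)..(Real.log (W + q)), ‖FF s x r y‖ ^ 2) +
      (1 / T ^ 2) * ∑ r : ZMod q, ∫ y in (0 : ℝ)..(Real.log (W + q)), ‖FF s (dx x) r y‖ ^ 2 := by
    rw [mul_sum, mul_sum, ← sum_add_distrib]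
    refine sum_congr rfl fun r _ => ?_
    simp only [hg]
    have hc1 : Continuous (fun y => ‖FF s x r y‖ ^ 2) := (continuous_FF s x r).norm.pow 2
    have hc2 : Continuous (fun y => ‖FF s (dx x) r y‖ ^ 2) := (continuous_FF s (dx x) r).norm.pow 2
    rw [intervalIntegral.integral_add ((hc1.const_mul 2).intervalIntegrable _ _)
      ((hc2.const_mul _).intervalIntegrable _ _),
      intervalIntegral.integral_const_mul, intervalIntegral.integral_const_mul]
  have h4 := long_ls s hs x _ hL0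
  have h5 := long_ls s hs (dx x) _ hL0
  have h6 : ∑ p ∈ s, ‖dx x p‖ ^ 2 ≤ T ^ 2 * S := by
    rw [hS, mul_sum]
    exact sum_le_sum fun p hp => norm_dx_le hsT x hp
  have hphi : (q.totient : ℝ) ≤ q := by exact_mod_cast Nat.totient_le q
  have hphi0 : (0 : ℝ) ≤ q.totient := Nat.cast_nonneg _
  set L := Real.log (W + q) with hL
  have h7 : (1 / T ^ 2) * (∑ r : ZMod q, ∫ y in (0 : ℝ)..L, ‖FF s (dx x) r y‖ ^ 2) ≤
      20 * (L + 1) * q.totient * S := by
    have h8 : ∑ r : ZMod q, ∫ y in (0 : ℝ)..L, ‖FF s (dx x) r y‖ ^ 2 ≤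
        20 * (L + 1) * q.totient * (T ^ 2 * S) :=
      h5.trans (mul_le_mul_of_nonneg_left h6 (by positivity))
    calc (1 / T ^ 2) * (∑ r : ZMod q, ∫ y in (0 : ℝ)..L, ‖FF s (dx x) r y‖ ^ 2)
        ≤ (1 / T ^ 2) * (20 * (L + 1) * q.totient * (T ^ 2 * S)) :=
          mul_le_mul_of_nonneg_left h8 (by positivity)
      _ = 20 * (L + 1) * q.totient * S := by
          field_simp
  have h9 : ∑ r : ZMod q, ∫ y in (0 : ℝ)..L, g r y ≤ 60 * (L + 1) * q.totient * S := by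
    rw [h3]
    linarith
  calc ∑ n ∈ Icc 1 W, ‖∑ p ∈ s, x p * hh p n‖ ^ 2 / (q * T + n)
      ≤ 1 / q * ∑ n ∈ Icc 1 W, ∫ y in (Real.log n)..(Real.log (n + q)), g (n : ZMod q) y := h1
    _ ≤ 1 / q * (60 * (L + 1) * q.totient * S) :=
        mul_le_mul_of_nonneg_left (h2.trans h9) (by positivity)
    _ ≤ 1 / q * (60 * (L + 1) * q * S) := by
        apply mul_le_mul_of_nonneg_left _ (by positivity)
        apply mul_le_mul_of_nonneg_right _ hS0
        exact mul_le_mul_of_nonneg_left hphi (by positivity)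
    _ = 60 * (L + 1) * S := by
        field_simp
    _ ≤ LS q W * S := by
        apply mul_le_mul_of_nonneg_right _ hS0
        unfold LS
        linarith

end Pool.Agent.H74.PZ
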