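import Pool.Agent.H74.PZ.Form1

/-!
# The discrepancy of residue classes

`er_abs_le`: for `u ≥ 0` the number of `n ≤ ⌊u⌋` with `n ≡ r` mod `q` (`n ≥ 1`) differs from `u/q` by at most `1`
(the count is `⌊(⌊u⌋ - r₀)/q⌋ + 1` or `0`, `1 ≤ r₀ ≤ q` the representative; `Nat.count_modEq_card`, or directly:
count `m` satisfies `(m - 1) q + r₀ ≤ u < m q + r₀`).

`Ech_eq_sum`: `Ech χ u = ∑_r χ(r) er q r u` (group the sum by residues; `∑_r χ(r) u / q = κ u`).
-/

namespace Pool.Agent.H74.PZ

open Finset MeasureTheory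

variable {q : ℕ} [NeZero q]

/-- counting a residue class in `[1, N]` -/
theorem card_class (r : ZMod q) (N : ℕ) :
    (((Icc 1 N).filter (fun n : ℕ => (n : ZMod q) = r)).card : ℤ) =
      ((N + 1) / q : ℕ) + (if r.val < (N + 1) % q then 1 else 0) -
        (if r.val = 0 then 1 else 0) := by
  have hq : 0 < q := Nat.pos_of_ne_zero (NeZero.ne q)
  have h1 := Nat.count_modEq_card (r := q) (b := N + 1) hq r.val
  rw [Nat.mod_eq_of_lt (ZMod.val_lt r)] at h1
  have h2 : ∀ n : ℕ, (n ≡ r.val [MOD q]) ↔ (n : ZMod q) = r := by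
    intro n
    rw [← ZMod.natCast_eq_natCast_iff, ZMod.natCast_zmod_val]
  rw [Nat.count_eq_card_filter_range] at h1
  have h3 : (range (N + 1)).filter (fun n => n ≡ r.val [MOD q]) =
      (if r.val = 0 then {0} else ∅) ∪ (Icc 1 N).filter (fun n : ℕ => (n : ZMod q) = r) := by
    ext n
    simp only [Finset.mem_filter, Finset.mem_range, Finset.mem_union, Finset.mem_Icc, h2]
    split_ifs with h
    · have hr : r = 0 := (ZMod.val_eq_zero r).mp h
      subst hr
      simp only [Finset.mem_singleton]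
      constructor
      · rintro ⟨h4, h5⟩
        rcases Nat.eq_zero_or_pos n with h6 | h6
        · exact Or.inl h6
        · exact Or.inr ⟨⟨h6, by omega⟩, h5⟩
      · rintro (h4 | ⟨⟨h4, h5⟩, h6⟩)
        · subst h4
          exact ⟨by omega, by simp⟩
        · exact ⟨by omega, h6⟩
    · simp only [Finset.notMem_empty, false_or]
      constructor
      · rintro ⟨h4, h5⟩
        rcases Nat.eq_zero_or_pos n with h6 | h6
        · subst h6
          rw [Nat.cast_zero] at h5
          exact absurd (by rw [← h5]; simp) h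
        · exact ⟨⟨h6, by omega⟩, h5⟩
      · rintro ⟨⟨h4, h5⟩, h6⟩
        exact ⟨by omega, h6⟩
  have h4 : Disjoint (if r.val = 0 then ({0} : Finset ℕ) else ∅)
      ((Icc 1 N).filter (fun n : ℕ => (n : ZMod q) = r)) := by
    split_ifs with h
    · rw [Finset.disjoint_singleton_left]
      simp
    · exact Finset.disjoint_empty_left _
  rw [h3, Finset.card_union_of_disjoint h4] at h1
  have h5 : (if r.val = 0 then ({0} : Finset ℕ) else ∅).card = if r.val = 0 then 1 else 0 := by
    split_ifs <;> simp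
  rw [h5] at h1
  have h6 : (((if r.val = 0 then 1 else 0) +
      ((Icc 1 N).filter (fun n : ℕ => (n : ZMod q) = r)).card : ℕ) : ℤ) =
      (((N + 1) / q + if r.val < (N + 1) % q then 1 else 0 : ℕ) : ℤ) := by rw [h1]
  push_cast at h6
  push_cast
  linarith

theorem er_abs_le (r : ZMod q) (u : ℝ) (hu : 0 ≤ u) : |er q r u| ≤ 1 := by
  have hq : 0 < q := Nat.pos_of_ne_zero (NeZero.ne q)
  have hq' : (0 : ℝ) < q := by exact_mod_cast hq
  unfold er
  set N := ⌊u⌋₊ with hN
  have h1 : (N : ℝ) ≤ u := Nat.floor_le hu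
  have h2 : u < N + 1 := Nat.lt_floor_add_one u
  have h3 := card_class r N
  set m := ((Icc 1 N).filter (fun n : ℕ => (n : ZMod q) = r)).card with hm
  have h4 : q * ((N + 1) / q) + (N + 1) % q = N + 1 := Nat.div_add_mod _ _
  set a := (N + 1) / q with ha
  set b := (N + 1) % q with hb
  have h5 : b < q := Nat.mod_lt _ hq
  -- integer inequalities
  have h6 : ((m : ℤ) - 1) * q ≤ N ∧ (N : ℤ) + 1 ≤ ((m : ℤ) + 1) * q := by
    have h7 : ((q * a + b : ℕ) : ℤ) = ((N + 1 : ℕ) : ℤ) := by rw [h4]
    push_cast at h7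
    have h8 : (b : ℤ) < q := by exact_mod_cast h5
    have h9 : (0 : ℤ) ≤ b := by positivity
    have h10 : (0 : ℤ) < q := by exact_mod_cast hq
    rw [h3]
    split_ifs with h11 h12 h12
    · have h13 : (0 : ℤ) < b := by
        have : 0 < b := by omega
        exact_mod_cast this
      constructor <;> push_cast <;> nlinarith
    · have h13 : (0 : ℤ) < b := by
        have : 0 < b := by omega
        exact_mod_cast this
      constructor <;> push_cast <;> nlinarith
    · have h13 : b = 0 := by omega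
      rw [h13] at h7
      push_cast at h7
      constructor <;> push_cast <;> nlinarith
    · constructor <;> push_cast <;> nlinarith
  have h7 : ((m : ℝ) - 1) * q ≤ N := by exact_mod_cast h6.1
  have h8 : (N : ℝ) + 1 ≤ ((m : ℝ) + 1) * q := by exact_mod_cast h6.2
  rw [abs_le]
  constructor
  · rw [neg_le_sub_iff_le_add, div_le_iff₀ hq']
    nlinarith
  · rw [sub_le_iff_le_add, ← sub_le_iff_le_add', le_div_iff₀ hq']
    nlinarith

theorem er_measurable (r : ZMod q) : Measurable (fun y : ℝ => er q r (Real.exp y)) := by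
  unfold er
  refine Measurable.sub ?_ (Real.measurable_exp.div_const _)
  exact (measurable_from_nat (f := fun N : ℕ =>
    (((Icc 1 N).filter (fun n : ℕ => (n : ZMod q) = r)).card : ℝ))).comp
    (Nat.measurable_floor.comp Real.measurable_exp)

theorem Ech_eq_sum (χ : DirichletCharacter ℂ q) (u : ℝ) :
    Ech χ u = ∑ r : ZMod q, χ r * ((er q r u : ℝ) : ℂ) := by
  unfold Ech er kap
  have h1 : ∑ n ∈ Icc 1 ⌊u⌋₊, χ (n : ZMod q) = ∑ r : ZMod q, χ r *
      ((((Icc 1 ⌊u⌋₊).filter (fun n : ℕ => (n : ZMod q) = r)).card : ℝ) : ℂ) := by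
    rw [← Finset.sum_fiberwise (Icc 1 ⌊u⌋₊) (fun n : ℕ => (n : ZMod q))
      (fun n => χ (n : ZMod q))]
    refine Finset.sum_congr rfl fun r _ => ?_
    have : ∀ n ∈ (Icc 1 ⌊u⌋₊).filter (fun n : ℕ => (n : ZMod q) = r), χ (n : ZMod q) = χ r :=
      fun n hn => by rw [(Finset.mem_filter.mp hn).2]
    rw [Finset.sum_congr rfl this, Finset.sum_const, nsmul_eq_mul]
    push_cast
    ring
  rw [h1, div_mul_eq_mul_div, Finset.sum_mul, Finset.sum_div, ← Finset.sum_sub_distrib]
  refine Finset.sum_congr rfl fun r _ => ?_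
  push_cast
  ring

end Pool.Agent.H74.PZ
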