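import Pool.Agent.H74.PZ.Defs

/-!
# Sums over separated sets of reals

`sep_sum` (floor injection).  Split `s` into `s₁ = {a ≥ c}` and `s₂ = {a < c}`.  On `s₁` the map
`a ↦ ⌊|a - c|⌋₊ = ⌊a - c⌋₊` is injective (two points of `s` with the same value are at distance `< 1`),
and its values are `< R` (as `|a - c| < R`).  So
`∑_{a ∈ s₁} g (a - c) ≤ ∑_{a ∈ s₁} f ⌊|a - c|⌋₊ = ∑_{j ∈ image} f j ≤ ∑_{j < R} f j` (f ≥ 0).  The
same for `s₂`.

`sep_sum_sq`: apply it with `g u = 1/(1/4+u^2)`, `f j = 1/(1/4+j^2)`, `R` large (any natural number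
above all `|a - c|`); `f` is antitone so `g u ≤ f ⌊|u|⌋₊` as `⌊|u|⌋₊ ≤ |u|`.
`∑_{j<R} f j ≤ 4 + ∑_{1≤j<R} 1/j^2 ≤ 4 + 2` (`1/j^2 ≤ 1/(j-1) - 1/j` for `j ≥ 2`), so the sum is
at most `12`.

`sep_sum_inv`: `g u = 1/√(1/4+u^2)`, `f 0 = 2`, `f j ≤ 1/j`, natural number bound `⌊R⌋₊ + 1`:
`∑_{j ≤ ⌊R⌋₊} f j ≤ 2 + ∑_{1 ≤ j ≤ ⌊R⌋₊} 1/j ≤ 2 + 1 + log (R + 1)` (`harmonic_le_one_add_log`, or
`Pool.Agent.H14.PT.sum_one_div_le`).
-/

namespace Pool.Agent.H74.PZ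

open Finset MeasureTheory

theorem sep_floor {x y : ℝ} (hx : 0 ≤ x) (hy : 0 ≤ y) (h : ⌊x⌋₊ = ⌊y⌋₊) : |x - y| < 1 := by
  have h1 := Nat.floor_le hx
  have h2 := Nat.floor_le hy
  have h3 := Nat.lt_floor_add_one x
  have h4 := Nat.lt_floor_add_one y
  rw [h] at h1 h3
  rw [abs_lt]
  constructor <;> linarith

theorem sep_half (t : Finset ℝ) (c : ℝ) (R : ℕ) (ht : ∀ a ∈ t, ∀ b ∈ t,
      ⌊|a - c|⌋₊ = ⌊|b - c|⌋₊ → a = b)
    (hR : ∀ a ∈ t, |a - c| < R) (g : ℝ → ℝ) (f : ℕ → ℝ) (hf : ∀ j, 0 ≤ f j)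
    (hg : ∀ u, g u ≤ f ⌊|u|⌋₊) : ∑ a ∈ t, g (a - c) ≤ ∑ j ∈ range R, f j := by
  classical
  calc ∑ a ∈ t, g (a - c) ≤ ∑ a ∈ t, f ⌊|a - c|⌋₊ := Finset.sum_le_sum fun a _ => hg _
    _ = ∑ j ∈ t.image (fun a => ⌊|a - c|⌋₊), f j := by
        rw [Finset.sum_image]
        intro a ha b hb h
        exact ht a ha b hb h
    _ ≤ ∑ j ∈ range R, f j := by
        refine Finset.sum_le_sum_of_subset_of_nonneg ?_ (fun j _ _ => hf j)
        intro j hj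
        obtain ⟨a, ha, rfl⟩ := Finset.mem_image.1 hj
        rw [Finset.mem_range, Nat.floor_lt (abs_nonneg _)]
        exact hR a ha

theorem sep_sum (s : Finset ℝ) (hs : ∀ a ∈ s, ∀ b ∈ s, a ≠ b → 1 ≤ |a - b|) (c : ℝ) (R : ℕ)
    (hR : ∀ a ∈ s, |a - c| < R) (g : ℝ → ℝ) (f : ℕ → ℝ) (hf : ∀ j, 0 ≤ f j)
    (hg : ∀ u, g u ≤ f ⌊|u|⌋₊) : ∑ a ∈ s, g (a - c) ≤ 2 * ∑ j ∈ range R, f j := by
  classical
  have h1 := sep_half (s.filter (fun a => c ≤ a)) c R (by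
    intro a ha b hb h
    rw [Finset.mem_filter] at ha hb
    by_contra hne
    have h2 := hs a ha.1 b hb.1 hne
    have h3 := sep_floor (abs_nonneg _) (abs_nonneg _) h
    rw [abs_of_nonneg (sub_nonneg.2 ha.2), abs_of_nonneg (sub_nonneg.2 hb.2)] at h3
    have e : a - c - (b - c) = a - b := by ring
    rw [e] at h3
    linarith) (fun a ha => hR a (Finset.mem_filter.1 ha).1) g f hf hg
  have h2 := sep_half (s.filter (fun a => ¬ c ≤ a)) c R (by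
    intro a ha b hb h
    rw [Finset.mem_filter, not_le] at ha hb
    by_contra hne
    have h2 := hs a ha.1 b hb.1 hne
    have h3 := sep_floor (abs_nonneg _) (abs_nonneg _) h
    rw [abs_of_neg (sub_neg.2 ha.2), abs_of_neg (sub_neg.2 hb.2)] at h3
    have e : -(a - c) - -(b - c) = -(a - b) := by ring
    rw [e, abs_neg] at h3
    linarith) (fun a ha => hR a (Finset.mem_filter.1 ha).1) g f hf hg
  rw [← Finset.sum_filter_add_sum_filter_not s (fun a => c ≤ a)]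
  linarith

theorem sep_sq_sum (R : ℕ) : ∑ j ∈ range R, 1 / (1 / 4 + (j : ℝ) ^ 2) ≤ 6 := by
  have h : ∀ n : ℕ, ∑ j ∈ range (n + 1), 1 / (1 / 4 + (j : ℝ) ^ 2) ≤
      6 - 1 / ((n : ℝ) + 1 / 2) := by
    intro n
    induction n with
    | zero => norm_num
    | succ n ih =>
      rw [Finset.sum_range_succ]
      have hn : (0 : ℝ) ≤ n := Nat.cast_nonneg n
      have h1 : 1 / (1 / 4 + ((n + 1 : ℕ) : ℝ) ^ 2) ≤
          1 / ((n : ℝ) + 1 / 2) - 1 / (((n + 1 : ℕ) : ℝ) + 1 / 2) := by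
        push_cast
        rw [div_sub_div _ _ (by positivity) (by positivity),
          div_le_div_iff₀ (by positivity) (by positivity)]
        nlinarith
      linarith
  rcases Nat.eq_zero_or_pos R with h0 | h0
  · rw [h0]; norm_num
  · obtain ⟨n, rfl⟩ : ∃ n, R = n + 1 := ⟨R - 1, by omega⟩
    have h1 := h n
    have h2 : (0 : ℝ) ≤ 1 / ((n : ℝ) + 1 / 2) := by positivity
    linarith

theorem sep_sum_sq (s : Finset ℝ) (hs : ∀ a ∈ s, ∀ b ∈ s, a ≠ b → 1 ≤ |a - b|) (c : ℝ) :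
    ∑ a ∈ s, 1 / (1 / 4 + (a - c) ^ 2) ≤ 12 := by
  classical
  obtain ⟨M, hM⟩ := (s.image (fun a => |a - c|)).exists_le
  obtain ⟨R, hR⟩ := exists_nat_gt M
  have h := sep_sum s hs c R (fun a ha =>
    (hM _ (Finset.mem_image_of_mem _ ha)).trans_lt hR)
    (fun u => 1 / (1 / 4 + u ^ 2)) (fun j => 1 / (1 / 4 + (j : ℝ) ^ 2))
    (fun j => by positivity) (fun u => by
      have h1 := Nat.floor_le (abs_nonneg u)
      have h2 : ((⌊|u|⌋₊ : ℕ) : ℝ) ^ 2 ≤ u ^ 2 := by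
        rw [← sq_abs u]
        exact pow_le_pow_left₀ (Nat.cast_nonneg _) h1 2
      exact one_div_le_one_div_of_le (by positivity) (by linarith))
  have h2 := sep_sq_sum R

  linarith

theorem sep_sum_inv (s : Finset ℝ) (hs : ∀ a ∈ s, ∀ b ∈ s, a ≠ b → 1 ≤ |a - b|) (c R : ℝ)
    (hR1 : 1 ≤ R) (hR : ∀ a ∈ s, |a - c| ≤ R) :
    ∑ a ∈ s, 1 / Real.sqrt (1 / 4 + (a - c) ^ 2) ≤ 2 * (3 + Real.log (R + 1)) := by
  have h := sep_sum s hs c (⌊R⌋₊ + 1) (fun a ha => by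
      push_cast
      exact (hR a ha).trans_lt (Nat.lt_floor_add_one R))
    (fun u => 1 / Real.sqrt (1 / 4 + u ^ 2)) (fun j => 1 / Real.sqrt (1 / 4 + (j : ℝ) ^ 2))
    (fun j => by positivity) (fun u => by
      have h1 := Nat.floor_le (abs_nonneg u)
      have h2 : ((⌊|u|⌋₊ : ℕ) : ℝ) ^ 2 ≤ u ^ 2 := by
        rw [← sq_abs u]
        exact pow_le_pow_left₀ (Nat.cast_nonneg _) h1 2
      exact one_div_le_one_div_of_le (by positivity) (Real.sqrt_le_sqrt (by linarith)))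

  have h1 : ∑ j ∈ range (⌊R⌋₊ + 1), 1 / Real.sqrt (1 / 4 + (j : ℝ) ^ 2) ≤
      3 + Real.log (R + 1) := by
    rw [Finset.sum_range_succ']
    have h2 : 1 / Real.sqrt (1 / 4 + (((0 : ℕ) : ℝ)) ^ 2) = 2 := by
      have : (1 / 4 + (((0 : ℕ) : ℝ)) ^ 2) = (1 / 2 : ℝ) ^ 2 := by push_cast; norm_num
      rw [this, Real.sqrt_sq (by norm_num)]
      norm_num
    have h3 : ∑ j ∈ range ⌊R⌋₊, 1 / Real.sqrt (1 / 4 + (((j + 1 : ℕ) : ℝ)) ^ 2) ≤
        ((harmonic ⌊R⌋₊ : ℚ) : ℝ) := by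
      unfold harmonic
      push_cast
      refine Finset.sum_le_sum fun j _ => ?_
      have hj : (0 : ℝ) < (j : ℝ) + 1 := by positivity
      rw [one_div]
      apply inv_anti₀ hj
      apply Real.le_sqrt_of_sq_le
      linarith
    have h4 := harmonic_le_one_add_log ⌊R⌋₊
    have h5 : Real.log ((⌊R⌋₊ : ℕ) : ℝ) ≤ Real.log (R + 1) := by
      have h6 : (1 : ℝ) ≤ ((⌊R⌋₊ : ℕ) : ℝ) := by
        have : 1 ≤ ⌊R⌋₊ := (Nat.one_le_floor_iff R).2 hR1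
        exact_mod_cast this
      apply Real.log_le_log (by linarith)
      have := Nat.floor_le (by linarith : (0 : ℝ) ≤ R)
      linarith
    rw [h2]
    linarith
  linarith

end Pool.Agent.H74.PZ
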