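import Pool.Agent.H74.PZ.Form1
import Pool.Agent.H74.PZ.Exp1

/-!
# The error terms on average over `B`: second part

`A, B` separated, ordinates `≤ T`, `X = ⌈T⌉₊`, `N = q X` (so `q T ≤ N ≤ 2 q T`), `K = |A|`, `‖x_p‖ ≤ 1`,
`D = LS q N`, `F(n) = ∑_{p ∈ A} x_p hh p n`.  Three parts of `RR X d (pm p p')`:

`err2` (the term with `kap`): `kap (χ χ') = 0` unless `χ = χ'⁻¹` (`kap_eq_zero`), `|kap| ≤ 1` (`norm_kap_le`),
`|-1/2 + i(t + t')| = √(1/4 + (t+t')^2)`.  So the inner sum is at most `√N W(p')`,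
`W(p') = ∑_{p ∈ A, p.1 = p'.1⁻¹} 1/√(1/4 + (p.2 + p'.2)^2) ≤ b := 2 (3 + log (2 T + 1))` by `sep_sum_inv` (`c = - p'.2`,
`R = 2 T`), and `∑_{p' ∈ B} W(p')^2 ≤ b ∑_{p'} W(p') = b ∑_{p ∈ A} (the same sum over B) ≤ b^2 K`.  Total `≤ 2 q T b^2 K`.
-/

namespace Pool.Agent.H74.PZ

open Finset MeasureTheory

variable {q : ℕ} [NeZero q]

theorem sep_w (A : Finset (DirichletCharacter ℂ q × ℝ)) (hA : Sep A) (T : ℝ)
    (hT : 1 ≤ T) (hAT : ∀ p ∈ A, |p.2| ≤ T) (χ : DirichletCharacter ℂ q) (c : ℝ) (hc : |c| ≤ T) :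
    ∑ p ∈ A, (if p.1 = χ then 1 / Real.sqrt (1 / 4 + (p.2 + c) ^ 2) else 0) ≤
      2 * (3 + Real.log (2 * T + 1)) := by
  classical
  rw [← Finset.sum_filter]
  have hinj : Set.InjOn (fun p : DirichletCharacter ℂ q × ℝ => p.2)
      (A.filter (fun p => p.1 = χ) : Set (DirichletCharacter ℂ q × ℝ)) := by
    intro p hp p' hp' h
    simp only [Finset.coe_filter, Set.mem_ofPred_eq] at hp hp'
    exact Prod.ext (hp.2.trans hp'.2.symm) h
  have h1 : ∑ p ∈ A.filter (fun p => p.1 = χ), 1 / Real.sqrt (1 / 4 + (p.2 + c) ^ 2) =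
      ∑ a ∈ (A.filter (fun p => p.1 = χ)).image (fun p => p.2),
        1 / Real.sqrt (1 / 4 + (a - (-c)) ^ 2) := by
    rw [Finset.sum_image hinj]
    refine Finset.sum_congr rfl fun p _ => ?_
    rw [sub_neg_eq_add]
  rw [h1]
  refine sep_sum_inv _ ?_ (-c) (2 * T) (by linarith) ?_
  · intro a ha b hb hab
    simp only [Finset.mem_image, Finset.mem_filter] at ha hb
    obtain ⟨p, ⟨hpA, hpχ⟩, rfl⟩ := ha
    obtain ⟨p', ⟨hpA', hpχ'⟩, rfl⟩ := hb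
    refine hA p hpA p' hpA' ?_ (hpχ.trans hpχ'.symm)
    intro h
    exact hab (by rw [h])
  · intro a ha
    simp only [Finset.mem_image, Finset.mem_filter] at ha
    obtain ⟨p, ⟨hpA, hpχ⟩, rfl⟩ := ha
    have h2 := hAT p hpA
    rw [abs_le] at h2 hc ⊢
    constructor
    · linarith [h2.1, hc.1]
    · linarith [h2.2, hc.2]

theorem norm_den (t : ℝ) : ‖(-(1 / 2) + ((t : ℝ) : ℂ) * Complex.I : ℂ)‖ =
    Real.sqrt (1 / 4 + t ^ 2) := by
  have h : (-(1 / 2) + ((t : ℝ) : ℂ) * Complex.I : ℂ) =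
      (((-(1 / 2) : ℝ) : ℂ) + ((t : ℝ) : ℂ) * Complex.I) := by push_cast; ring
  rw [h, Complex.norm_add_mul_I]
  congr 1
  ring

theorem err2 (A B : Finset (DirichletCharacter ℂ q × ℝ)) (hA : Sep A) (hB : Sep B) (T : ℝ)
    (hT : 1 ≤ T) (hAT : ∀ p ∈ A, |p.2| ≤ T) (hBT : ∀ p ∈ B, |p.2| ≤ T)
    (x : DirichletCharacter ℂ q × ℝ → ℂ) (hx : ∀ p ∈ A, ‖x p‖ ≤ 1) :
    ∑ p' ∈ B, ‖∑ p ∈ A, x p * (kap (p.1 * p'.1) * ((Real.sqrt (q * ⌈T⌉₊ : ℕ) : ℂ) *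
        ee (p.2 + p'.2) (Real.log (q * ⌈T⌉₊ : ℕ))) /
        (-(1 / 2) + ((p.2 + p'.2 : ℝ) : ℂ) * Complex.I))‖ ^ 2 ≤
      2 * (q * T) * (2 * (3 + Real.log (2 * T + 1))) ^ 2 * A.card := by
  classical
  set b : ℝ := 2 * (3 + Real.log (2 * T + 1)) with hb
  set N : ℝ := ((q * ⌈T⌉₊ : ℕ) : ℝ) with hN
  have hN0 : 0 ≤ N := Nat.cast_nonneg _
  have hb0 : 0 ≤ b := by
    have : 0 ≤ Real.log (2 * T + 1) := Real.log_nonneg (by linarith)
    rw [hb]; linarith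
  have hNle : N ≤ 2 * (q * T) := by
    have h1 : (⌈T⌉₊ : ℝ) < T + 1 := Nat.ceil_lt_add_one (by linarith)
    have h2 : (0 : ℝ) ≤ q := Nat.cast_nonneg _
    rw [hN, Nat.cast_mul]
    nlinarith
  have hw : ∀ p p' : DirichletCharacter ℂ q × ℝ,
      (0 : ℝ) ≤ (if p.1 = p'.1⁻¹ then 1 / Real.sqrt (1 / 4 + (p.2 + p'.2) ^ 2) else 0) := by
    intro p p'
    split_ifs
    · positivity
    · exact le_refl 0
  have hterm : ∀ p ∈ A, ∀ p' : DirichletCharacter ℂ q × ℝ,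
      ‖x p * (kap (p.1 * p'.1) * ((Real.sqrt N : ℂ) *
        ee (p.2 + p'.2) (Real.log N)) /
        (-(1 / 2) + ((p.2 + p'.2 : ℝ) : ℂ) * Complex.I))‖ ≤
      Real.sqrt N * (if p.1 = p'.1⁻¹ then 1 / Real.sqrt (1 / 4 + (p.2 + p'.2) ^ 2) else 0) := by
    intro p hp p'
    rw [norm_mul, norm_div, norm_mul, norm_mul, norm_ee, norm_den, mul_one, Complex.norm_real,
      Real.norm_of_nonneg (Real.sqrt_nonneg _)]
    have hs : 0 ≤ Real.sqrt (1 / 4 + (p.2 + p'.2) ^ 2) := Real.sqrt_nonneg _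
    split_ifs with h
    · have hk : ‖kap (p.1 * p'.1)‖ ≤ 1 := norm_kap_le _
      have h1 : ‖kap (p.1 * p'.1)‖ * Real.sqrt N / Real.sqrt (1 / 4 + (p.2 + p'.2) ^ 2) ≤
          Real.sqrt N * (1 / Real.sqrt (1 / 4 + (p.2 + p'.2) ^ 2)) := by
        rw [mul_one_div]
        apply div_le_div_of_nonneg_right _ hs
        exact mul_le_of_le_one_left (Real.sqrt_nonneg _) hk
      calc ‖x p‖ * (‖kap (p.1 * p'.1)‖ * Real.sqrt N / Real.sqrt (1 / 4 + (p.2 + p'.2) ^ 2))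
          ≤ 1 * (‖kap (p.1 * p'.1)‖ * Real.sqrt N / Real.sqrt (1 / 4 + (p.2 + p'.2) ^ 2)) := by
            apply mul_le_mul_of_nonneg_right (hx p hp)
            positivity
        _ ≤ _ := by rw [one_mul]; exact h1
    · have hk : kap (p.1 * p'.1) = 0 := by
        apply kap_eq_zero
        intro h1
        exact h (eq_inv_of_mul_eq_one_left h1)
      rw [hk]
      simp
  have hW : ∀ p' ∈ B, ∑ p ∈ A,
      (if p.1 = p'.1⁻¹ then 1 / Real.sqrt (1 / 4 + (p.2 + p'.2) ^ 2) else 0) ≤ b :=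
    fun p' hp' => sep_w A hA T hT hAT p'.1⁻¹ p'.2 (hBT p' hp')
  have hW' : ∀ p ∈ A, ∑ p' ∈ B,
      (if p.1 = p'.1⁻¹ then 1 / Real.sqrt (1 / 4 + (p.2 + p'.2) ^ 2) else 0) ≤ b := by
    intro p hp
    have h1 := sep_w B hB T hT hBT p.1⁻¹ p.2 (hAT p hp)
    refine le_trans (le_of_eq ?_) h1
    refine Finset.sum_congr rfl fun p' _ => ?_
    have h2 : (p.1 = p'.1⁻¹) ↔ (p'.1 = p.1⁻¹) := by
      constructor
      · intro h; rw [h, inv_inv]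
      · intro h; rw [h, inv_inv]
    simp only [h2, add_comm p.2 p'.2]
  calc ∑ p' ∈ B, ‖∑ p ∈ A, x p * (kap (p.1 * p'.1) * ((Real.sqrt N : ℂ) *
        ee (p.2 + p'.2) (Real.log N)) /
        (-(1 / 2) + ((p.2 + p'.2 : ℝ) : ℂ) * Complex.I))‖ ^ 2
      ≤ ∑ p' ∈ B, N * (b * ∑ p ∈ A,
        (if p.1 = p'.1⁻¹ then 1 / Real.sqrt (1 / 4 + (p.2 + p'.2) ^ 2) else 0)) := by
        refine Finset.sum_le_sum fun p' hp' => ?_
        have h1 : ‖∑ p ∈ A, x p * (kap (p.1 * p'.1) * ((Real.sqrt N : ℂ) *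
            ee (p.2 + p'.2) (Real.log N)) /
            (-(1 / 2) + ((p.2 + p'.2 : ℝ) : ℂ) * Complex.I))‖ ≤ Real.sqrt N * ∑ p ∈ A,
            (if p.1 = p'.1⁻¹ then 1 / Real.sqrt (1 / 4 + (p.2 + p'.2) ^ 2) else 0) := by
          rw [Finset.mul_sum]
          exact (norm_sum_le _ _).trans (Finset.sum_le_sum fun p hp => hterm p hp p')
        have h0 : (0 : ℝ) ≤ ∑ p ∈ A,
            (if p.1 = p'.1⁻¹ then 1 / Real.sqrt (1 / 4 + (p.2 + p'.2) ^ 2) else 0) :=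
          Finset.sum_nonneg fun p _ => hw p p'
        calc _ ≤ (Real.sqrt N * ∑ p ∈ A,
            (if p.1 = p'.1⁻¹ then 1 / Real.sqrt (1 / 4 + (p.2 + p'.2) ^ 2) else 0)) ^ 2 :=
              pow_le_pow_left₀ (norm_nonneg _) h1 2
          _ = N * ((∑ p ∈ A,
            (if p.1 = p'.1⁻¹ then 1 / Real.sqrt (1 / 4 + (p.2 + p'.2) ^ 2) else 0)) *
            ∑ p ∈ A,
            (if p.1 = p'.1⁻¹ then 1 / Real.sqrt (1 / 4 + (p.2 + p'.2) ^ 2) else 0)) := by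
              rw [mul_pow, Real.sq_sqrt hN0, pow_two]
          _ ≤ _ := mul_le_mul_of_nonneg_left
              (mul_le_mul_of_nonneg_right (hW p' hp') h0) hN0
    _ = N * b * ∑ p ∈ A, ∑ p' ∈ B,
        (if p.1 = p'.1⁻¹ then 1 / Real.sqrt (1 / 4 + (p.2 + p'.2) ^ 2) else 0) := by
        rw [← Finset.mul_sum, ← Finset.mul_sum, mul_assoc N b]
        refine congrArg (fun z => N * (b * z)) ?_
        exact Finset.sum_comm
    _ ≤ N * b * ∑ p ∈ A, b := by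
        apply mul_le_mul_of_nonneg_left (Finset.sum_le_sum hW') (mul_nonneg hN0 hb0)
    _ = N * (b ^ 2 * A.card) := by
        rw [Finset.sum_const, nsmul_eq_mul]; ring
    _ ≤ 2 * (q * T) * (b ^ 2 * A.card) :=
        mul_le_mul_of_nonneg_right hNle (by positivity)
    _ = 2 * (q * T) * b ^ 2 * A.card := by ring

end Pool.Agent.H74.PZ
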