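import Pool.Agent.H74.PZ.Res

/-!
# The bilinear tail estimate

`tail_ls`.  Let `V_p` be the inner sum of integrals for `p ∈ B`, `z_p = conj V_p`,
`F_r = FF A x r`, `G_r = FF B z r`, `S = ∑_{p ∈ B} ‖V_p‖^2`.  Then
`S = ∑_p z_p V_p = ∑_r ∫_{y > y0} E_r(y) e^{-y/2} F_r(y) G_r(y) dy`
(finite sums pulled through the integrals: all integrands are bounded measurable functions times
`e^{-y/2}`, integrable on `Ioi y0`), hence, as `|E_r| ≤ 1`,
`e^{-y/2} = e^{-y0/2} e^{-|y-y0|/2}` on `Ioi y0`, and `|F G| ≤ (λ |F|^2 + |G|^2/λ)/2`: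
`S ≤ e^{-y0/2} ∑_r ∫_ℝ e^{-|y-y0|/2} (λ |F_r|^2 + |G_r|^2 / λ)/2
   ≤ e^{-y0/2} (λ/2 · 12 φ(q) ∑ ‖x_p‖^2 + 1/(2λ) · 12 φ(q) S)` by `res_ls`.
With `φ(q) ≤ q` and `λ = 12 q e^{-y0/2}` the last term is at most `S/2`, so
`S ≤ 2 e^{-y0/2} (λ/2) 12 q ∑ ‖x_p‖^2 = (12 q)^2 e^{-y0} ∑ ‖x_p‖^2`.
-/

namespace Pool.Agent.H74.PZ

open Finset MeasureTheory

variable {q : ℕ} [NeZero q]

theorem tail_integrable (E : ℝ → ℝ) (hE : Measurable E) (hE1 : ∀ y, |E y| ≤ 1) (f : ℝ → ℂ)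
    (hf : Continuous f) (K : ℝ) (hK : ∀ y, ‖f y‖ ≤ K) (y0 : ℝ) :
    IntegrableOn (fun y : ℝ => ((E y * Real.exp (-y / 2) : ℝ) : ℂ) * f y) (Set.Ioi y0) := by
  have h0 : IntegrableOn (fun y : ℝ => K * Real.exp (-(1 / 2) * y)) (Set.Ioi y0) :=
    (exp_neg_integrableOn_Ioi y0 (by norm_num : (0 : ℝ) < 1 / 2)).const_mul K
  refine h0.mono' ?_ ?_
  · apply Measurable.aestronglyMeasurable
    apply Measurable.mul
    · exact Complex.measurable_ofReal.comp (hE.mul (by fun_prop))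
    · exact hf.measurable
  · refine Filter.Eventually.of_forall fun y => ?_
    rw [norm_mul, Complex.norm_real, Real.norm_eq_abs, abs_mul, abs_of_pos (Real.exp_pos _)]
    have h1 : Real.exp (-(1 / 2) * y) = Real.exp (-y / 2) := by congr 1; ring
    rw [h1]
    calc |E y| * Real.exp (-y / 2) * ‖f y‖ ≤ 1 * Real.exp (-y / 2) * K := by
          have h2 := hE1 y
          have h3 := hK y
          gcongr
      _ = K * Real.exp (-y / 2) := by ring

/-- pairing the integrals with coefficients `z` -/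
lemma tail_pair (A B : Finset (DirichletCharacter ℂ q × ℝ))
    (x z : DirichletCharacter ℂ q × ℝ → ℂ) (E : ZMod q → ℝ → ℝ) (hE : ∀ r, Measurable (E r))
    (hE1 : ∀ r y, |E r y| ≤ 1) (y0 : ℝ) :
    ∑ p ∈ B, z p * ∑ r : ZMod q, ∫ y in Set.Ioi y0,
        ((E r y * Real.exp (-y / 2) : ℝ) : ℂ) * (p.1 r * ee p.2 y * FF A x r y) =
      ∑ r : ZMod q, ∫ y in Set.Ioi y0,
        ((E r y * Real.exp (-y / 2) : ℝ) : ℂ) * (FF B z r y * FF A x r y) := by
  simp only [Finset.mul_sum]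
  rw [Finset.sum_comm]
  refine Finset.sum_congr rfl fun r _ => ?_
  have hint : ∀ p ∈ B, Integrable (fun y : ℝ => z p * (((E r y * Real.exp (-y / 2) : ℝ) : ℂ) *
      (p.1 r * ee p.2 y * FF A x r y))) (volume.restrict (Set.Ioi y0)) := by
    intro p _
    refine Integrable.const_mul ?_ (z p)
    refine tail_integrable (E r) (hE r) (hE1 r) _ ?_ (∑ p ∈ A, ‖x p‖) ?_ y0
    · exact (continuous_const.mul (continuous_ee p.2)).mul (continuous_FF A x r)
    · intro y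
      rw [norm_mul, norm_mul, norm_ee, mul_one]
      exact (mul_le_of_le_one_left (norm_nonneg _) (DirichletCharacter.norm_le_one _ _)).trans
        (norm_FF_le A x r y)
  calc ∑ p ∈ B, z p * ∫ y in Set.Ioi y0,
        ((E r y * Real.exp (-y / 2) : ℝ) : ℂ) * (p.1 r * ee p.2 y * FF A x r y)
      = ∑ p ∈ B, ∫ y in Set.Ioi y0,
        z p * (((E r y * Real.exp (-y / 2) : ℝ) : ℂ) * (p.1 r * ee p.2 y * FF A x r y)) :=
        Finset.sum_congr rfl fun p _ => (integral_const_mul _ _).symm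
    _ = ∫ y in Set.Ioi y0, ∑ p ∈ B,
        z p * (((E r y * Real.exp (-y / 2) : ℝ) : ℂ) * (p.1 r * ee p.2 y * FF A x r y)) :=
        (integral_finsetSum B hint).symm
    _ = _ := by
        congr 1
        funext y
        have h1 : FF B z r y = ∑ p ∈ B, z p * p.1 r * ee p.2 y := rfl
        rw [h1, Finset.sum_mul, Finset.mul_sum]
        exact Finset.sum_congr rfl fun p _ => by ring

omit [NeZero q] in
/-- the bilinear form is bounded by the two quadratic ones -/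
lemma tail_bound (A B : Finset (DirichletCharacter ℂ q × ℝ))
    (x z : DirichletCharacter ℂ q × ℝ → ℂ) (E : ZMod q → ℝ → ℝ)
    (hE1 : ∀ r y, |E r y| ≤ 1) (y0 lam : ℝ) (hlam : 0 < lam) (r : ZMod q) :
    ‖∫ y in Set.Ioi y0, ((E r y * Real.exp (-y / 2) : ℝ) : ℂ) * (FF B z r y * FF A x r y)‖ ≤
      Real.exp (-y0 / 2) * (lam / 2 * (∫ y : ℝ, Real.exp (-|y - y0| / 2) * ‖FF A x r y‖ ^ 2) +
        1 / (2 * lam) * ∫ y : ℝ, Real.exp (-|y - y0| / 2) * ‖FF B z r y‖ ^ 2) := by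
  have hA := exp_integrable y0 (FF A x r) (continuous_FF A x r) _ (norm_FF_le A x r)
  have hB := exp_integrable y0 (FF B z r) (continuous_FF B z r) _ (norm_FF_le B z r)
  have hg : Integrable (fun y : ℝ => Real.exp (-y0 / 2) *
      (lam / 2 * (Real.exp (-|y - y0| / 2) * ‖FF A x r y‖ ^ 2) +
        1 / (2 * lam) * (Real.exp (-|y - y0| / 2) * ‖FF B z r y‖ ^ 2))) :=
    ((hA.const_mul _).add (hB.const_mul _)).const_mul _
  have h1 : ‖∫ y in Set.Ioi y0, ((E r y * Real.exp (-y / 2) : ℝ) : ℂ) *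
      (FF B z r y * FF A x r y)‖ ≤ ∫ y in Set.Ioi y0, Real.exp (-y0 / 2) *
      (lam / 2 * (Real.exp (-|y - y0| / 2) * ‖FF A x r y‖ ^ 2) +
        1 / (2 * lam) * (Real.exp (-|y - y0| / 2) * ‖FF B z r y‖ ^ 2)) := by
    refine norm_integral_le_of_norm_le hg.integrableOn ?_
    refine (ae_restrict_iff' measurableSet_Ioi).2 (Filter.Eventually.of_forall fun y hy => ?_)
    have hy' : y0 < y := hy
    rw [norm_mul, norm_mul, Complex.norm_real, Real.norm_eq_abs, abs_mul,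
      abs_of_pos (Real.exp_pos _), abs_of_pos (sub_pos.2 hy')]
    have h2 : Real.exp (-y / 2) = Real.exp (-y0 / 2) * Real.exp (-(y - y0) / 2) := by
      rw [← Real.exp_add]; congr 1; ring
    have h3 : ‖FF B z r y‖ * ‖FF A x r y‖ ≤
        lam / 2 * ‖FF A x r y‖ ^ 2 + 1 / (2 * lam) * ‖FF B z r y‖ ^ 2 := by
      have h4 : lam / 2 * ‖FF A x r y‖ ^ 2 + 1 / (2 * lam) * ‖FF B z r y‖ ^ 2 -
          ‖FF B z r y‖ * ‖FF A x r y‖ = 1 / (2 * lam) *
          (lam * ‖FF A x r y‖ - ‖FF B z r y‖) ^ 2 := by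
        field_simp
        ring
      have h5 : 0 ≤ 1 / (2 * lam) * (lam * ‖FF A x r y‖ - ‖FF B z r y‖) ^ 2 := by positivity
      linarith
    calc |E r y| * Real.exp (-y / 2) * (‖FF B z r y‖ * ‖FF A x r y‖)
        ≤ 1 * Real.exp (-y / 2) *
          (lam / 2 * ‖FF A x r y‖ ^ 2 + 1 / (2 * lam) * ‖FF B z r y‖ ^ 2) := by
          have h2 := hE1 r y
          gcongr
      _ = _ := by rw [h2]; ring
  refine h1.trans ((setIntegral_le_integral hg (Filter.Eventually.of_forall fun y => ?_)).trans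
    (le_of_eq ?_))
  · exact mul_nonneg (Real.exp_pos _).le (add_nonneg (by positivity) (by positivity))
  · rw [integral_const_mul, integral_add (hA.const_mul _) (hB.const_mul _), integral_const_mul,
      integral_const_mul]

theorem tail_ls (A B : Finset (DirichletCharacter ℂ q × ℝ)) (hA : Sep A) (hB : Sep B)
    (x : DirichletCharacter ℂ q × ℝ → ℂ) (E : ZMod q → ℝ → ℝ) (hE : ∀ r, Measurable (E r))
    (hE1 : ∀ r y, |E r y| ≤ 1) (y0 : ℝ) :
    ∑ p ∈ B, ‖∑ r : ZMod q, ∫ y in Set.Ioi y0,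
        ((E r y * Real.exp (-y / 2) : ℝ) : ℂ) * (p.1 r * ee p.2 y * FF A x r y)‖ ^ 2 ≤
      (12 * q) ^ 2 * Real.exp (-y0) * ∑ p ∈ A, ‖x p‖ ^ 2 := by
  set V : DirichletCharacter ℂ q × ℝ → ℂ := fun p => ∑ r : ZMod q, ∫ y in Set.Ioi y0,
        ((E r y * Real.exp (-y / 2) : ℝ) : ℂ) * (p.1 r * ee p.2 y * FF A x r y) with hV
  set z : DirichletCharacter ℂ q × ℝ → ℂ := fun p => (starRingEnd ℂ) (V p) with hz
  set S : ℝ := ∑ p ∈ B, ‖V p‖ ^ 2 with hS
  set X : ℝ := ∑ p ∈ A, ‖x p‖ ^ 2 with hX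
  have hS0 : 0 ≤ S := Finset.sum_nonneg fun p _ => by positivity
  have hX0 : 0 ≤ X := Finset.sum_nonneg fun p _ => by positivity
  have hq : 0 < (q : ℝ) := by exact_mod_cast Nat.pos_of_ne_zero (NeZero.ne q)
  have hphi : (q.totient : ℝ) ≤ q := by exact_mod_cast Nat.totient_le q
  have hphi0 : (0 : ℝ) ≤ q.totient := by positivity
  have hSz : ∑ p ∈ B, ‖z p‖ ^ 2 = S :=
    Finset.sum_congr rfl fun p _ => by rw [hz]; simp only [RCLike.norm_conj]
  have h1 : (S : ℂ) = ∑ p ∈ B, z p * V p := by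
    rw [hS]
    push_cast
    refine Finset.sum_congr rfl fun p _ => ?_
    rw [hz]
    simp only
    rw [mul_comm, Complex.mul_conj, Complex.normSq_eq_norm_sq]
    push_cast
    rfl
  have h2 := tail_pair A B x z E hE hE1 y0
  have h3 : (S : ℂ) = ∑ r : ZMod q, ∫ y in Set.Ioi y0,
        ((E r y * Real.exp (-y / 2) : ℝ) : ℂ) * (FF B z r y * FF A x r y) := h1.trans h2
  set lam : ℝ := 12 * q * Real.exp (-y0 / 2) with hlam
  have hlam0 : 0 < lam := by positivity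
  have h4 : S ≤ ∑ r : ZMod q, Real.exp (-y0 / 2) *
      (lam / 2 * (∫ y : ℝ, Real.exp (-|y - y0| / 2) * ‖FF A x r y‖ ^ 2) +
        1 / (2 * lam) * ∫ y : ℝ, Real.exp (-|y - y0| / 2) * ‖FF B z r y‖ ^ 2) := by
    have h5 : S = ‖(S : ℂ)‖ := by rw [Complex.norm_real, Real.norm_eq_abs, abs_of_nonneg hS0]
    rw [h5, h3]
    exact (norm_sum_le _ _).trans (Finset.sum_le_sum fun r _ =>
      tail_bound A B x z E hE1 y0 lam hlam0 r)
  have h6 : ∑ r : ZMod q, Real.exp (-y0 / 2) *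
      (lam / 2 * (∫ y : ℝ, Real.exp (-|y - y0| / 2) * ‖FF A x r y‖ ^ 2) +
        1 / (2 * lam) * ∫ y : ℝ, Real.exp (-|y - y0| / 2) * ‖FF B z r y‖ ^ 2) =
      Real.exp (-y0 / 2) * (lam / 2 *
        (∑ r : ZMod q, ∫ y : ℝ, Real.exp (-|y - y0| / 2) * ‖FF A x r y‖ ^ 2) +
        1 / (2 * lam) * ∑ r : ZMod q, ∫ y : ℝ, Real.exp (-|y - y0| / 2) * ‖FF B z r y‖ ^ 2) := by
    rw [← Finset.mul_sum, Finset.sum_add_distrib, Finset.mul_sum, Finset.mul_sum]
  have h7 := res_ls A hA x y0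
  have h8 := res_ls B hB z y0
  rw [hSz] at h8
  have he : Real.exp (-y0 / 2) * Real.exp (-y0 / 2) = Real.exp (-y0) := by
    rw [← Real.exp_add]; congr 1; ring
  have he0 := Real.exp_pos (-y0 / 2)
  have h9 : S ≤ Real.exp (-y0 / 2) * (lam / 2 * (12 * q * X) + 1 / (2 * lam) * (12 * q * S)) := by
    rw [h6] at h4
    refine h4.trans ?_
    have h10 : 12 * (q.totient : ℝ) * X ≤ 12 * q * X := by gcongr
    have h11 : 12 * (q.totient : ℝ) * S ≤ 12 * q * S := by gcongr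
    have h12 := h7.trans h10
    have h13 := h8.trans h11
    gcongr
  have h14 : Real.exp (-y0 / 2) * (lam / 2 * (12 * q * X) + 1 / (2 * lam) * (12 * q * S)) =
      (12 * q) ^ 2 / 2 * Real.exp (-y0) * X + S / 2 := by
    have h15 : Real.exp (-y0 / 2) * (lam / 2 * (12 * q * X)) =
        (12 * q) ^ 2 / 2 * Real.exp (-y0) * X := by
      rw [hlam, ← he]; ring
    have h16 : Real.exp (-y0 / 2) * (1 / (2 * lam) * (12 * q * S)) = S / 2 := by
      rw [hlam]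
      field_simp
    rw [mul_add, h15, h16]
  rw [h14] at h9
  linarith

end Pool.Agent.H74.PZ
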