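import Pool.Agent.H74.PZ.Er
import Pool.Agent.H74.PZ.Tail

/-!
# The error terms on average over `B`: third part

`A, B` separated, ordinates `≤ T`, `X = ⌈T⌉₊`, `N = q X` (so `q T ≤ N ≤ 2 q T`), `K = |A|`, `‖x_p‖ ≤ 1`,
`D = LS q N`, `F(n) = ∑_{p ∈ A} x_p hh p n`.  Three parts of `RR X d (pm p p')`:

`err3` (the integral): `pm p p'` has character value `p.1 r · p'.1 r` and `ee (p.2 + p'.2) = ee p.2 · ee p'.2`;
`1/2 + i(t + t') = (1/2 + i t') + i t`.  So the inner sum is `(1/2 + i p'.2) V¹(p') + i V²(p')` with `V¹` the quantity in `tail_ls` for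
`x`, `V²` for `x'_p = p.2 x_p` (finite sum over `A` pulled through the integral, `tail_integrable`), `y0 = log N`.
`|1/2 + i t'|^2 ≤ 1/4 + T^2 ≤ (5/4) T^2`.  `∑_B ≤ 2 ((5/4) T^2 + T^2) (12 q)^2 K / N ≤ 648 q T K ≤ 1000 q T K` (`N ≥ q T`).
-/

namespace Pool.Agent.H74.PZ

open Finset MeasureTheory

variable {q : ℕ} [NeZero q]

namespace err3aux

/-- the measurable weight -/
noncomputable def Gr (q : ℕ) (r : ZMod q) (y : ℝ) : ℂ :=
  ((er q r (Real.exp y) * Real.exp (-y / 2) : ℝ) : ℂ)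

lemma int_term (r : ZMod q) (c : ℂ) (a b y0 : ℝ) :
    IntegrableOn (fun y : ℝ => Gr q r y * (c * (ee a y * ee b y))) (Set.Ioi y0) := by
  have h := tail_integrable (fun y => er q r (Real.exp y)) (er_measurable r)
    (fun y => er_abs_le r _ (Real.exp_pos y).le)
    (fun y => c * (ee a y * ee b y))
    (continuous_const.mul ((continuous_ee a).mul (continuous_ee b))) ‖c‖
    (fun y => by rw [norm_mul, norm_mul, norm_ee, norm_ee]; simp) y0
  exact h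

lemma V_eq (A : Finset (DirichletCharacter ℂ q × ℝ)) (x : DirichletCharacter ℂ q × ℝ → ℂ)
    (p' : DirichletCharacter ℂ q × ℝ) (y0 : ℝ) :
    ∑ p ∈ A, x p * ∑ r : ZMod q, (p.1 * p'.1) r * ∫ y in Set.Ioi y0,
        Gr q r y * ee (p.2 + p'.2) y =
      ∑ r : ZMod q, ∫ y in Set.Ioi y0, Gr q r y * (p'.1 r * ee p'.2 y * FF A x r y) := by
  simp_rw [Finset.mul_sum]
  rw [Finset.sum_comm]
  refine Finset.sum_congr rfl fun r _ => ?_
  have h1 : ∀ y : ℝ, Gr q r y * (p'.1 r * ee p'.2 y * FF A x r y) =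
      ∑ p ∈ A, Gr q r y * ((x p * (p.1 r * p'.1 r)) * (ee p.2 y * ee p'.2 y)) := by
    intro y
    unfold FF
    rw [Finset.mul_sum, Finset.mul_sum]
    exact Finset.sum_congr rfl fun p _ => by ring
  rw [MeasureTheory.integral_congr_ae (Filter.Eventually.of_forall h1)]
  rw [MeasureTheory.integral_finset_sum]
  · refine Finset.sum_congr rfl fun p _ => ?_
    rw [MulChar.mul_apply, ← mul_assoc, ← MeasureTheory.integral_const_mul]
    refine MeasureTheory.integral_congr_ae (Filter.Eventually.of_forall fun y => ?_)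
    simp only [ee_add_left]
    ring
  · intro p _
    exact int_term r _ _ _ y0

lemma V_bound (A B : Finset (DirichletCharacter ℂ q × ℝ)) (hA : Sep A) (hB : Sep B)
    (x : DirichletCharacter ℂ q × ℝ → ℂ) (N : ℝ) (hN : 0 < N) (M : ℝ) (hM : 0 ≤ M)
    (hx : ∀ p ∈ A, ‖x p‖ ≤ M) :
    ∑ p' ∈ B, ‖∑ r : ZMod q, ∫ y in Set.Ioi (Real.log N),
      Gr q r y * (p'.1 r * ee p'.2 y * FF A x r y)‖ ^ 2 ≤
      (12 * q) ^ 2 * (1 / N) * (A.card * M ^ 2) := by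
  have h := tail_ls A B hA hB x (fun r y => er q r (Real.exp y)) (fun r => er_measurable r)
    (fun r y => er_abs_le r _ (Real.exp_pos y).le) (Real.log N)
  have h2 : ∑ p ∈ A, ‖x p‖ ^ 2 ≤ A.card * M ^ 2 := by
    have := Finset.sum_le_card_nsmul A (fun p => ‖x p‖ ^ 2) (M ^ 2)
      (fun p hp => pow_le_pow_left₀ (norm_nonneg _) (hx p hp) 2)
    simpa [nsmul_eq_mul] using this
  refine h.trans ?_
  rw [Real.exp_neg, Real.exp_log hN, ← one_div]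
  exact mul_le_mul_of_nonneg_left h2 (by positivity)

end err3aux

open err3aux in
theorem err3 (A B : Finset (DirichletCharacter ℂ q × ℝ)) (hA : Sep A) (hB : Sep B) (T : ℝ)
    (hT : 1 ≤ T) (hAT : ∀ p ∈ A, |p.2| ≤ T) (hBT : ∀ p ∈ B, |p.2| ≤ T)
    (x : DirichletCharacter ℂ q × ℝ → ℂ) (hx : ∀ p ∈ A, ‖x p‖ ≤ 1) :
    ∑ p' ∈ B, ‖∑ p ∈ A, x p * ((1 / 2 + ((p.2 + p'.2 : ℝ) : ℂ) * Complex.I) *
        ∑ r : ZMod q, (p.1 * p'.1) r * ∫ y in Set.Ioi (Real.log (q * ⌈T⌉₊ : ℕ)),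
          ((er q r (Real.exp y) * Real.exp (-y / 2) : ℝ) : ℂ) * ee (p.2 + p'.2) y)‖ ^ 2 ≤
      1000 * (q * T) * A.card := by
  have hq : (0 : ℝ) < q := by exact_mod_cast Nat.pos_of_ne_zero (NeZero.ne q)
  set N : ℝ := ((q * ⌈T⌉₊ : ℕ) : ℝ) with hNdef
  have hNge : (q : ℝ) * T ≤ N := by
    rw [hNdef]
    push_cast
    exact mul_le_mul_of_nonneg_left (Nat.le_ceil T) hq.le
  have hN : 0 < N := lt_of_lt_of_le (by positivity) hNge
  set x2 : DirichletCharacter ℂ q × ℝ → ℂ := fun p => (p.2 : ℂ) * x p with hx2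
  set V1 : DirichletCharacter ℂ q × ℝ → ℂ := fun p' => ∑ r : ZMod q,
    ∫ y in Set.Ioi (Real.log N), Gr q r y * (p'.1 r * ee p'.2 y * FF A x r y) with hV1
  set V2 : DirichletCharacter ℂ q × ℝ → ℂ := fun p' => ∑ r : ZMod q,
    ∫ y in Set.Ioi (Real.log N), Gr q r y * (p'.1 r * ee p'.2 y * FF A x2 r y) with hV2
  have key : ∀ p' : DirichletCharacter ℂ q × ℝ,
      ∑ p ∈ A, x p * ((1 / 2 + ((p.2 + p'.2 : ℝ) : ℂ) * Complex.I) *
        ∑ r : ZMod q, (p.1 * p'.1) r * ∫ y in Set.Ioi (Real.log N),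
          ((er q r (Real.exp y) * Real.exp (-y / 2) : ℝ) : ℂ) * ee (p.2 + p'.2) y) =
      (1 / 2 + (p'.2 : ℂ) * Complex.I) * V1 p' + Complex.I * V2 p' := by
    intro p'
    rw [hV1, hV2]
    simp only []
    rw [← V_eq A x p', ← V_eq A x2 p', Finset.mul_sum, Finset.mul_sum, ← Finset.sum_add_distrib]
    refine Finset.sum_congr rfl fun p _ => ?_
    simp only [hx2, Gr]
    push_cast
    ring
  have b1 := V_bound A B hA hB x N hN 1 zero_le_one hx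
  have b2 := V_bound A B hA hB x2 N hN T (by linarith) (fun p hp => by
    simp only [hx2]
    rw [norm_mul, Complex.norm_real, Real.norm_eq_abs]
    have := mul_le_mul (hAT p hp) (hx p hp) (norm_nonneg _) (by linarith)
    simpa using this)
  have hc : ∀ p' ∈ B, ‖(1 / 2 + (p'.2 : ℂ) * Complex.I)‖ ^ 2 ≤ 5 / 4 * T ^ 2 := by
    intro p' hp'
    have h1 : ‖(1 / 2 + (p'.2 : ℂ) * Complex.I)‖ ^ 2 = 1 / 4 + p'.2 ^ 2 := by
      rw [← Complex.normSq_eq_norm_sq, Complex.normSq_apply]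
      simp
      ring
    rw [h1]
    have h2 := sq_le_sq' (by linarith [(abs_le.mp (hBT p' hp')).1]) (abs_le.mp (hBT p' hp')).2
    nlinarith
  have hterm : ∀ p' ∈ B, ‖∑ p ∈ A, x p * ((1 / 2 + ((p.2 + p'.2 : ℝ) : ℂ) * Complex.I) *
        ∑ r : ZMod q, (p.1 * p'.1) r * ∫ y in Set.Ioi (Real.log N),
          ((er q r (Real.exp y) * Real.exp (-y / 2) : ℝ) : ℂ) * ee (p.2 + p'.2) y)‖ ^ 2 ≤
      2 * (5 / 4 * T ^ 2 * ‖V1 p'‖ ^ 2 + ‖V2 p'‖ ^ 2) := by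
    intro p' hp'
    rw [key p']
    have h1 : ‖(1 / 2 + (p'.2 : ℂ) * Complex.I) * V1 p' + Complex.I * V2 p'‖ ≤
        ‖(1 / 2 + (p'.2 : ℂ) * Complex.I)‖ * ‖V1 p'‖ + ‖V2 p'‖ := by
      refine (norm_add_le _ _).trans ?_
      rw [norm_mul, norm_mul, Complex.norm_I, one_mul]
    have h2 := pow_le_pow_left₀ (norm_nonneg _) h1 2
    have h3 := hc p' hp'
    have h4 : 0 ≤ ‖V1 p'‖ ^ 2 := by positivity
    nlinarith [sq_nonneg (‖(1 / 2 + (p'.2 : ℂ) * Complex.I)‖ * ‖V1 p'‖ - ‖V2 p'‖),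
      mul_le_mul_of_nonneg_right h3 h4]
  refine (Finset.sum_le_sum hterm).trans ?_
  rw [← Finset.mul_sum, Finset.sum_add_distrib, ← Finset.mul_sum]
  have b1' : ∑ p' ∈ B, ‖V1 p'‖ ^ 2 ≤ (12 * q) ^ 2 * (1 / N) * (A.card * 1 ^ 2) := b1
  have b2' : ∑ p' ∈ B, ‖V2 p'‖ ^ 2 ≤ (12 * q) ^ 2 * (1 / N) * (A.card * T ^ 2) := b2
  have h5 : q * T * (1 / N) ≤ 1 := by
    rw [mul_one_div, div_le_one hN]
    exact hNge
  have hK : (0 : ℝ) ≤ A.card := Nat.cast_nonneg _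
  have h6 : 2 * (5 / 4 * T ^ 2 * ∑ p' ∈ B, ‖V1 p'‖ ^ 2 + ∑ p' ∈ B, ‖V2 p'‖ ^ 2) ≤
      648 * (q * T * A.card) * (q * T * (1 / N)) := by
    have h7 := mul_le_mul_of_nonneg_left b1' (by positivity : 0 ≤ 5 / 4 * T ^ 2)
    calc 2 * (5 / 4 * T ^ 2 * ∑ p' ∈ B, ‖V1 p'‖ ^ 2 + ∑ p' ∈ B, ‖V2 p'‖ ^ 2)
        ≤ 2 * (5 / 4 * T ^ 2 * ((12 * q) ^ 2 * (1 / N) * (A.card * 1 ^ 2)) +
          (12 * q) ^ 2 * (1 / N) * (A.card * T ^ 2)) := by linarith
      _ = _ := by ring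
  refine h6.trans ?_
  have h8 : 648 * (q * T * A.card) * (q * T * (1 / N)) ≤ 648 * (q * T * A.card) * 1 :=
    mul_le_mul_of_nonneg_left h5 (by positivity)
  refine h8.trans ?_
  have h9 : 0 ≤ q * T * A.card := by positivity
  nlinarith

end Pool.Agent.H74.PZ
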