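import Pool.Agent.H74.PZ.Err1
import Pool.Agent.H74.PZ.Err2
import Pool.Agent.H74.PZ.Err3

/-!
# The error terms on average over `B`

`A, B` separated, ordinates `≤ T`, `X = ⌈T⌉₊`, `N = q X` (so `q T ≤ N ≤ 2 q T`), `K = |A|`, `‖x_p‖ ≤ 1`,
`D = LS q N`, `F(n) = ∑_{p ∈ A} x_p hh p n`.  Three parts of `RR X d (pm p p')`:

`err_ls`: `‖a + b + c‖^2 ≤ 3 (…)`; `D ≥ 60 (2 + log (T+1))` so `b = 2 (3 + log (2T+1)) ≤ D/10` and `1000 ≤ D^2/14`; total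
`≤ 3 (9 D^2 d + 2 D^2/100 + D^2/14) q T K ≤ 30 D^2 d q T K`.
-/

namespace Pool.Agent.H74.PZ

open Finset MeasureTheory

variable {q : ℕ} [NeZero q]

theorem norm_add3_sq (a b c : ℂ) : ‖a + b + c‖ ^ 2 ≤ 3 * (‖a‖ ^ 2 + ‖b‖ ^ 2 + ‖c‖ ^ 2) := by
  have h1 : ‖a + b + c‖ ≤ ‖a‖ + ‖b‖ + ‖c‖ := norm_add₃_le
  have h2 : ‖a + b + c‖ ^ 2 ≤ (‖a‖ + ‖b‖ + ‖c‖) ^ 2 := pow_le_pow_left₀ (norm_nonneg _) h1 2
  nlinarith [sq_nonneg (‖a‖ - ‖b‖), sq_nonneg (‖b‖ - ‖c‖), sq_nonneg (‖a‖ - ‖c‖)]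

theorem LS_dom (T : ℝ) (hT : 1 ≤ T) :
    2 * (2 * (3 + Real.log (2 * T + 1))) ^ 2 + 1000 ≤ LS q (q * ⌈T⌉₊) ^ 2 := by
  have hq : (1 : ℝ) ≤ q := by exact_mod_cast Nat.pos_of_ne_zero (NeZero.ne q)
  have h1 : T ≤ ⌈T⌉₊ := Nat.le_ceil T
  have h2 : T + 1 ≤ ((q * ⌈T⌉₊ : ℕ) : ℝ) + q := by
    push_cast
    nlinarith
  have h3 : Real.log (T + 1) ≤ Real.log (((q * ⌈T⌉₊ : ℕ) : ℝ) + q) :=
    Real.log_le_log (by linarith) h2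
  have h4 : 0 ≤ Real.log (T + 1) := Real.log_nonneg (by linarith)
  have h5 : Real.log (2 * T + 1) ≤ 1 + Real.log (T + 1) := by
    have h6 : Real.log (2 * T + 1) ≤ Real.log (2 * (T + 1)) :=
      Real.log_le_log (by linarith) (by linarith)
    rw [Real.log_mul (by norm_num) (by linarith)] at h6
    have := Real.log_two_lt_d9
    linarith
  have h7 : 0 ≤ Real.log (2 * T + 1) := Real.log_nonneg (by linarith)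
  set L := Real.log (T + 1)
  have h8 : 60 * (2 + L) ≤ LS q (q * ⌈T⌉₊) := by
    unfold LS
    linarith
  have h9 : (60 * (2 + L)) ^ 2 ≤ LS q (q * ⌈T⌉₊) ^ 2 := pow_le_pow_left₀ (by positivity) h8 2
  have h10 : (2 * (3 + Real.log (2 * T + 1))) ^ 2 ≤ (2 * (4 + L)) ^ 2 :=
    pow_le_pow_left₀ (by positivity) (by linarith) 2
  nlinarith

theorem err_ls (A B : Finset (DirichletCharacter ℂ q × ℝ)) (hA : Sep A) (hB : Sep B) (T : ℝ)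
    (hT : 1 ≤ T) (hAT : ∀ p ∈ A, |p.2| ≤ T) (hBT : ∀ p ∈ B, |p.2| ≤ T)
    (x : DirichletCharacter ℂ q × ℝ → ℂ) (hx : ∀ p ∈ A, ‖x p‖ ≤ 1) (d : ℕ) (hd : 1 ≤ d) :
    ∑ p' ∈ B, ‖∑ p ∈ A, x p * RR ⌈T⌉₊ d (pm p p')‖ ^ 2 ≤
      30 * LS q (q * ⌈T⌉₊) ^ 2 * d * (q * T) * A.card := by
  have e1 := err1 A B hA hB T hT hAT hBT x hx d hd
  have e2 := err2 A B hA hB T hT hAT hBT x hx
  have e3 := err3 A B hA hB T hT hAT hBT x hx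
  have hsplit : ∀ p' ∈ B, ‖∑ p ∈ A, x p * RR ⌈T⌉₊ d (pm p p')‖ ^ 2 ≤
      3 * (‖∑ p ∈ A, x p * ∑ n ∈ (Icc 1 (q * ⌈T⌉₊)).filter (fun n => q * ⌈T⌉₊ < n * d),
        hh (pm p p') n / (Real.sqrt n : ℂ)‖ ^ 2 +
      ‖∑ p ∈ A, x p * (kap (p.1 * p'.1) * ((Real.sqrt (q * ⌈T⌉₊ : ℕ) : ℂ) *
        ee (p.2 + p'.2) (Real.log (q * ⌈T⌉₊ : ℕ))) /
        (-(1 / 2) + ((p.2 + p'.2 : ℝ) : ℂ) * Complex.I))‖ ^ 2 +
      ‖∑ p ∈ A, x p * ((1 / 2 + ((p.2 + p'.2 : ℝ) : ℂ) * Complex.I) *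
        ∑ r : ZMod q, (p.1 * p'.1) r * ∫ y in Set.Ioi (Real.log (q * ⌈T⌉₊ : ℕ)),
          ((er q r (Real.exp y) * Real.exp (-y / 2) : ℝ) : ℂ) * ee (p.2 + p'.2) y)‖ ^ 2) := by
    intro p' _
    rw [show (∑ p ∈ A, x p * RR ⌈T⌉₊ d (pm p p')) = (∑ p ∈ A, x p *
        ∑ n ∈ (Icc 1 (q * ⌈T⌉₊)).filter (fun n => q * ⌈T⌉₊ < n * d),
        hh (pm p p') n / (Real.sqrt n : ℂ)) +
      (∑ p ∈ A, x p * (kap (p.1 * p'.1) * ((Real.sqrt (q * ⌈T⌉₊ : ℕ) : ℂ) *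
        ee (p.2 + p'.2) (Real.log (q * ⌈T⌉₊ : ℕ))) /
        (-(1 / 2) + ((p.2 + p'.2 : ℝ) : ℂ) * Complex.I))) +
      (∑ p ∈ A, x p * ((1 / 2 + ((p.2 + p'.2 : ℝ) : ℂ) * Complex.I) *
        ∑ r : ZMod q, (p.1 * p'.1) r * ∫ y in Set.Ioi (Real.log (q * ⌈T⌉₊ : ℕ)),
          ((er q r (Real.exp y) * Real.exp (-y / 2) : ℝ) : ℂ) * ee (p.2 + p'.2) y)) by
      rw [← Finset.sum_add_distrib, ← Finset.sum_add_distrib]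
      refine Finset.sum_congr rfl fun p _ => ?_
      rw [← mul_add, ← mul_add]
      rfl]
    exact norm_add3_sq _ _ _
  refine (Finset.sum_le_sum hsplit).trans ?_
  rw [← Finset.mul_sum, Finset.sum_add_distrib, Finset.sum_add_distrib]
  have hdom := LS_dom (q := q) T hT
  have hd' : (1 : ℝ) ≤ d := by exact_mod_cast hd
  have hQK : 0 ≤ (q : ℝ) * T * A.card := by positivity
  have h1 : (2 * (2 * (3 + Real.log (2 * T + 1))) ^ 2 + 1000) * ((q : ℝ) * T * A.card) ≤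
      LS q (q * ⌈T⌉₊) ^ 2 * d * ((q : ℝ) * T * A.card) := by
    refine mul_le_mul_of_nonneg_right (hdom.trans ?_) hQK
    exact le_mul_of_one_le_right (sq_nonneg _) hd'
  linarith

end Pool.Agent.H74.PZ
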