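import Pool.Agent.H74.PZ.Primal

/-!
# The error terms on average over `B`: first part

`A, B` separated, ordinates `≤ T`, `X = ⌈T⌉₊`, `N = q X` (so `q T ≤ N ≤ 2 q T`), `K = |A|`, `‖x_p‖ ≤ 1`,
`D = LS q N`, `F(n) = ∑_{p ∈ A} x_p hh p n`.  Three parts of `RR X d (pm p p')`:

`err1` (sum with `n d > N`): `∑_{p ∈ A} x_p ∑_{n ≤ N, n d > N} hh (pm p p') n/√n = ∑_{n ≤ N} a_n hh p' n`, `a_n = F(n)/√n` if
`n d > N`, else `0`.  `primal_ls` for `B`: `∑_B ≤ D ∑ (q T + n) |a_n|^2 ≤ D · 3 q T · (d/N) ∑_{n ≤ N} |F(n)|^2`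
(`1/n < d/N`), and `dual_ls` for `A`: `∑_{n ≤ N} |F(n)|^2 ≤ 3 q T · D K`.  As `q T ≤ N`: `≤ 9 D^2 d q T K`.
-/

namespace Pool.Agent.H74.PZ

open Finset MeasureTheory

variable {q : ℕ} [NeZero q]

theorem err1 (A B : Finset (DirichletCharacter ℂ q × ℝ)) (hA : Sep A) (hB : Sep B) (T : ℝ)
    (hT : 1 ≤ T) (hAT : ∀ p ∈ A, |p.2| ≤ T) (hBT : ∀ p ∈ B, |p.2| ≤ T)
    (x : DirichletCharacter ℂ q × ℝ → ℂ) (hx : ∀ p ∈ A, ‖x p‖ ≤ 1) (d : ℕ) (hd : 1 ≤ d) :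
    ∑ p' ∈ B, ‖∑ p ∈ A, x p * ∑ n ∈ (Icc 1 (q * ⌈T⌉₊)).filter (fun n => q * ⌈T⌉₊ < n * d),
        hh (pm p p') n / (Real.sqrt n : ℂ)‖ ^ 2 ≤
      9 * LS q (q * ⌈T⌉₊) ^ 2 * d * (q * T) * A.card := by
  set N := q * ⌈T⌉₊ with hN
  have hq1 : (1 : ℝ) ≤ q := by exact_mod_cast Nat.one_le_iff_ne_zero.mpr (NeZero.ne q)
  have hqT : (1 : ℝ) ≤ q * T := by nlinarith
  have hNlow : (q * T : ℝ) ≤ N := by
    rw [hN]
    push_cast
    exact mul_le_mul_of_nonneg_left (Nat.le_ceil T) (by linarith)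
  have hNup : (N : ℝ) ≤ 2 * (q * T) := by
    have h1 : (⌈T⌉₊ : ℝ) < T + 1 := Nat.ceil_lt_add_one (by linarith)
    rw [hN]
    push_cast
    nlinarith
  have hN0 : (0 : ℝ) < N := by linarith
  set F : ℕ → ℂ := fun n => ∑ p ∈ A, x p * hh p n with hF
  set a : ℕ → ℂ := fun n => if N < n * d then F n / (Real.sqrt n : ℂ) else 0 with ha
  have h1 : ∀ p' : DirichletCharacter ℂ q × ℝ,
      ∑ p ∈ A, x p * ∑ n ∈ (Icc 1 N).filter (fun n => N < n * d),
        hh (pm p p') n / (Real.sqrt n : ℂ) = ∑ n ∈ Icc 1 N, a n * hh p' n := by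
    intro p'
    simp only [Finset.mul_sum]
    rw [Finset.sum_comm, Finset.sum_filter]
    refine Finset.sum_congr rfl fun n _ => ?_
    simp only [ha, hF]
    split_ifs
    · rw [Finset.sum_div, Finset.sum_mul]
      refine Finset.sum_congr rfl fun p _ => ?_
      rw [hh_pm]
      ring
    · simp
  simp only [h1]
  refine (primal_ls B hB T hT hBT N a).trans ?_
  have h2 : ∑ n ∈ Icc 1 N, (q * T + n) * ‖a n‖ ^ 2 ≤
      ∑ n ∈ Icc 1 N, 9 * d * (q * T) * (‖F n‖ ^ 2 / (q * T + n)) := by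
    refine Finset.sum_le_sum fun n hn => ?_
    obtain ⟨hn1, hn2⟩ := Finset.mem_Icc.mp hn
    have hn0 : (0 : ℝ) < n := by exact_mod_cast hn1
    have hd0 : (0 : ℝ) < d := by exact_mod_cast hd
    have hw0 : (0 : ℝ) < q * T + n := by linarith
    have hw : (q * T + n : ℝ) ≤ 3 * (q * T) := by
      have : (n : ℝ) ≤ N := by exact_mod_cast hn2
      linarith
    simp only [ha]
    split_ifs with hnd
    · have hnd' : (N : ℝ) < n * d := by exact_mod_cast hnd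
      rw [norm_div, div_pow, Complex.norm_real, Real.norm_eq_abs, sq_abs, Real.sq_sqrt hn0.le]
      have h3 : (q * T + n : ℝ) ^ 2 ≤ 9 * d * (q * T) * n := by
        have h4 : (q * T + n : ℝ) ^ 2 ≤ (3 * (q * T)) ^ 2 := pow_le_pow_left₀ hw0.le hw 2
        have h5 : (q * T : ℝ) ≤ n * d := by linarith
        have h6 : (q * T : ℝ) * (q * T) ≤ (q * T) * (n * d) :=
          mul_le_mul_of_nonneg_left h5 (by linarith)
        nlinarith
      rw [mul_div_assoc', mul_div_assoc', div_le_div_iff₀ hn0 hw0]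
      have h7 : 0 ≤ ‖F n‖ ^ 2 := by positivity
      nlinarith [mul_le_mul_of_nonneg_left h3 h7]
    · rw [norm_zero, zero_pow two_ne_zero, mul_zero]
      positivity
  have h3 : ∑ n ∈ Icc 1 N, 9 * d * (q * T) * (‖F n‖ ^ 2 / (q * T + n)) ≤
      9 * d * (q * T) * (LS q N * A.card) := by
    rw [← Finset.mul_sum]
    refine mul_le_mul_of_nonneg_left ?_ (by positivity)
    refine (dual_ls A hA T hT hAT x N).trans ?_
    refine mul_le_mul_of_nonneg_left ?_ (LS_pos q N).le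
    calc ∑ p ∈ A, ‖x p‖ ^ 2 ≤ ∑ p ∈ A, (1 : ℝ) := by
          refine Finset.sum_le_sum fun p hp => ?_
          exact pow_le_one₀ (norm_nonneg _) (hx p hp)
      _ = A.card := by simp
  calc LS q N * ∑ n ∈ Icc 1 N, (q * T + n) * ‖a n‖ ^ 2
      ≤ LS q N * (9 * d * (q * T) * (LS q N * A.card)) :=
        mul_le_mul_of_nonneg_left (h2.trans h3) (LS_pos q N).le
    _ = 9 * LS q N ^ 2 * d * (q * T) * A.card := by ring

end Pool.Agent.H74.PZ
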