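import Pool.Agent.H74.PZ.Exp1

/-!
# The large sieve for exponential sums with separated frequencies, exponential weight

`exp_int`: `∫ e^{-|y-y0|/2} e^{-ihy} dy = e^{-i h y0} / (1/4 + h^2)`.  Translate `y = y0 + z`
(`integral_add_right_eq_self` or `integral_sub_right_eq_self`), split at `0`:
`∫_{z>0} e^{-(1/2 + i h) z} dz = 1/(1/2 + i h)` and `∫_{z≤0} e^{(1/2 - i h) z} dz = 1/(1/2 - i h)`
(Mathlib: `integral_exp_mul_complex_Ioi`, `integral_exp_mul_complex_Iic`); the sum is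
`1 / (1/4 + h^2)`.

`exp_ls`: expand `‖∑ c_a e_a‖^2 = ∑_{a,b} c_a conj(c_b) e^{-i(a-b)y}` and integrate (everything is
integrable by `exp_integrable`): the integral equals `∑_{a,b} c_a conj(c_b) e^{-i(a-b)y0} w(a-b)`,
`w(h) = 1/(1/4+h^2) ≥ 0`; it is at most `∑_{a,b} |c_a| |c_b| w(a-b) ≤ ∑_{a,b} (|c_a|^2 + |c_b|^2)/2 w(a-b)
= ∑_a |c_a|^2 ∑_b w(a-b) ≤ 12 ∑_a |c_a|^2` by `sep_sum_sq` (`w` is even).

`exp_integrable`: continuous bounded function times an integrable one.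
-/

namespace Pool.Agent.H74.PZ

open Finset MeasureTheory

private theorem expw_aux : Integrable (fun z : ℝ => Real.exp (-|z| / 2)) := by
  have h1 : IntegrableOn (fun z : ℝ => Real.exp (-|z| / 2)) (Set.Iic 0) := by
    refine (integrableOn_exp_mul_Iic (a := 1 / 2) (by norm_num) 0).congr_fun ?_
      measurableSet_Iic
    intro z hz
    have hz' : z ≤ 0 := hz
    simp only
    rw [abs_of_nonpos hz']
    congr 1
    ring
  have h2 : IntegrableOn (fun z : ℝ => Real.exp (-|z| / 2)) (Set.Ioi 0) := by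
    refine (integrableOn_exp_mul_Ioi (a := -1 / 2) (by norm_num) 0).congr_fun ?_
      measurableSet_Ioi
    intro z hz
    have hz' : 0 < z := hz
    simp only
    rw [abs_of_pos hz']
    congr 1
    ring
  have h3 := h1.union h2
  rw [Set.Iic_union_Ioi, integrableOn_univ] at h3
  exact h3

theorem exp_weight_integrable (y0 : ℝ) : Integrable (fun y : ℝ => Real.exp (-|y - y0| / 2)) :=
  expw_aux.comp_sub_right y0

theorem exp_integrable (y0 : ℝ) (f : ℝ → ℂ) (hf : Continuous f) (B : ℝ) (hB : ∀ y, ‖f y‖ ≤ B) :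
    Integrable (fun y : ℝ => Real.exp (-|y - y0| / 2) * ‖f y‖ ^ 2) := by
  refine ((exp_weight_integrable y0).mul_const (B ^ 2)).mono' ?_ ?_
  · apply Continuous.aestronglyMeasurable
    fun_prop
  · refine Filter.Eventually.of_forall (fun y => ?_)
    rw [Real.norm_eq_abs, abs_of_nonneg (by positivity)]
    have h1 : ‖f y‖ ^ 2 ≤ B ^ 2 := pow_le_pow_left₀ (norm_nonneg _) (hB y) 2
    exact mul_le_mul_of_nonneg_left h1 (Real.exp_pos _).le

private theorem expG_Iic (h : ℝ) : IntegrableOn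
    (fun z : ℝ => ((Real.exp (-|z| / 2) : ℝ) : ℂ) * ee h z) (Set.Iic 0) ∧
    ∫ z in Set.Iic (0 : ℝ), ((Real.exp (-|z| / 2) : ℝ) : ℂ) * ee h z =
      1 / (1 / 2 - (h : ℂ) * Complex.I) := by
  have hre : 0 < (1 / 2 - (h : ℂ) * Complex.I).re := by
    simp
  have he : Set.EqOn (fun z : ℝ => Complex.exp ((1 / 2 - (h : ℂ) * Complex.I) * z))
      (fun z : ℝ => ((Real.exp (-|z| / 2) : ℝ) : ℂ) * ee h z) (Set.Iic 0) := by
    intro z hz
    have hz' : z ≤ 0 := hz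
    simp only [ee]
    rw [abs_of_nonpos hz', Complex.ofReal_exp, ← Complex.exp_add]
    congr 1
    push_cast
    ring
  refine ⟨(integrableOn_exp_mul_complex_Iic hre 0).congr_fun he measurableSet_Iic, ?_⟩
  rw [← setIntegral_congr_fun measurableSet_Iic he, integral_exp_mul_complex_Iic hre]
  simp

private theorem expG_Ioi (h : ℝ) : IntegrableOn
    (fun z : ℝ => ((Real.exp (-|z| / 2) : ℝ) : ℂ) * ee h z) (Set.Ioi 0) ∧
    ∫ z in Set.Ioi (0 : ℝ), ((Real.exp (-|z| / 2) : ℝ) : ℂ) * ee h z =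
      1 / (1 / 2 + (h : ℂ) * Complex.I) := by
  have hre : (-(1 / 2 + (h : ℂ) * Complex.I)).re < 0 := by
    simp
  have he : Set.EqOn (fun z : ℝ => Complex.exp ((-(1 / 2 + (h : ℂ) * Complex.I)) * z))
      (fun z : ℝ => ((Real.exp (-|z| / 2) : ℝ) : ℂ) * ee h z) (Set.Ioi 0) := by
    intro z hz
    have hz' : 0 < z := hz
    simp only [ee]
    rw [abs_of_pos hz', Complex.ofReal_exp, ← Complex.exp_add]
    congr 1
    push_cast
    ring
  refine ⟨(integrableOn_exp_mul_complex_Ioi hre 0).congr_fun he measurableSet_Ioi, ?_⟩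
  rw [← setIntegral_congr_fun measurableSet_Ioi he, integral_exp_mul_complex_Ioi hre]
  rw [Complex.ofReal_zero, mul_zero, Complex.exp_zero, neg_div_neg_eq]

theorem exp_int (h y0 : ℝ) :
    ∫ y : ℝ, ((Real.exp (-|y - y0| / 2) : ℝ) : ℂ) * ee h y =
      ee h y0 * ((1 / (1 / 4 + h ^ 2) : ℝ) : ℂ) := by
  have h1 : ∀ y : ℝ, ((Real.exp (-|y - y0| / 2) : ℝ) : ℂ) * ee h y =
      ee h y0 * (((Real.exp (-|y - y0| / 2) : ℝ) : ℂ) * ee h (y - y0)) := by
    intro y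
    have h2 : ee h y = ee h y0 * ee h (y - y0) := by
      rw [← ee_add_right]
      congr 1
      ring
    rw [h2]
    ring
  simp_rw [h1]
  rw [integral_const_mul, integral_sub_right_eq_self
    (fun z : ℝ => ((Real.exp (-|z| / 2) : ℝ) : ℂ) * ee h z) y0]
  obtain ⟨i1, e1⟩ := expG_Iic h
  obtain ⟨i2, e2⟩ := expG_Ioi h
  rw [← intervalIntegral.integral_Iic_add_Ioi i1 i2, e1, e2]
  congr 1
  have hn1 : (1 / 2 - (h : ℂ) * Complex.I) ≠ 0 := by
    intro h0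
    have := congrArg Complex.re h0
    simp at this
  have hn2 : (1 / 2 + (h : ℂ) * Complex.I) ≠ 0 := by
    intro h0
    have := congrArg Complex.re h0
    simp at this
  have hn3 : (1 / 4 + (h : ℂ) ^ 2) = (1 / 2 - (h : ℂ) * Complex.I) * (1 / 2 + (h : ℂ) * Complex.I) := by
    have : Complex.I ^ 2 = -1 := Complex.I_sq
    ring_nf
    rw [this]
    ring
  push_cast
  rw [hn3, div_add_div _ _ hn1 hn2]
  congr 1
  ring

theorem exp_ls (s : Finset ℝ) (hs : ∀ a ∈ s, ∀ b ∈ s, a ≠ b → 1 ≤ |a - b|) (c : ℝ → ℂ) (y0 : ℝ) :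
    ∫ y : ℝ, Real.exp (-|y - y0| / 2) * ‖∑ a ∈ s, c a * ee a y‖ ^ 2 ≤ 12 * ∑ a ∈ s, ‖c a‖ ^ 2 := by
  have hpt : ∀ y : ℝ, ((Real.exp (-|y - y0| / 2) * ‖∑ a ∈ s, c a * ee a y‖ ^ 2 : ℝ) : ℂ) =
      ∑ a ∈ s, ∑ b ∈ s, (c a * (starRingEnd ℂ) (c b)) *
        (((Real.exp (-|y - y0| / 2) : ℝ) : ℂ) * ee (a - b) y) := by
    intro y
    have h1 : ((‖∑ a ∈ s, c a * ee a y‖ ^ 2 : ℝ) : ℂ) =
        (∑ a ∈ s, c a * ee a y) * (starRingEnd ℂ) (∑ b ∈ s, c b * ee b y) := by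
      rw [Complex.mul_conj, Complex.normSq_eq_norm_sq]
    rw [Complex.ofReal_mul, h1, map_sum, Finset.sum_mul_sum, Finset.mul_sum]
    refine Finset.sum_congr rfl (fun a _ => ?_)
    rw [Finset.mul_sum]
    refine Finset.sum_congr rfl (fun b _ => ?_)
    have h2 : ee (a - b) y = ee a y * ee (-b) y := by
      rw [← ee_add_left, ← sub_eq_add_neg]
    rw [map_mul, conj_ee, h2]
    ring
  have hint : ∀ h : ℝ, Integrable (fun y : ℝ => ((Real.exp (-|y - y0| / 2) : ℝ) : ℂ) * ee h y) := by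
    intro h
    refine (exp_weight_integrable y0).mono' ?_ ?_
    · apply Continuous.aestronglyMeasurable
      have := continuous_ee h
      fun_prop
    · refine Filter.Eventually.of_forall (fun y => ?_)
      rw [norm_mul, norm_ee, mul_one, Complex.norm_real, Real.norm_eq_abs,
        abs_of_pos (Real.exp_pos _)]
  have hval : ((∫ y : ℝ, Real.exp (-|y - y0| / 2) * ‖∑ a ∈ s, c a * ee a y‖ ^ 2 : ℝ) : ℂ) =
      ∑ a ∈ s, ∑ b ∈ s, (c a * (starRingEnd ℂ) (c b)) *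
        (ee (a - b) y0 * ((1 / (1 / 4 + (a - b) ^ 2) : ℝ) : ℂ)) := by
    rw [← integral_complex_ofReal]
    simp_rw [hpt]
    rw [integral_finsetSum _ (fun a _ => integrable_finsetSum _
      (fun b _ => (hint (a - b)).const_mul _))]
    refine Finset.sum_congr rfl (fun a _ => ?_)
    rw [integral_finsetSum _ (fun b _ => (hint (a - b)).const_mul _)]
    refine Finset.sum_congr rfl (fun b _ => ?_)
    rw [integral_const_mul, exp_int]
  have hle : ∫ y : ℝ, Real.exp (-|y - y0| / 2) * ‖∑ a ∈ s, c a * ee a y‖ ^ 2 ≤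
      ∑ a ∈ s, ∑ b ∈ s, (‖c a‖ ^ 2 + ‖c b‖ ^ 2) / 2 * (1 / (1 / 4 + (a - b) ^ 2)) := by
    have h1 : ∫ y : ℝ, Real.exp (-|y - y0| / 2) * ‖∑ a ∈ s, c a * ee a y‖ ^ 2 ≤
        ‖((∫ y : ℝ, Real.exp (-|y - y0| / 2) * ‖∑ a ∈ s, c a * ee a y‖ ^ 2 : ℝ) : ℂ)‖ := by
      rw [Complex.norm_real, Real.norm_eq_abs]
      exact le_abs_self _
    refine h1.trans ?_
    rw [hval]
    refine (norm_sum_le _ _).trans (Finset.sum_le_sum (fun a _ => ?_))
    refine (norm_sum_le _ _).trans (Finset.sum_le_sum (fun b _ => ?_))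
    rw [norm_mul, norm_mul, norm_mul, norm_ee, one_mul, RCLike.norm_conj, Complex.norm_real,
      Real.norm_eq_abs]
    have hw : 0 ≤ 1 / (1 / 4 + (a - b) ^ 2) := by positivity
    rw [abs_of_nonneg hw]
    refine mul_le_mul_of_nonneg_right ?_ hw
    nlinarith [sq_nonneg (‖c a‖ - ‖c b‖)]
  refine hle.trans ?_
  have hsplit : ∑ a ∈ s, ∑ b ∈ s, (‖c a‖ ^ 2 + ‖c b‖ ^ 2) / 2 * (1 / (1 / 4 + (a - b) ^ 2)) =
      ∑ a ∈ s, ‖c a‖ ^ 2 * ∑ b ∈ s, 1 / (1 / 4 + (b - a) ^ 2) := by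
    have h1 : ∑ a ∈ s, ∑ b ∈ s, (‖c a‖ ^ 2 + ‖c b‖ ^ 2) / 2 * (1 / (1 / 4 + (a - b) ^ 2)) =
        (∑ a ∈ s, ∑ b ∈ s, ‖c a‖ ^ 2 / 2 * (1 / (1 / 4 + (a - b) ^ 2))) +
        ∑ a ∈ s, ∑ b ∈ s, ‖c b‖ ^ 2 / 2 * (1 / (1 / 4 + (a - b) ^ 2)) := by
      rw [← Finset.sum_add_distrib]
      refine Finset.sum_congr rfl (fun a _ => ?_)
      rw [← Finset.sum_add_distrib]
      refine Finset.sum_congr rfl (fun b _ => ?_)
      ring
    rw [h1, Finset.sum_comm (f := fun a b => ‖c b‖ ^ 2 / 2 * (1 / (1 / 4 + (a - b) ^ 2))),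
      ← Finset.sum_add_distrib]
    refine Finset.sum_congr rfl (fun a _ => ?_)
    rw [← Finset.sum_add_distrib, Finset.mul_sum]
    refine Finset.sum_congr rfl (fun b _ => ?_)
    have h2 : (a - b) ^ 2 = (b - a) ^ 2 := by ring
    rw [h2]
    ring
  rw [hsplit, Finset.mul_sum]
  refine Finset.sum_le_sum (fun a _ => ?_)
  have h3 := sep_sum_sq s hs a
  have h4 : 0 ≤ ‖c a‖ ^ 2 := by positivity
  nlinarith

end Pool.Agent.H74.PZ
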