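import Pool.Agent.H74.PZ.Prm
import Pool.Agent.H14.Defs

/-!
# The final theorem

`Q = q T ≥ 1`, `ℓ = 2 + log Q ≥ 2`, `C₁ ≥ 1` the constant of `exists_sep`.

`final`: given arbitrary `A`, `B`: `artinL = 0` implies `LFunction = 0` (`artinL_ne_zero_of_LFunction_ne_zero` of `H14.Defs`).  If `B = ∅` trivial.
`A` is nonempty (`Q^α ≥ 1`).  `exists_sep` for `A` with `p₀ ∈ B` gives `A'`, `|A| ≤ C₁ ℓ |A'|` (nonempty); `exists_sep` for `B` with
`p₀ ∈ A` (commute the product) gives `B'`, `|B| ≤ C₁ ℓ |B'|`; `param` for `A'`, `B'`.  Finally `C₁ ℓ ≤ ℓ^(c/α)`.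
-/

namespace Pool.Agent.H74.PZ

open Finset MeasureTheory Pool.Agent.H14

theorem final : ∃ C : ℝ, 0 < C ∧ ∀ (q : ℕ) [NeZero q] (T α : ℝ), 1 ≤ T → 0 < α → α ≤ 1 →
    ∀ A B : Finset (DirichletCharacter ℂ q × ℝ),
    (∀ p ∈ A, |p.2| ≤ T) → (∀ p ∈ B, |p.2| ≤ T) →
    (∀ p ∈ A, ∀ p' ∈ B, artinL (p.1 * p'.1) (1 / 2 + ((p.2 + p'.2 : ℝ) : ℂ) * Complex.I) = 0) →
    (q * T) ^ α ≤ A.card →
    (B.card : ℝ) ≤ (q * T) ^ (1 - α ^ 2 / 8) * (2 + Real.log (q * T)) ^ (C / α) := by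
  obtain ⟨C₁, hC₁, hsep⟩ := exists_sep
  obtain ⟨C₂, hC₂, hpar⟩ := param C₁ hC₁
  have hlb : 0 ≤ Real.logb 2 C₁ := Real.logb_nonneg (by norm_num) hC₁
  refine ⟨C₂ + (Real.logb 2 C₁ + 1), by linarith, ?_⟩
  intro q _ T α hT hα hα1 A B hAT hBT h0 hcard
  have hq : (1 : ℝ) ≤ q := by
    exact_mod_cast Nat.pos_of_ne_zero (NeZero.ne q)
  have hQ : 1 ≤ (q : ℝ) * T := by nlinarith
  have hlog : 0 ≤ Real.log ((q : ℝ) * T) := Real.log_nonneg hQ
  have hl : 2 ≤ 2 + Real.log ((q : ℝ) * T) := by linarith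
  have hL : ∀ p ∈ A, ∀ p' ∈ B,
      (p.1 * p'.1).LFunction (1 / 2 + ((p.2 + p'.2 : ℝ) : ℂ) * Complex.I) = 0 := by
    intro p hp p' hp'
    by_contra h
    refine artinL_ne_zero_of_LFunction_ne_zero ?_ h (h0 p hp p' hp')
    intro h1
    have := congrArg Complex.re h1
    norm_num at this
  rcases B.eq_empty_or_nonempty with hB | ⟨b₀, hb₀⟩
  · rw [hB, Finset.card_empty, Nat.cast_zero]
    positivity
  have hA0 : A.Nonempty := by
    rw [Finset.nonempty_iff_ne_empty]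
    intro hA
    rw [hA, Finset.card_empty, Nat.cast_zero] at hcard
    exact absurd hcard (not_le.mpr (by positivity))
  obtain ⟨a₀, ha₀⟩ := hA0
  obtain ⟨A', hA', hA's, hA'c⟩ := hsep q T hT A b₀ (hBT b₀ hb₀) hAT fun p hp => hL p hp b₀ hb₀
  obtain ⟨B', hB', hB's, hB'c⟩ := hsep q T hT B a₀ (hAT a₀ ha₀) hBT fun p hp => by
    have := hL a₀ ha₀ p hp
    rw [mul_comm p.1, add_comm p.2]
    exact this
  have h1 := hpar q T α hT hα hα1 A' B' hA's hB's (fun p hp => hAT p (hA' hp))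
    (fun p hp => hBT p (hB' hp)) (fun p hp p' hp' => hL p (hA' hp) p' (hB' hp'))
    (hcard.trans hA'c)
  set l := 2 + Real.log ((q : ℝ) * T) with hldef
  have hl0 : 0 < l := by linarith
  have hl1 : 1 ≤ l := by linarith
  have h2 : C₁ * l ≤ l ^ ((Real.logb 2 C₁ + 1) / α) := by
    have h3 : C₁ ≤ l ^ Real.logb 2 C₁ := by
      calc C₁ = 2 ^ Real.logb 2 C₁ :=
            (Real.rpow_logb (by norm_num) (by norm_num) (by linarith)).symm
        _ ≤ l ^ Real.logb 2 C₁ := Real.rpow_le_rpow (by norm_num) hl hlb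
    calc C₁ * l ≤ l ^ Real.logb 2 C₁ * l := mul_le_mul_of_nonneg_right h3 hl0.le
      _ = l ^ (Real.logb 2 C₁ + 1) := by rw [Real.rpow_add hl0, Real.rpow_one]
      _ ≤ l ^ ((Real.logb 2 C₁ + 1) / α) := by
          refine Real.rpow_le_rpow_of_exponent_le hl1 ?_
          rw [le_div_iff₀ hα]
          nlinarith
  calc (B.card : ℝ) ≤ C₁ * l * B'.card := hB'c
    _ ≤ l ^ ((Real.logb 2 C₁ + 1) / α) * ((q * T) ^ (1 - α ^ 2 / 8) * l ^ (C₂ / α)) :=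
        mul_le_mul h2 h1 (by positivity) (by positivity)
    _ = (q * T) ^ (1 - α ^ 2 / 8) * l ^ ((C₂ + (Real.logb 2 C₁ + 1)) / α) := by
        rw [add_div C₂, Real.rpow_add hl0 (C₂ / α)]
        ring

end Pool.Agent.H74.PZ
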