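import Pool.Agent.H74.PZ.Defs
import Pool.Agent.H90.LBounds

/-!
# The truncated formula for `L(s, χ)` in the half plane `Re s > 0`, `s ≠ 1`, every character `χ` mod `q`

Let `N = q X` (`X ≥ 1`), `S(t) = ∑_{1 ≤ n ≤ t} χ(n)`, `κ = kap χ = (1/q) ∑_r χ(r)`, `Ech χ t = S(⌊t⌋) - κ t`.
`Ech_bound`: `‖Ech χ t‖ ≤ 2 q + 3` for `t ≥ 0` (from `H90` `norm_sum_Icc_periodic`, `‖κ‖ ≤ 1`).
`S_mul`: `S(q X) = κ q X`.

`LFunction_trunc`: for `Re s > 1` put `a(n) = χ(n)` for `n > N`, `a(n) = 0` for `n ≤ N`.  Then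
`L(s, χ) = ∑_{n ≤ N} χ(n) n^{-s} + LSeries a s`, and by Abel summation (Mathlib `LSeries_eq_mul_integral'`
and friends, or `LSeries_eq_JJ` of H90 with `c = κ`, `K = 4 q + 6`)
`LSeries a s = s ∫_{t > N} (S(t) - κ N) t^{-(s+1)} dt = s ∫_{t>N} (Ech t + κ t - κ N) t^{-(s+1)} dt
 = s ∫_{t > N} Ech t · t^{-(s+1)} dt + κ (s N^{1-s}/(s-1) - N^{1-s})
 = s ∫_{t > N} Ech t · t^{-(s+1)} dt + κ N^{1-s}/(s-1)`.
Continuation to `Re s > 0`: `eqOn_RHP` of H90 for the two functions `(s - 1) L(s, χ)` (differentiable on the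
half plane: if `χ ≠ 1` by `DirichletCharacter.differentiable_LFunction`; if `χ = 1` it is
`LFunctionTrivChar₁`, `DirichletCharacter.differentiable_LFunctionTrivChar₁`, which agrees with `(s-1) L(s, 1)` for `s ≠ 1`) and
`(s - 1) ∑_{n≤N} χ(n) n^{-s} + κ N^{1-s} + (s-1) s J(s)`, `J(s) = ∫_{t > N} Ech t · t^{-(s+1)} dt = JJ B s` with
`B t = Ech t` for `t > N`, `0` otherwise (`JJ_differentiableAt` of H90).  Divide by `s - 1`.
-/

namespace Pool.Agent.H74.PZ

open Finset MeasureTheory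

variable {q : ℕ} [NeZero q]

/-- discrepancy of the character sum -/
noncomputable def Ech (χ : DirichletCharacter ℂ q) (t : ℝ) : ℂ :=
  ∑ n ∈ Icc 1 ⌊t⌋₊, χ (n : ZMod q) - kap χ * t

theorem norm_kap_le (χ : DirichletCharacter ℂ q) : ‖kap χ‖ ≤ 1 := by
  have hq : 0 < q := Nat.pos_of_ne_zero (NeZero.ne q)
  unfold kap
  rw [norm_div, Complex.norm_natCast, div_le_one (by exact_mod_cast hq)]
  calc ‖∑ x : ZMod q, χ x‖ ≤ ∑ x : ZMod q, ‖χ x‖ := norm_sum_le _ _
    _ ≤ ∑ x : ZMod q, (1 : ℝ) := Finset.sum_le_sum fun x _ => DirichletCharacter.norm_le_one χ x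
    _ = q := by simp [ZMod.card]

theorem kap_eq_zero (χ : DirichletCharacter ℂ q) (h : χ ≠ 1) : kap χ = 0 := by
  unfold kap
  rw [MulChar.sum_eq_zero_of_ne_one h, zero_div]

lemma form1_S_mul (χ : DirichletCharacter ℂ q) (X : ℕ) :
    ∑ k ∈ Icc 1 (q * X), χ (k : ZMod q) = kap χ * ((q * X : ℕ) : ℂ) := by
  have hq : 0 < q := Nat.pos_of_ne_zero (NeZero.ne q)
  have hq' : (q : ℂ) ≠ 0 := by exact_mod_cast hq.ne'
  have h1 : ∑ k ∈ range (q * X + 1), χ (k : ZMod q) =
      χ 0 + ∑ k ∈ Icc 1 (q * X), χ (k : ZMod q) := by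
    rw [Finset.range_eq_Ico, Finset.sum_eq_sum_Ico_succ_bot (by omega)]
    simp only [Nat.cast_zero, zero_add]
    congr 1
  have h2 : ∑ k ∈ range (q * X + 1), χ (k : ZMod q) =
      ∑ k ∈ range (q * X), χ (k : ZMod q) + χ 0 := by
    rw [Finset.sum_range_succ]
    congr 2
    push_cast
    simp
  have h3 := Pool.Agent.H90.sum_range_periodic q (fun x => χ x) (q * X)
  rw [Nat.mul_mod_right, Finset.range_zero, Finset.sum_empty, add_zero,
    Nat.mul_div_cancel_left X hq] at h3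
  have h4 : ∑ k ∈ Icc 1 (q * X), χ (k : ZMod q) = ∑ k ∈ range (q * X), χ (k : ZMod q) := by
    rw [h2] at h1
    linear_combination -h1
  rw [h4]
  refine h3.trans ?_
  unfold kap
  push_cast
  field_simp

/-- `Ech` on `t > N`, zero elsewhere -/
private noncomputable def form1_B (χ : DirichletCharacter ℂ q) (N : ℕ) (t : ℝ) : ℂ :=
  if (N : ℝ) < t then Ech χ t else 0

private lemma form1_B_measurable (χ : DirichletCharacter ℂ q) (N : ℕ) :
    Measurable (form1_B χ N) := by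
  unfold form1_B Ech
  apply Measurable.ite measurableSet_Ioi _ measurable_const
  apply Measurable.sub
  · exact (measurable_from_nat (f := fun n => ∑ k ∈ Icc 1 n, χ (k : ZMod q))).comp
      Nat.measurable_floor
  · exact Complex.measurable_ofReal.const_mul _

lemma form1_Ech_bound (χ : DirichletCharacter ℂ q) (t : ℝ) (ht : 0 ≤ t) :
    ‖Ech χ t‖ ≤ 2 * q + 3 := by
  have h0 : Ech χ t = (∑ k ∈ Icc 1 ⌊t⌋₊, χ (k : ZMod q) - (∑ x : ZMod q, χ x) / q * (⌊t⌋₊ : ℕ)) -
      kap χ * ((t - ⌊t⌋₊ : ℝ) : ℂ) := by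
    unfold Ech kap
    push_cast
    ring
  have h1 := Pool.Agent.H90.norm_sum_Icc_periodic q (fun x => χ x)
    (fun x => DirichletCharacter.norm_le_one χ x) ⌊t⌋₊
  have h2 : |t - ⌊t⌋₊| ≤ 1 := by
    rw [abs_le]
    have h2 := Nat.floor_le ht
    have h3 := Nat.lt_floor_add_one t
    constructor <;> linarith
  have h3 : ‖kap χ * ((t - ⌊t⌋₊ : ℝ) : ℂ)‖ ≤ 1 * 1 := by
    rw [norm_mul, Complex.norm_real, Real.norm_eq_abs]
    exact mul_le_mul (norm_kap_le χ) h2 (abs_nonneg _) zero_le_one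
  rw [h0]
  refine (norm_sub_le _ _).trans ?_
  linarith

private lemma form1_B_bound (χ : DirichletCharacter ℂ q) (N : ℕ) (t : ℝ) :
    ‖form1_B χ N t‖ ≤ 2 * q + 3 := by
  unfold form1_B
  split_ifs with h
  · exact form1_Ech_bound χ t ((Nat.cast_nonneg N).trans h.le)
  · rw [norm_zero]
    positivity

private lemma form1_JJ (χ : DirichletCharacter ℂ q) (N : ℕ) (hN : 1 ≤ N) (s : ℂ) :
    Pool.Agent.H90.JJ (form1_B χ N) s =
      ∫ t in Set.Ioi (N : ℝ), Ech χ t * (t : ℂ) ^ (-(s + 1)) := by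
  have hN1 : (1 : ℝ) ≤ N := by exact_mod_cast hN
  unfold Pool.Agent.H90.JJ
  rw [setIntegral_eq_of_subset_of_forall_sdiff_eq_zero measurableSet_Ioi
    (Set.Ioi_subset_Ioi hN1)]
  · apply setIntegral_congr_fun measurableSet_Ioi
    intro t ht
    have ht' : (N : ℝ) < t := ht
    simp only [form1_B, if_pos ht']
  · intro t ht
    have ht' : ¬ (N : ℝ) < t := ht.2
    simp only [form1_B, if_neg ht', zero_mul]

private lemma form1_tail (χ : DirichletCharacter ℂ q) (X : ℕ) (hX : 1 ≤ X) (s : ℂ)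
    (hs : 1 < s.re) :
    LSeries (Pool.Agent.H90.tailCoeff χ (q * X)) s =
      s * (∫ t in Set.Ioi ((q * X : ℕ) : ℝ), Ech χ t * (t : ℂ) ^ (-(s + 1))) +
        kap χ * ((q * X : ℕ) : ℂ) ^ (1 - s) / (s - 1) := by
  have hq : 0 < q := Nat.pos_of_ne_zero (NeZero.ne q)
  obtain ⟨N, hNdef⟩ : ∃ N, N = q * X := ⟨_, rfl⟩
  have hN : 1 ≤ N := by
    rw [hNdef]
    exact Nat.mul_pos hq hX
  have hN1 : (1 : ℝ) ≤ N := by exact_mod_cast hN
  have hN0 : (0 : ℝ) < N := by linarith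
  have hNc : (N : ℂ) ≠ 0 := by exact_mod_cast (by omega : N ≠ 0)
  have hSN : ∑ k ∈ Icc 1 N, χ (k : ZMod q) = kap χ * (N : ℂ) := by
    rw [hNdef]
    exact form1_S_mul χ X
  rw [← hNdef]
  have hs0 : s ≠ 0 := by
    rintro rfl
    norm_num at hs
  have hs1 : s - 1 ≠ 0 := by
    intro h
    have : s.re = 1 := by rw [sub_eq_zero.mp h]; simp
    linarith
  have hsum : LSeriesSummable (Pool.Agent.H90.tailCoeff χ N) s := by
    apply LSeriesSummable_of_bounded_of_one_lt_re (m := 1) _ hs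
    intro n _
    unfold Pool.Agent.H90.tailCoeff
    split_ifs
    · exact DirichletCharacter.norm_le_one χ _
    · simp
  have hO : (fun n ↦ ∑ k ∈ Icc 1 n, Pool.Agent.H90.tailCoeff χ N k) =O[Filter.atTop]
      fun n : ℕ ↦ (n : ℝ) ^ (1 : ℝ) := by
    apply Asymptotics.IsBigO.of_bound 1
    filter_upwards [Filter.eventually_ge_atTop 1] with n _
    rw [Real.rpow_one, Real.norm_eq_abs, abs_of_nonneg (Nat.cast_nonneg n), one_mul]
    calc ‖∑ k ∈ Icc 1 n, Pool.Agent.H90.tailCoeff χ N k‖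
        ≤ ∑ k ∈ Icc 1 n, ‖Pool.Agent.H90.tailCoeff χ N k‖ := norm_sum_le _ _
      _ ≤ ∑ k ∈ Icc 1 n, (1 : ℝ) := by
          refine Finset.sum_le_sum fun k _ => ?_
          unfold Pool.Agent.H90.tailCoeff
          split_ifs
          · exact DirichletCharacter.norm_le_one χ _
          · simp
      _ = n := by simp
  rw [LSeries_eq_mul_integral _ zero_le_one hs hsum hO]
  rw [setIntegral_eq_of_subset_of_forall_sdiff_eq_zero measurableSet_Ioi
    (Set.Ioi_subset_Ioi hN1)]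
  swap
  · intro t ht
    have ht1 : ¬ (N : ℝ) < t := ht.2
    have ht0 : (1 : ℝ) < t := ht.1
    have h2 : ⌊t⌋₊ ≤ N := Nat.floor_le_of_le (not_lt.1 ht1)
    rw [Pool.Agent.H90.sum_tailCoeff, min_eq_left h2, sub_self, zero_mul]
  have hint1 : IntegrableOn (fun t : ℝ => Ech χ t * (t : ℂ) ^ (-(s + 1))) (Set.Ioi (N : ℝ)) := by
    have h1 := (Pool.Agent.H90.JJ_integrable _ (form1_B_measurable χ N) (2 * q + 3)
      (form1_B_bound χ N) s (by linarith)).mono_set (Set.Ioi_subset_Ioi hN1)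
    refine h1.congr_fun (fun t ht => ?_) measurableSet_Ioi
    have ht' : (N : ℝ) < t := ht
    simp only [form1_B, if_pos ht']
  have hint2 : IntegrableOn (fun t : ℝ => kap χ * (t : ℂ) ^ (-s)) (Set.Ioi (N : ℝ)) :=
    (integrableOn_Ioi_cpow_of_lt (by simpa using hs) hN0).const_mul _
  have hint3 : IntegrableOn (fun t : ℝ => kap χ * N * (t : ℂ) ^ (-(s + 1)))
      (Set.Ioi (N : ℝ)) :=
    (integrableOn_Ioi_cpow_of_lt (by simp; linarith) hN0).const_mul _
  have hv2 : ∫ t in Set.Ioi (N : ℝ), kap χ * (t : ℂ) ^ (-s) =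
      kap χ * ((N : ℂ) ^ (1 - s) / (s - 1)) := by
    rw [integral_const_mul, integral_Ioi_cpow_of_lt (by simpa using hs) hN0]
    have h1 : (-s + 1) = 1 - s := by ring
    rw [h1, Complex.ofReal_natCast]
    have h2 : (1 - s) = -(s - 1) := by ring
    congr 1
    rw [neg_div, ← div_neg]
    congr 1
    ring
  have hv3 : ∫ t in Set.Ioi (N : ℝ), kap χ * N * (t : ℂ) ^ (-(s + 1)) =
      kap χ * ((N : ℂ) ^ (1 - s) / s) := by
    rw [integral_const_mul, integral_Ioi_cpow_of_lt (by simp; linarith) hN0]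
    have h1 : (-(s + 1) + 1) = -s := by ring
    rw [h1, Complex.ofReal_natCast, neg_div_neg_eq]
    have h2 : (N : ℂ) ^ (1 - s) = N * (N : ℂ) ^ (-s) := by
      rw [sub_eq_add_neg, Complex.cpow_add _ _ hNc, Complex.cpow_one]
    rw [h2]
    ring
  have hmain : ∫ t in Set.Ioi (N : ℝ), (∑ k ∈ Icc 1 ⌊t⌋₊, Pool.Agent.H90.tailCoeff χ N k) *
      (t : ℂ) ^ (-(s + 1)) =
      (∫ t in Set.Ioi (N : ℝ), Ech χ t * (t : ℂ) ^ (-(s + 1))) +
        kap χ * ((N : ℂ) ^ (1 - s) / (s - 1)) - kap χ * ((N : ℂ) ^ (1 - s) / s) := by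
    have hint12 : IntegrableOn (fun t : ℝ => Ech χ t * (t : ℂ) ^ (-(s + 1)) +
        kap χ * (t : ℂ) ^ (-s)) (Set.Ioi (N : ℝ)) := hint1.add hint2
    rw [← hv2, ← hv3, ← integral_add hint1 hint2, ← integral_sub hint12 hint3]
    apply setIntegral_congr_fun measurableSet_Ioi
    intro t ht
    have ht1 : (N : ℝ) < t := ht
    have ht0 : (t : ℂ) ≠ 0 := by
      exact_mod_cast (by linarith : t ≠ 0)
    have h2 : N ≤ ⌊t⌋₊ := Nat.le_floor ht1.le
    have h3 : (t : ℂ) ^ (-s) = t * (t : ℂ) ^ (-(s + 1)) := by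
      have : -s = 1 + -(s + 1) := by ring
      rw [this, Complex.cpow_add _ _ ht0, Complex.cpow_one]
    simp only []
    rw [Pool.Agent.H90.sum_tailCoeff, min_eq_right h2, hSN, h3]
    unfold Ech
    ring
  rw [hmain]
  field_simp
  ring

private lemma form1_re (χ : DirichletCharacter ℂ q) (X : ℕ) (hX : 1 ≤ X) (s : ℂ)
    (hs : 1 < s.re) :
    χ.LFunction s = ∑ n ∈ Icc 1 (q * X), χ (n : ZMod q) * (n : ℂ) ^ (-s) +
      kap χ * ((q * X : ℕ) : ℂ) ^ (1 - s) / (s - 1) +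
      s * ∫ t in Set.Ioi ((q * X : ℕ) : ℝ), Ech χ t * (t : ℂ) ^ (-(s + 1)) := by
  obtain ⟨N, hNdef⟩ : ∃ N, N = q * X := ⟨_, rfl⟩
  have htail := form1_tail χ X hX s hs
  rw [← hNdef] at htail ⊢
  set a₁ : ℕ → ℂ := fun n => if n ≤ N then χ (n : ZMod q) else 0 with ha₁
  have ha1s : LSeriesSummable a₁ s := by
    apply LSeriesSummable_of_bounded_of_one_lt_re (m := 1) _ hs
    intro n _
    simp only [ha₁]
    split_ifs
    · exact DirichletCharacter.norm_le_one χ _
    · simp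
  have ha2s : LSeriesSummable (Pool.Agent.H90.tailCoeff χ N) s := by
    apply LSeriesSummable_of_bounded_of_one_lt_re (m := 1) _ hs
    intro n _
    unfold Pool.Agent.H90.tailCoeff
    split_ifs
    · exact DirichletCharacter.norm_le_one χ _
    · simp
  have h1 : LSeries (fun n => χ (n : ZMod q)) s =
      LSeries a₁ s + LSeries (Pool.Agent.H90.tailCoeff χ N) s := by
    rw [← LSeries_add ha1s ha2s]
    congr 1
    funext n
    simp only [ha₁, Pool.Agent.H90.tailCoeff, Pi.add_apply]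
    by_cases h : n ≤ N
    · rw [if_pos h, if_neg (by omega), add_zero]
    · rw [if_neg h, if_pos (by omega), zero_add]
  have h2 : LSeries a₁ s = ∑ n ∈ Finset.Icc 1 N, χ n * (n : ℂ) ^ (-s) := by
    unfold LSeries
    rw [tsum_eq_sum (s := Finset.Icc 1 N)]
    · apply Finset.sum_congr rfl
      intro n hn
      rw [Finset.mem_Icc] at hn
      rw [LSeries.term_of_ne_zero (by omega)]
      simp only [ha₁]
      rw [if_pos hn.2, Complex.cpow_neg, div_eq_mul_inv]
    · intro n hn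
      rw [Finset.mem_Icc, not_and_or] at hn
      rcases Nat.eq_zero_or_pos n with h0 | h0
      · subst h0; simp
      · rw [LSeries.term_of_ne_zero (by omega)]
        simp only [ha₁]
        rw [if_neg (by omega), zero_div]
  rw [DirichletCharacter.LFunction_eq_LSeries χ hs, h1, h2, htail]
  ring

theorem LFunction_trunc (χ : DirichletCharacter ℂ q) (X : ℕ) (hX : 1 ≤ X) (s : ℂ)
    (hs : 0 < s.re) (hs1 : s ≠ 1) :
    χ.LFunction s = ∑ n ∈ Icc 1 (q * X), χ (n : ZMod q) * (n : ℂ) ^ (-s) +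
      kap χ * ((q * X : ℕ) : ℂ) ^ (1 - s) / (s - 1) +
      s * ∫ t in Set.Ioi ((q * X : ℕ) : ℝ), Ech χ t * (t : ℂ) ^ (-(s + 1)) := by
  have hq : 0 < q := Nat.pos_of_ne_zero (NeZero.ne q)
  have hN : 1 ≤ q * X := Nat.mul_pos hq hX
  have hNc : ((q * X : ℕ) : ℂ) ≠ 0 := by exact_mod_cast (by omega : q * X ≠ 0)
  -- an entire function which is `(s - 1) L(s)` away from `1`
  obtain ⟨F, hFd, hF⟩ : ∃ F : ℂ → ℂ, DifferentiableOn ℂ F Pool.Agent.H90.RHP ∧
      ∀ s : ℂ, s ≠ 1 → F s = (s - 1) * χ.LFunction s := by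
    by_cases hχ : χ = 1
    · subst hχ
      refine ⟨DirichletCharacter.LFunctionTrivChar₁ q,
        (DirichletCharacter.differentiable_LFunctionTrivChar₁ q).differentiableOn,
        fun s hs => ?_⟩
      unfold DirichletCharacter.LFunctionTrivChar₁
      rw [Function.update_of_ne hs]
    · refine ⟨fun s => (s - 1) * χ.LFunction s, ?_, fun s _ => rfl⟩
      exact ((differentiable_id.sub_const 1).mul
        (DirichletCharacter.differentiable_LFunction hχ)).differentiableOn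
  have hm := form1_B_measurable χ (q * X)
  have hB := form1_B_bound χ (q * X)
  have key := Pool.Agent.H90.eqOn_RHP F
    (fun s => (s - 1) * ∑ n ∈ Icc 1 (q * X), χ (n : ZMod q) * (n : ℂ) ^ (-s) +
      kap χ * ((q * X : ℕ) : ℂ) ^ (1 - s) +
      (s - 1) * (s * Pool.Agent.H90.JJ (form1_B χ (q * X)) s)) hFd ?_ ?_ hs
  · have h1 := hF s hs1
    have hs1' : s - 1 ≠ 0 := sub_ne_zero.mpr hs1
    rw [← form1_JJ χ (q * X) hN s]
    simp only at key
    rw [h1] at key
    apply mul_left_cancel₀ hs1'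
    rw [key]
    field_simp
  · intro s hs
    apply DifferentiableAt.differentiableWithinAt
    apply DifferentiableAt.add
    · apply DifferentiableAt.add
      · apply DifferentiableAt.mul
        · exact differentiableAt_id.sub_const 1
        · apply DifferentiableAt.fun_sum
          intro n hn
          have hn0 : (n : ℂ) ≠ 0 := by
            have := (Finset.mem_Icc.mp hn).1
            exact_mod_cast (by omega : n ≠ 0)
          apply DifferentiableAt.const_mul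
          exact (differentiableAt_id.neg).const_cpow (Or.inl hn0)
      · apply DifferentiableAt.const_mul
        exact (differentiableAt_id.const_sub 1).const_cpow (Or.inl hNc)
    · apply DifferentiableAt.mul
      · exact differentiableAt_id.sub_const 1
      · exact differentiableAt_id.mul (Pool.Agent.H90.JJ_differentiableAt _ hm _ hB s hs)
  · intro s hs
    have hs1 : s ≠ 1 := by
      rintro rfl
      simp at hs
    have hs1' : s - 1 ≠ 0 := sub_ne_zero.mpr hs1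
    rw [hF s hs1, form1_re χ X hX s hs, form1_JJ χ (q * X) hN s]
    field_simp

end Pool.Agent.H74.PZ
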