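import Pool.Agent.H74.PZ.Er
import Pool.Agent.H74.PZ.Tail

/-!
# The formula on the critical line in the variable `y = log t`

`LFunction_half`: `LFunction_trunc` at `s = 1/2 + i τ`; `n^{-s} = ee τ (log n)/√n` (`cpow_eq_ee`),
`N^{1-s} = N · N^{-s} = √N ee τ (log N)`, `s - 1 = -1/2 + i τ`; substitution `t = e^y`:
`∫_{t > N} Ech t · t^{-(s+1)} dt = ∫_{y > log N} Ech (e^y) e^{-s y} dy`
(`integral_image_eq_integral_abs_deriv_smul` for `exp` on `Ioi (log N)`, image `Ioi N`), and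
`e^{-sy} = e^{-y/2} ee τ y`; finally exchange the finite sum over `r` with the integral (integrable by
`tail_integrable`, `er` measurable, `er_abs_le` for `u = e^y`).
-/

namespace Pool.Agent.H74.PZ

open Finset MeasureTheory

variable {q : ℕ} [NeZero q]

lemma form2_image (N : ℝ) (hN : 0 < N) : Real.exp '' Set.Ioi (Real.log N) = Set.Ioi N := by
  ext t
  simp only [Set.mem_image, Set.mem_Ioi]
  constructor
  · rintro ⟨y, hy, rfl⟩
    have := Real.exp_lt_exp.2 hy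
    rwa [Real.exp_log hN] at this
  · intro ht
    exact ⟨Real.log t, Real.log_lt_log hN ht, Real.exp_log (hN.trans ht)⟩

lemma form2_cpow (y : ℝ) (τ : ℝ) :
    ((Real.exp y : ℝ) : ℂ) * ((Real.exp y : ℝ) : ℂ) ^ (-((1 / 2 + (τ : ℂ) * Complex.I) + 1)) =
      ((Real.exp (-y / 2) : ℝ) : ℂ) * ee τ y := by
  have h0 : ((Real.exp y : ℝ) : ℂ) ≠ 0 := by exact_mod_cast (Real.exp_pos y).ne'
  rw [Complex.cpow_def_of_ne_zero h0, ← Complex.ofReal_log (Real.exp_pos y).le, Real.log_exp,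
    Complex.ofReal_exp, Complex.ofReal_exp, ee, ← Complex.exp_add, ← Complex.exp_add]
  congr 1
  push_cast
  ring

lemma form2_int (χ : DirichletCharacter ℂ q) (N : ℝ) (hN : 0 < N) (τ : ℝ) :
    ∫ t in Set.Ioi N, Ech χ t * (t : ℂ) ^ (-((1 / 2 + (τ : ℂ) * Complex.I) + 1)) =
      ∑ r : ZMod q, χ r * ∫ y in Set.Ioi (Real.log N),
          ((er q r (Real.exp y) * Real.exp (-y / 2) : ℝ) : ℂ) * ee τ y := by
  have h1 := integral_image_eq_integral_abs_deriv_smul (s := Set.Ioi (Real.log N))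
    measurableSet_Ioi (f := Real.exp) (f' := Real.exp)
    (fun x _ => (Real.hasDerivAt_exp x).hasDerivWithinAt) Real.exp_injective.injOn
    (fun t : ℝ => Ech χ t * (t : ℂ) ^ (-((1 / 2 + (τ : ℂ) * Complex.I) + 1)))
  rw [form2_image N hN] at h1
  rw [h1]
  have h2 : ∀ y : ℝ, |Real.exp y| • (Ech χ (Real.exp y) *
      ((Real.exp y : ℝ) : ℂ) ^ (-((1 / 2 + (τ : ℂ) * Complex.I) + 1))) =
      ∑ r : ZMod q, χ r * (((er q r (Real.exp y) * Real.exp (-y / 2) : ℝ) : ℂ) * ee τ y) := by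
    intro y
    rw [abs_of_pos (Real.exp_pos y), Complex.real_smul, mul_left_comm, form2_cpow, Ech_eq_sum,
      Finset.sum_mul]
    refine Finset.sum_congr rfl fun r _ => ?_
    push_cast
    ring
  simp only [h2]
  rw [integral_finsetSum]
  · refine Finset.sum_congr rfl fun r _ => ?_
    rw [integral_const_mul]
  · intro r _
    exact (tail_integrable (fun y => er q r (Real.exp y)) (er_measurable r)
      (fun y => er_abs_le r _ (Real.exp_pos y).le) (ee τ) (continuous_ee τ) 1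
      (fun y => (norm_ee τ y).le) (Real.log N)).const_mul _

theorem LFunction_half (χ : DirichletCharacter ℂ q) (X : ℕ) (hX : 1 ≤ X) (τ : ℝ) :
    χ.LFunction (1 / 2 + (τ : ℂ) * Complex.I) =
      ∑ n ∈ Icc 1 (q * X), hh (χ, τ) n / (Real.sqrt n : ℂ) +
      kap χ * ((Real.sqrt (q * X : ℕ) : ℂ) * ee τ (Real.log (q * X : ℕ))) /
        (-(1 / 2) + (τ : ℂ) * Complex.I) +
      (1 / 2 + (τ : ℂ) * Complex.I) * ∑ r : ZMod q, χ r *
        ∫ y in Set.Ioi (Real.log (q * X : ℕ)),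
          ((er q r (Real.exp y) * Real.exp (-y / 2) : ℝ) : ℂ) * ee τ y := by
  have hq : 0 < q := Nat.pos_of_ne_zero (NeZero.ne q)
  have hN : 0 < q * X := Nat.mul_pos hq hX
  have hNR : (0 : ℝ) < ((q * X : ℕ) : ℝ) := by exact_mod_cast hN
  have hNc : ((q * X : ℕ) : ℂ) ≠ 0 := by exact_mod_cast hN.ne'
  have hre : (1 / 2 + (τ : ℂ) * Complex.I).re = 1 / 2 := by simp
  rw [LFunction_trunc χ X hX (1 / 2 + (τ : ℂ) * Complex.I) (by rw [hre]; norm_num) (by
    intro h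
    rw [h] at hre
    norm_num at hre), form2_int χ _ hNR τ]
  congr 1
  congr 1
  · refine Finset.sum_congr rfl fun n hn => ?_
    rw [Finset.mem_Icc] at hn
    rw [cpow_eq_ee n (by omega) τ, hh, mul_div_assoc]
  · have h1 : ((q * X : ℕ) : ℂ) ^ (1 - (1 / 2 + (τ : ℂ) * Complex.I)) =
        (Real.sqrt (q * X : ℕ) : ℂ) * ee τ (Real.log (q * X : ℕ)) := by
      rw [sub_eq_add_neg, Complex.cpow_add _ _ hNc, Complex.cpow_one, cpow_eq_ee _ hN.ne' τ]
      have h2 : ((q * X : ℕ) : ℂ) = (Real.sqrt (q * X : ℕ) : ℂ) * (Real.sqrt (q * X : ℕ) : ℂ) := by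
        rw [← Complex.ofReal_mul, Real.mul_self_sqrt hNR.le, Complex.ofReal_natCast]
      have h3 : (Real.sqrt (q * X : ℕ) : ℂ) ≠ 0 := by
        exact_mod_cast (Real.sqrt_pos.2 hNR).ne'
      rw [mul_div_assoc', div_eq_iff h3]
      rw [show ((q * X : ℕ) : ℂ) * ee τ (Real.log (q * X : ℕ)) =
        ((Real.sqrt (q * X : ℕ) : ℂ) * (Real.sqrt (q * X : ℕ) : ℂ)) *
          ee τ (Real.log (q * X : ℕ)) by rw [← h2]]
      ring
    rw [h1]
    congr 1
    ring

end Pool.Agent.H74.PZ
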