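import Pool.Agent.H74.PZ.Primal

/-!
# The main sum on average over `B`

`N = q ⌈T⌉₊`, `D = LS q N`, `K = |A|`, `F(m) = ∑_{p ∈ A} hh p m`.  For `p' ∈ B` sum `zero_identity` (for the points
`pm p p'`, `X = ⌈T⌉₊`) over `p ∈ A`:
`K = - G₁(p') - G₂(p')`, `G₁(p') = ∑_{m ∈ Ioc Y N} (cc Y m/√m) F(m) hh p' m`,
`G₂(p') = ∑_{d ≤ Y} μ(d)/√d · hh p' d · ∑_{p ∈ A} hh p d · RR ⌈T⌉₊ d (pm p p')`.
So `|B| K^2 ≤ 2 ∑_B |G₁|^2 + 2 ∑_B |G₂|^2`.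

`g1_bound`: `primal_ls` for `B` with `a_m = cc Y m/√m · F(m)` on `Ioc Y N`, `q T + m ≤ 3 q T` (`N ≤ 2 q T`), `|cc| ≤ τ`:
`∑_B |G₁|^2 ≤ 3 q T D ∑_{m ∈ Ioc Y N} τ(m)^2/m |F(m)|^2`.
-/

namespace Pool.Agent.H74.PZ

open Finset MeasureTheory

variable {q : ℕ} [NeZero q]

private lemma abs_cc_le (Y m : ℕ) : |((cc Y m : ℤ) : ℝ)| ≤ (m.divisors.card : ℝ) := by
  unfold cc
  push_cast
  refine (Finset.abs_sum_le_sum_abs _ _).trans ?_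
  calc ∑ d ∈ m.divisors.filter (fun d => d ≤ Y), |((ArithmeticFunction.moebius d : ℤ) : ℝ)|
      ≤ ∑ d ∈ m.divisors.filter (fun d => d ≤ Y), (1 : ℝ) := by
        refine Finset.sum_le_sum fun d _ => ?_
        have h := ArithmeticFunction.abs_moebius_le_one (n := d)
        exact_mod_cast h
    _ = ((m.divisors.filter (fun d => d ≤ Y)).card : ℝ) := by simp
    _ ≤ (m.divisors.card : ℝ) := by
        exact_mod_cast Finset.card_filter_le _ _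

private lemma sum_Ioc_eq_Icc_ite {M : Type*} [AddCommMonoid M] (Y N : ℕ) (f : ℕ → M) :
    ∑ m ∈ Ioc Y N, f m = ∑ m ∈ Icc 1 N, if Y < m then f m else 0 := by
  rw [← Finset.sum_filter]
  refine Finset.sum_congr ?_ fun _ _ => rfl
  ext m
  simp only [Finset.mem_Ioc, Finset.mem_filter, Finset.mem_Icc]
  constructor
  · rintro ⟨h1, h2⟩
    exact ⟨⟨by omega, h2⟩, h1⟩
  · rintro ⟨⟨_, h2⟩, h1⟩
    exact ⟨h1, h2⟩

omit [NeZero q] in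
/-- `N = q ⌈T⌉₊ ≤ 2 q T` -/
private lemma ceil_le_two (T : ℝ) (hT : 1 ≤ T) (m : ℕ) (hm : m ≤ q * ⌈T⌉₊) :
    (m : ℝ) ≤ 2 * (q * T) := by
  have h1 : (⌈T⌉₊ : ℝ) < T + 1 := Nat.ceil_lt_add_one (by linarith)
  have h2 : (m : ℝ) ≤ (q : ℝ) * (⌈T⌉₊ : ℝ) := by exact_mod_cast hm
  have h3 : (0 : ℝ) ≤ q := Nat.cast_nonneg q
  nlinarith

theorem g1_bound (A B : Finset (DirichletCharacter ℂ q × ℝ)) (hB : Sep B) (T : ℝ)
    (hT : 1 ≤ T) (hBT : ∀ p ∈ B, |p.2| ≤ T) (Y : ℕ) :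
    ∑ p' ∈ B, ‖∑ m ∈ Ioc Y (q * ⌈T⌉₊), ((cc Y m : ℤ) : ℂ) / (Real.sqrt m : ℂ) *
        (∑ p ∈ A, hh p m) * hh p' m‖ ^ 2 ≤
      3 * (q * T) * LS q (q * ⌈T⌉₊) *
        ∑ m ∈ Ioc Y (q * ⌈T⌉₊), (m.divisors.card : ℝ) ^ 2 / m * ‖∑ p ∈ A, hh p m‖ ^ 2 := by
  set N := q * ⌈T⌉₊ with hN
  set a : ℕ → ℂ := fun m => if Y < m then ((cc Y m : ℤ) : ℂ) / (Real.sqrt m : ℂ) *
        (∑ p ∈ A, hh p m) else 0 with ha
  have h1 : ∀ p' : DirichletCharacter ℂ q × ℝ,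
      ∑ m ∈ Ioc Y N, ((cc Y m : ℤ) : ℂ) / (Real.sqrt m : ℂ) *
        (∑ p ∈ A, hh p m) * hh p' m = ∑ m ∈ Icc 1 N, a m * hh p' m := by
    intro p'
    rw [sum_Ioc_eq_Icc_ite]
    refine Finset.sum_congr rfl fun m _ => ?_
    simp only [ha]
    split_ifs
    · rfl
    · simp
  simp only [h1]
  refine (primal_ls B hB T hT hBT N a).trans ?_
  rw [mul_comm (3 * (q * T)) (LS q N), mul_assoc]
  refine mul_le_mul_of_nonneg_left ?_ (LS_pos q N).le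
  rw [sum_Ioc_eq_Icc_ite, Finset.mul_sum]
  refine Finset.sum_le_sum fun m hm => ?_
  obtain ⟨hm1, hm2⟩ := Finset.mem_Icc.mp hm
  have hq0 : (0 : ℝ) ≤ q * T := by
    have : (0 : ℝ) ≤ q := Nat.cast_nonneg q
    positivity
  simp only [ha]
  split_ifs with hYm
  · have hm0 : (0 : ℝ) < m := by exact_mod_cast hm1
    have h2 : (q * T + m : ℝ) ≤ 3 * (q * T) := by
      have := ceil_le_two (q := q) T hT m hm2
      linarith
    have h3 : ‖((cc Y m : ℤ) : ℂ) / (Real.sqrt m : ℂ) * (∑ p ∈ A, hh p m)‖ ^ 2 ≤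
        (m.divisors.card : ℝ) ^ 2 / m * ‖∑ p ∈ A, hh p m‖ ^ 2 := by
      rw [norm_mul, mul_pow, norm_div, div_pow]
      refine mul_le_mul_of_nonneg_right ?_ (by positivity)
      have h4 : ‖(Real.sqrt m : ℂ)‖ ^ 2 = m := by
        rw [Complex.norm_real, Real.norm_eq_abs, sq_abs, Real.sq_sqrt hm0.le]
      rw [h4]
      refine div_le_div_of_nonneg_right ?_ hm0.le
      have h5 : ‖((cc Y m : ℤ) : ℂ)‖ = |((cc Y m : ℤ) : ℝ)| := by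
        rw [Complex.norm_intCast]
      rw [h5]
      exact pow_le_pow_left₀ (abs_nonneg _) (abs_cc_le Y m) 2
    exact mul_le_mul h2 h3 (by positivity) (by positivity)
  · simp

end Pool.Agent.H74.PZ
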