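import Pool.Agent.H74.PZ.Dual

/-!
# The large sieve (primal form), by duality

`primal_ls`: let `S_p = ∑_{n ≤ W} a_n hh p n` and `z_p = conj S_p`.  Then
`Σ := ∑_p ‖S_p‖^2 = ∑_p z_p S_p = ∑_n a_n G_n`, `G_n = ∑_p z_p hh p n`.  With `w_n = q T + n > 0`, for every
`λ > 0`: `|a_n G_n| ≤ (λ w_n |a_n|^2 + |G_n|^2 / (λ w_n)) / 2`.  By `dual_ls`
`∑_n |G_n|^2 / w_n ≤ D Σ`, `D = LS q W > 0`.  So `Σ ≤ (λ/2) ∑ w_n |a_n|^2 + (D/(2λ)) Σ`; take `λ = D`: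
`Σ ≤ D ∑ w_n |a_n|^2`.
-/

namespace Pool.Agent.H74.PZ

open Finset MeasureTheory

variable {q : ℕ} [NeZero q]

theorem primal_ls (s : Finset (DirichletCharacter ℂ q × ℝ)) (hs : Sep s) (T : ℝ) (hT : 1 ≤ T)
    (hsT : ∀ p ∈ s, |p.2| ≤ T) (W : ℕ) (a : ℕ → ℂ) :
    ∑ p ∈ s, ‖∑ n ∈ Icc 1 W, a n * hh p n‖ ^ 2 ≤
      LS q W * ∑ n ∈ Icc 1 W, (q * T + n) * ‖a n‖ ^ 2 := by
  have hq1 : (1 : ℝ) ≤ q := by exact_mod_cast Nat.one_le_iff_ne_zero.2 (NeZero.ne q)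
  have hD : 0 < LS q W := by
    have hL0 : 0 ≤ Real.log (W + q) := by
      apply Real.log_nonneg
      have : (0 : ℝ) ≤ W := Nat.cast_nonneg _
      linarith
    unfold LS
    linarith
  set D := LS q W with hDdef
  set S : DirichletCharacter ℂ q × ℝ → ℂ := fun p => ∑ n ∈ Icc 1 W, a n * hh p n with hS
  set z : DirichletCharacter ℂ q × ℝ → ℂ := fun p => (starRingEnd ℂ) (S p) with hz
  set G : ℕ → ℂ := fun n => ∑ p ∈ s, z p * hh p n with hG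
  have hw : ∀ n ∈ Icc 1 W, (0 : ℝ) < q * T + n := by
    intro n hn
    have h1 : (1 : ℝ) ≤ n := by exact_mod_cast (mem_Icc.1 hn).1
    have h2 : (0 : ℝ) ≤ q * T := by positivity
    linarith
  have h1 : ((∑ p ∈ s, ‖S p‖ ^ 2 : ℝ) : ℂ) = ∑ n ∈ Icc 1 W, a n * G n := by
    have h2 : ∀ p ∈ s, ((‖S p‖ ^ 2 : ℝ) : ℂ) = ∑ n ∈ Icc 1 W, a n * (z p * hh p n) := by
      intro p _
      have h3 : ((‖S p‖ ^ 2 : ℝ) : ℂ) = z p * S p := by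
        rw [hz, mul_comm, Complex.mul_conj, Complex.normSq_eq_norm_sq]
      rw [h3, hS, mul_sum]
      exact sum_congr rfl fun n _ => by ring
    rw [Complex.ofReal_sum, sum_congr rfl h2, sum_comm]
    exact sum_congr rfl fun n _ => by rw [hG, mul_sum]
  have h2 : ∑ p ∈ s, ‖S p‖ ^ 2 ≤ ∑ n ∈ Icc 1 W, ‖a n‖ * ‖G n‖ := by
    have h3 : ‖((∑ p ∈ s, ‖S p‖ ^ 2 : ℝ) : ℂ)‖ ≤ ∑ n ∈ Icc 1 W, ‖a n‖ * ‖G n‖ := by
      rw [h1]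
      refine (norm_sum_le _ _).trans (sum_le_sum fun n _ => ?_)
      rw [norm_mul]
    rw [Complex.norm_real, Real.norm_eq_abs] at h3
    exact (le_abs_self _).trans h3
  have h3 : ∀ n ∈ Icc 1 W, ‖a n‖ * ‖G n‖ ≤
      D / 2 * ((q * T + n) * ‖a n‖ ^ 2) + 1 / (2 * D) * (‖G n‖ ^ 2 / (q * T + n)) := by
    intro n hn
    have hwn := hw n hn
    have h4 : 0 ≤ (D * (q * T + n) * ‖a n‖ - ‖G n‖) ^ 2 / (2 * D * (q * T + n)) := by positivity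
    have h5 : (D * (q * T + n) * ‖a n‖ - ‖G n‖) ^ 2 / (2 * D * (q * T + n)) =
        D / 2 * ((q * T + n) * ‖a n‖ ^ 2) + 1 / (2 * D) * (‖G n‖ ^ 2 / (q * T + n)) -
          ‖a n‖ * ‖G n‖ := by
      field_simp
      ring
    linarith
  have h4 := sum_le_sum h3
  rw [sum_add_distrib, ← mul_sum, ← mul_sum] at h4
  have h5 : ∑ n ∈ Icc 1 W, ‖G n‖ ^ 2 / (q * T + n) ≤ D * ∑ p ∈ s, ‖S p‖ ^ 2 := by
    have h6 := dual_ls s hs T hT hsT z W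
    have h7 : ∑ p ∈ s, ‖z p‖ ^ 2 = ∑ p ∈ s, ‖S p‖ ^ 2 :=
      sum_congr rfl fun p _ => by rw [hz, RCLike.norm_conj]
    rw [h7] at h6
    exact h6
  have h6 : 1 / (2 * D) * ∑ n ∈ Icc 1 W, ‖G n‖ ^ 2 / (q * T + n) ≤
      (∑ p ∈ s, ‖S p‖ ^ 2) / 2 := by
    have h7 : 1 / (2 * D) * (D * ∑ p ∈ s, ‖S p‖ ^ 2) = (∑ p ∈ s, ‖S p‖ ^ 2) / 2 := by
      field_simp
    rw [← h7]
    exact mul_le_mul_of_nonneg_left h5 (by positivity)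
  linarith

end Pool.Agent.H74.PZ
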