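import Pool.Agent.H74.PZ.Pow
import Pool.Agent.H74.PZ.Primal

/-!
# The moment lemma, one point fixed

`K = |A|`, `a n = τ(n)^2/n`, `F(n) = ∑_{p ∈ A} hh p n`, and for `p, p' ∈ A`
`S(p, p') = ∑_{n ∈ Ioc Y N} a n · hh p n · conj (hh p' n) = ∑ a n · hh (pm p (pc p')) n` (`hh_pc`, `hh_pm`).

`mom_fixed`: fix `p' ∈ A`.  The points `pm p (pc p') = (χ_p χ_{p'}⁻¹, t_p - t_{p'})`, `p ∈ A`, are distinct,
form a separated set, and have ordinates `≤ 2 T`.  By `pow_poly` (`ha` from `tau_sq_le`) `S(p, p')^k = ∑_{m ∈ Ioc (Y^k) (N^k)} D m hh m`,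
so `primal_ls` with `2 T`, `W = N^k` and coefficients `D m` for `m > Y^k`, `0` else, gives
`∑_{p ∈ A} |S(p, p')|^{2k} ≤ LS q (N^k) ∑_{Y^k < m ≤ N^k} (2 q T + m) (D m)^2 ≤ 3 LS q (N^k) ∑_{m ≤ N^k} m (D m)^2
≤ 3 LS q (N^k) ∑_{m ≤ N^k} dj (4k) m ^2 / m ≤ 3 LS q (N^k) (1 + log (N^k))^(16 k^2) =: Z`
(`q T ≤ Y^k < m`; `sum_dj_sq` with `j = 4k`, `j*j = 16k^2`).
-/

namespace Pool.Agent.H74.PZ

open Finset MeasureTheory

variable {q : ℕ} [NeZero q]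

theorem mom_fixed (A : Finset (DirichletCharacter ℂ q × ℝ)) (hA : Sep A) (T : ℝ) (hT : 1 ≤ T)
    (hAT : ∀ p ∈ A, |p.2| ≤ T) (Y N k : ℕ) (hk : 1 ≤ k) (hY : 1 ≤ Y) (hYN : Y ≤ N)
    (hQ : q * T ≤ (Y : ℝ) ^ k) (p' : DirichletCharacter ℂ q × ℝ) (hp' : p' ∈ A) :
    ∑ p ∈ A, ‖∑ n ∈ Ioc Y N, (((n.divisors.card : ℝ) ^ 2 / n : ℝ) : ℂ) *
        hh (pm p (pc p')) n‖ ^ (2 * k) ≤
      3 * LS q (N ^ k) * (1 + Real.log ((N : ℝ) ^ k)) ^ (16 * k ^ 2) := by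
  classical
  -- the shifted set
  have hinj : ∀ p₁ p₂ : DirichletCharacter ℂ q × ℝ, pm p₁ (pc p') = pm p₂ (pc p') → p₁ = p₂ := by
    intro p₁ p₂ h
    unfold pm pc at h
    rw [Prod.mk.injEq] at h
    obtain ⟨h1, h2⟩ := h
    refine Prod.ext ?_ ?_
    · exact mul_right_cancel h1
    · exact add_right_cancel h2
  set S : Finset (DirichletCharacter ℂ q × ℝ) := A.image (fun p => pm p (pc p')) with hS
  have hSsep : Sep S := by
    intro u hu v hv huv h1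
    obtain ⟨p₁, hp₁, rfl⟩ := Finset.mem_image.mp hu
    obtain ⟨p₂, hp₂, rfl⟩ := Finset.mem_image.mp hv
    have hne : p₁ ≠ p₂ := fun h => huv (by rw [h])
    have h2 : p₁.1 = p₂.1 := by
      simp only [pm, pc] at h1
      exact mul_right_cancel h1
    have h3 := hA p₁ hp₁ p₂ hp₂ hne h2
    simp only [pm, pc]
    have h4 : p₁.2 + -p'.2 - (p₂.2 + -p'.2) = p₁.2 - p₂.2 := by ring
    rw [h4]
    exact h3
  have hST : ∀ u ∈ S, |u.2| ≤ 2 * T := by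
    intro u hu
    obtain ⟨p₁, hp₁, rfl⟩ := Finset.mem_image.mp hu
    simp only [pm, pc]
    have h1 := abs_le.mp (hAT p₁ hp₁)
    have h2 := abs_le.mp (hAT p' hp')
    rw [abs_le]
    constructor <;> linarith [h1.1, h1.2, h2.1, h2.2]
  -- the power
  obtain ⟨D, hD0, hD1, hD2⟩ := pow_poly (q := q) Y N k hk hY
    (fun n => (n.divisors.card : ℝ) ^ 2 / n) (fun n => by positivity) (by
      intro n hn
      have h : ((n.divisors.card : ℝ)) ^ 2 ≤ (dj 4 n : ℝ) := by exact_mod_cast tau_sq_le n hn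
      exact div_le_div_of_nonneg_right h (Nat.cast_nonneg n))
  have hsum : ∑ p ∈ A, ‖∑ n ∈ Ioc Y N, (((n.divisors.card : ℝ) ^ 2 / n : ℝ) : ℂ) *
        hh (pm p (pc p')) n‖ ^ (2 * k) =
      ∑ u ∈ S, ‖∑ n ∈ Ioc Y N, (((n.divisors.card : ℝ) ^ 2 / n : ℝ) : ℂ) *
        hh u n‖ ^ (2 * k) := by
    rw [hS, Finset.sum_image]
    intro p₁ _ p₂ _ h
    exact hinj p₁ p₂ h
  set a : ℕ → ℂ := fun m => if Y ^ k < m then (D m : ℂ) else 0 with ha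
  have hpow : ∀ u : DirichletCharacter ℂ q × ℝ,
      ‖∑ n ∈ Ioc Y N, (((n.divisors.card : ℝ) ^ 2 / n : ℝ) : ℂ) * hh u n‖ ^ (2 * k) =
      ‖∑ m ∈ Icc 1 (N ^ k), a m * hh u m‖ ^ 2 := by
    intro u
    rw [mul_comm 2 k, pow_mul, ← norm_pow, hD2 u]
    congr 2
    have h1 : Ioc (Y ^ k) (N ^ k) = (Icc 1 (N ^ k)).filter (fun m => Y ^ k < m) := by
      ext m
      simp only [Finset.mem_Ioc, Finset.mem_filter, Finset.mem_Icc]
      constructor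
      · rintro ⟨h1, h2⟩
        exact ⟨⟨by omega, h2⟩, h1⟩
      · rintro ⟨⟨_, h2⟩, h1⟩
        exact ⟨h1, h2⟩
    rw [h1, Finset.sum_filter]
    refine Finset.sum_congr rfl fun m _ => ?_
    simp only [ha]
    split_ifs
    · rfl
    · simp
  rw [hsum]
  simp only [hpow]
  refine (primal_ls S hSsep (2 * T) (by linarith) hST (N ^ k) a).trans ?_
  have hN1 : 1 ≤ N := hY.trans hYN
  have hmain : ∑ m ∈ Icc 1 (N ^ k), (q * (2 * T) + m) * ‖a m‖ ^ 2 ≤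
      3 * ∑ m ∈ Icc 1 (N ^ k), (dj (4 * k) m : ℝ) ^ 2 / m := by
    rw [Finset.mul_sum]
    refine Finset.sum_le_sum fun m hm => ?_
    obtain ⟨hm1, hm2⟩ := Finset.mem_Icc.mp hm
    have hm0 : (0 : ℝ) < m := by exact_mod_cast hm1
    simp only [ha]
    split_ifs with hYm
    · have h1 : (Y : ℝ) ^ k < m := by exact_mod_cast hYm
      have h2 : (q * (2 * T) + m : ℝ) ≤ 3 * m := by linarith
      have h3 : ‖(D m : ℂ)‖ ≤ (dj (4 * k) m : ℝ) / m := by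
        rw [Complex.norm_real, Real.norm_eq_abs, abs_of_nonneg (hD0 m)]
        exact hD1 m hm1
      have h4 : ‖(D m : ℂ)‖ ^ 2 ≤ ((dj (4 * k) m : ℝ) / m) ^ 2 :=
        pow_le_pow_left₀ (norm_nonneg _) h3 2
      calc (q * (2 * T) + m : ℝ) * ‖(D m : ℂ)‖ ^ 2
          ≤ (3 * m) * ((dj (4 * k) m : ℝ) / m) ^ 2 :=
            mul_le_mul h2 h4 (by positivity) (by positivity)
        _ = 3 * ((dj (4 * k) m : ℝ) ^ 2 / m) := by
            field_simp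
    · rw [norm_zero, zero_pow two_ne_zero, mul_zero]
      positivity
  have hdj := sum_dj_sq (4 * k) (N ^ k)
  have hexp : 4 * k * (4 * k) = 16 * k ^ 2 := by ring
  rw [hexp] at hdj
  push_cast at hdj
  calc LS q (N ^ k) * ∑ m ∈ Icc 1 (N ^ k), (q * (2 * T) + m) * ‖a m‖ ^ 2
      ≤ LS q (N ^ k) * (3 * (1 + Real.log ((N : ℝ) ^ k)) ^ (16 * k ^ 2)) := by
        refine mul_le_mul_of_nonneg_left ?_ (LS_pos q _).le
        refine hmain.trans ?_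
        exact mul_le_mul_of_nonneg_left hdj (by norm_num)
    _ = 3 * LS q (N ^ k) * (1 + Real.log ((N : ℝ) ^ k)) ^ (16 * k ^ 2) := by ring

end Pool.Agent.H74.PZ
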