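import Pool.Agent.H74.PZ.Arith

/-!
# Powers of a Dirichlet polynomial

`pow_poly`: induction on `k ≥ 1`.  `k = 1`: `D = a` (on the range).  Step: multiply
`∑_{m ∈ Ioc (Y^k) (N^k)} D m hh p m` by `∑_{n ∈ Ioc Y N} a n hh p n`; by `hh_mul` and
sorting by `l = m n` the product is `∑_{l ∈ Ioc (Y^(k+1)) (N^(k+1))} D' l hh p l` with
`D' l = ∑_{(m, n) : m n = l, m ∈ Ioc (Y^k) (N^k), n ∈ Ioc Y N} D m · a n`
(`Y^k < m ≤ N^k`, `Y < n ≤ N` imply `Y^(k+1) < m n ≤ N^(k+1)`, as `Y ≥ 1`), and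
`D' l ≤ ∑_{m n = l} dj (4k) m · dj 4 n / (m n) = dj (4k + 4) l / l` by `dj_conv`.
-/

namespace Pool.Agent.H74.PZ

open Finset MeasureTheory

variable {q : ℕ} [NeZero q]

theorem pow_poly (Y N k : ℕ) (hk : 1 ≤ k) (hY : 1 ≤ Y) (a : ℕ → ℝ) (ha0 : ∀ n, 0 ≤ a n)
    (ha : ∀ n, 1 ≤ n → a n ≤ (dj 4 n : ℝ) / n) :
    ∃ D : ℕ → ℝ, (∀ m, 0 ≤ D m) ∧ (∀ m, 1 ≤ m → D m ≤ (dj (4 * k) m : ℝ) / m) ∧
      ∀ p : DirichletCharacter ℂ q × ℝ, (∑ n ∈ Ioc Y N, (a n : ℂ) * hh p n) ^ k =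
        ∑ m ∈ Ioc (Y ^ k) (N ^ k), (D m : ℂ) * hh p m := by
  classical
  induction k, hk using Nat.le_induction with
  | base =>
    exact ⟨a, ha0, fun m hm => by simpa using ha m hm, fun p => by simp⟩
  | succ k hk ih =>
    obtain ⟨D, hD0, hD, hDp⟩ := ih
    refine ⟨fun l => ∑ p ∈ l.divisorsAntidiagonal,
      if p.1 ∈ Ioc (Y ^ k) (N ^ k) ∧ p.2 ∈ Ioc Y N then D p.1 * a p.2 else 0, ?_, ?_, ?_⟩
    · intro m
      refine Finset.sum_nonneg fun p _ => ?_
      split_ifs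
      · exact mul_nonneg (hD0 _) (ha0 _)
      · exact le_rfl
    · intro l hl
      have h1 : (dj (4 * (k + 1)) l : ℝ) =
          ∑ p ∈ l.divisorsAntidiagonal, (dj (4 * k) p.1 : ℝ) * dj 4 p.2 := by
        rw [show 4 * (k + 1) = 4 * k + 4 by ring, ← dj_conv (4 * k) 4 l hl]
        push_cast
        rfl
      rw [h1, Finset.sum_div]
      refine Finset.sum_le_sum fun p hp => ?_
      rw [Nat.mem_divisorsAntidiagonal] at hp
      have h5 : p.1 ≠ 0 := by rintro h; rw [h, zero_mul] at hp; omega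
      have h6 : p.2 ≠ 0 := by rintro h; rw [h, mul_zero] at hp; omega
      split_ifs
      · calc D p.1 * a p.2 ≤ ((dj (4 * k) p.1 : ℝ) / p.1) * ((dj 4 p.2 : ℝ) / p.2) :=
              mul_le_mul (hD _ (by omega)) (ha _ (by omega)) (ha0 _) (by positivity)
          _ = _ := by rw [div_mul_div_comm, ← hp.1]; push_cast; rfl
      · positivity
    · intro p
      rw [pow_succ, hDp p, Finset.sum_mul_sum, ← Finset.sum_product']
      have h1 : ∀ l ∈ Ioc (Y ^ (k + 1)) (N ^ (k + 1)),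
          (((∑ p ∈ l.divisorsAntidiagonal, if p.1 ∈ Ioc (Y ^ k) (N ^ k) ∧ p.2 ∈ Ioc Y N then
            D p.1 * a p.2 else 0 : ℝ)) : ℂ) * hh p l =
          ∑ x ∈ (Ioc (Y ^ k) (N ^ k) ×ˢ Ioc Y N).filter (fun x => x.1 * x.2 = l),
            (D x.1 : ℂ) * hh p x.1 * ((a x.2 : ℂ) * hh p x.2) := by
        intro l hl
        rw [← Finset.sum_filter]
        have h2 : l.divisorsAntidiagonal.filter (fun p => p.1 ∈ Ioc (Y ^ k) (N ^ k) ∧
            p.2 ∈ Ioc Y N) =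
            (Ioc (Y ^ k) (N ^ k) ×ˢ Ioc Y N).filter (fun x => x.1 * x.2 = l) := by
          ext x
          simp only [Finset.mem_filter, Nat.mem_divisorsAntidiagonal, Finset.mem_product]
          constructor
          · rintro ⟨⟨h3, _⟩, h4⟩
            exact ⟨h4, h3⟩
          · rintro ⟨h4, h3⟩
            refine ⟨⟨h3, ?_⟩, h4⟩
            rw [Finset.mem_Ioc] at hl
            omega
        rw [h2]
        push_cast
        rw [Finset.sum_mul]
        refine Finset.sum_congr rfl fun x hx => ?_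
        rw [Finset.mem_filter, Finset.mem_product, Finset.mem_Ioc, Finset.mem_Ioc] at hx
        rw [← hx.2, hh_mul p x.1 x.2 (by omega) (by omega)]
        ring
      rw [Finset.sum_congr rfl h1]
      symm
      refine Finset.sum_fiberwise_of_maps_to (fun x hx => ?_) _
      rw [Finset.mem_product, Finset.mem_Ioc, Finset.mem_Ioc] at hx
      rw [Finset.mem_Ioc, pow_succ, pow_succ]
      refine ⟨Nat.mul_lt_mul'' hx.1.1 hx.2.1, Nat.mul_le_mul hx.1.2 hx.2.2⟩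

end Pool.Agent.H74.PZ
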