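import Pool.Agent.H74.PZ.Zw

/-!
# Separated subsets

`exists_sep`.  Let `m = C (2 + log (q (2 T + 2)))`.  Partition `A` into classes by `(p.1, ⌊p.2⌋)`.  In a class the reals
`p.2 + p₀.2` lie in `[t₀, t₀ + 1]`, `t₀ = ⌊p.2⌋ + p₀.2`, `|t₀| ≤ 2 T + 1`, and are ordinates of zeros of `L(s, p.1 p₀.1)`, so the class
has at most `m` elements (`zeros_window`).  Choose one element from each class with even floor, respectively with odd floor;
one of the two sets (call it `A'`) has at least `(number of classes)/2 ≥ |A|/(2m)` elements.  Two different elements of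
`A'` with the same character have floors that differ by at least `2`, so the ordinates differ by at least `1`.

`sep_card`: a separated set with ordinates in `[-T, T]`, `T ≥ 1`, has at most `4 q T` elements: for each of the
`≤ q` characters (`card = φ(q) ≤ q`) the map `⌊p.2⌋` is injective … (values in `[-T-1, T]`, at most `2 T + 2 ≤ 4 T` integers).
-/

namespace Pool.Agent.H74.PZ

open Finset MeasureTheory

/-- the class of a point -/
noncomputable def key {q : ℕ} (p : DirichletCharacter ℂ q × ℝ) : DirichletCharacter ℂ q × ℤ :=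
  (p.1, ⌊p.2⌋)

theorem abs_floor_le (x T : ℝ) (hx : |x| ≤ T) : |((⌊x⌋ : ℤ) : ℝ)| ≤ T + 1 := by
  have h1 := Int.floor_le x
  have h2 := Int.lt_floor_add_one x
  rw [abs_le] at hx ⊢
  constructor
  · linarith [hx.1]
  · linarith [hx.2]

theorem half_sep {q : ℕ} (A : Finset (DirichletCharacter ℂ q × ℝ))
    (E : Finset (DirichletCharacter ℂ q × ℤ)) (hE : ∀ k ∈ E, ∃ p ∈ A, key p = k)
    (hpar : ∀ k ∈ E, ∀ k' ∈ E, k.2 % 2 = k'.2 % 2) :
    ∃ A' ⊆ A, Sep A' ∧ A'.card = E.card := by
  classical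
  choose! rep hrep1 hrep2 using hE
  refine ⟨E.image rep, ?_, ?_, ?_⟩
  · intro p hp
    obtain ⟨k, hk, rfl⟩ := Finset.mem_image.1 hp
    exact hrep1 k hk
  · intro p hp p' hp' hne h1
    obtain ⟨k, hk, rfl⟩ := Finset.mem_image.1 hp
    obtain ⟨k', hk', rfl⟩ := Finset.mem_image.1 hp'
    have e1 := hrep2 k hk
    have e2 := hrep2 k' hk'
    have hkk : k ≠ k' := by
      rintro rfl
      exact hne rfl
    have f1 : (rep k).1 = k.1 := congrArg Prod.fst e1
    have f2 : (rep k').1 = k'.1 := congrArg Prod.fst e2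
    have g1 : ⌊(rep k).2⌋ = k.2 := congrArg Prod.snd e1
    have g2 : ⌊(rep k').2⌋ = k'.2 := congrArg Prod.snd e2
    have h2 : k.2 ≠ k'.2 := by
      intro h
      apply hkk
      exact Prod.ext (by rw [← f1, ← f2, h1]) h
    have hp2 := hpar k hk k' hk'
    have a1 := Int.floor_le (rep k).2
    have a2 := Int.lt_floor_add_one (rep k).2
    have b1 := Int.floor_le (rep k').2
    have b2 := Int.lt_floor_add_one (rep k').2
    rw [g1] at a1 a2
    rw [g2] at b1 b2
    rcases lt_or_gt_of_ne h2 with h3 | h3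
    · have h4 : k.2 + 2 ≤ k'.2 := by omega
      have h5 : (k.2 : ℝ) + 2 ≤ k'.2 := by exact_mod_cast h4
      rw [abs_sub_comm, le_abs]
      left; linarith
    · have h4 : k'.2 + 2 ≤ k.2 := by omega
      have h5 : (k'.2 : ℝ) + 2 ≤ k.2 := by exact_mod_cast h4
      rw [le_abs]
      left; linarith
  · refine Finset.card_image_of_injOn ?_
    intro k hk k' hk' h
    rw [← hrep2 k hk, ← hrep2 k' hk']
    exact congrArg key h

theorem exists_sep : ∃ C : ℝ, 1 ≤ C ∧ ∀ (q : ℕ) [NeZero q] (T : ℝ), 1 ≤ T →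
    ∀ (A : Finset (DirichletCharacter ℂ q × ℝ)) (p₀ : DirichletCharacter ℂ q × ℝ),
    |p₀.2| ≤ T → (∀ p ∈ A, |p.2| ≤ T) →
    (∀ p ∈ A, (p.1 * p₀.1).LFunction (1 / 2 + ((p.2 + p₀.2 : ℝ) : ℂ) * Complex.I) = 0) →
    ∃ A' ⊆ A, Sep A' ∧ (A.card : ℝ) ≤ C * (2 + Real.log (q * T)) * A'.card := by
  classical
  obtain ⟨C, hC1, hC⟩ := zeros_window
  refine ⟨4 * C, by linarith, ?_⟩
  intro q _ T hT A p₀ hp₀ hA hzero
  have hq1 : (1 : ℝ) ≤ q := by exact_mod_cast Nat.one_le_iff_ne_zero.2 (NeZero.ne q)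
  have hqT : 1 ≤ (q : ℝ) * T := by nlinarith
  have hlog : 0 ≤ Real.log (q * T) := Real.log_nonneg hqT
  set M : ℝ := 2 * C * (2 + Real.log (q * T)) with hM
  have hM0 : 0 ≤ M := by positivity
  have hfib : ∀ k ∈ A.image key, (((A.filter fun p => key p = k).card : ℕ) : ℝ) ≤ M := by
    intro k hk
    obtain ⟨p1, hp1, hkey1⟩ := Finset.mem_image.1 hk
    have hk2 : |((k.2 : ℤ) : ℝ)| ≤ T + 1 := by
      have := abs_floor_le p1.2 T (hA p1 hp1)
      have e : ⌊p1.2⌋ = k.2 := congrArg Prod.snd hkey1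
      rwa [e] at this
    set t₀ : ℝ := k.2 + p₀.2 with ht₀
    set Z := (A.filter fun p => key p = k).image fun p => p.2 + p₀.2 with hZ
    have hcard : Z.card = (A.filter fun p => key p = k).card := by
      refine Finset.card_image_of_injOn ?_
      intro x hx y hy hxy
      have hx' := (Finset.mem_filter.1 hx).2
      have hy' := (Finset.mem_filter.1 hy).2
      have e1 : x.1 = y.1 := by
        have h5 : (key x).1 = (key y).1 := by rw [hx', hy']
        exact h5
      have e2 : x.2 = y.2 := by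
        have : x.2 + p₀.2 = y.2 + p₀.2 := hxy
        linarith
      exact Prod.ext e1 e2
    have hwin := hC q (k.1 * p₀.1) t₀ Z (by
      intro t ht
      obtain ⟨p, hp, rfl⟩ := Finset.mem_image.1 ht
      obtain ⟨hpA, hpk⟩ := Finset.mem_filter.1 hp
      have e1 : p.1 = k.1 := congrArg Prod.fst hpk
      have e2 : ⌊p.2⌋ = k.2 := congrArg Prod.snd hpk
      have a1 := Int.floor_le p.2
      have a2 := Int.lt_floor_add_one p.2
      rw [e2] at a1 a2
      refine ⟨by linarith, by linarith, ?_⟩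
      rw [← e1]
      exact hzero p hpA)
    rw [hcard] at hwin
    refine hwin.trans ?_
    have ht : |t₀| ≤ 2 * T + 1 := by
      refine (abs_add_le _ _).trans ?_
      linarith
    have h1 : (q : ℝ) * (|t₀| + 1) ≤ 4 * (q * T) := by
      have : |t₀| + 1 ≤ 4 * T := by linarith
      nlinarith
    have h2 : 0 < (q : ℝ) * (|t₀| + 1) := by positivity
    have h3 : Real.log (q * (|t₀| + 1)) ≤ Real.log 4 + Real.log (q * T) := by
      rw [← Real.log_mul (by norm_num) (by positivity)]
      exact Real.log_le_log h2 h1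
    have h4 : Real.log 4 ≤ 2 := by
      have : (4 : ℝ) = 2 ^ 2 := by norm_num
      rw [this, Real.log_pow]
      have := Real.log_two_lt_d9
      push_cast
      linarith
    have hC0 : 0 ≤ C := by linarith
    rw [hM]
    nlinarith
  have hcardA : (A.card : ℝ) ≤ (A.image key).card * M := by
    rw [Finset.card_eq_sum_card_image key A]
    push_cast
    refine (Finset.sum_le_sum hfib).trans ?_
    rw [Finset.sum_const, nsmul_eq_mul]
  set K := A.image key with hK
  set E := K.filter fun k => k.2 % 2 = 0 with hE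
  set O := K.filter fun k => ¬ k.2 % 2 = 0 with hO
  have hsplit : E.card + O.card = K.card := Finset.card_filter_add_card_filter_not _
  have hKA : ∀ k ∈ K, ∃ p ∈ A, key p = k := fun k hk => Finset.mem_image.1 hk
  have hfin : ∀ A' : Finset (DirichletCharacter ℂ q × ℝ), (K.card : ℝ) ≤ 2 * A'.card →
      (A.card : ℝ) ≤ 4 * C * (2 + Real.log (q * T)) * A'.card := by
    intro A' h
    refine hcardA.trans ((mul_le_mul_of_nonneg_right h hM0).trans (le_of_eq ?_))
    rw [hM]; ring
  rcases le_total O.card E.card with h | h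
  · obtain ⟨A', h1, h2, h3⟩ := half_sep A E
      (fun k hk => hKA k (Finset.mem_filter.1 hk).1) (by
        intro k hk k' hk'
        rw [(Finset.mem_filter.1 hk).2, (Finset.mem_filter.1 hk').2])
    refine ⟨A', h1, h2, hfin A' ?_⟩
    rw [h3]
    have : K.card ≤ 2 * E.card := by omega
    exact_mod_cast this
  · obtain ⟨A', h1, h2, h3⟩ := half_sep A O
      (fun k hk => hKA k (Finset.mem_filter.1 hk).1) (by
        intro k hk k' hk'
        have e1 := (Finset.mem_filter.1 hk).2
        have e2 := (Finset.mem_filter.1 hk').2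
        omega)
    refine ⟨A', h1, h2, hfin A' ?_⟩
    rw [h3]
    have : K.card ≤ 2 * O.card := by omega
    exact_mod_cast this

theorem sep_card {q : ℕ} [NeZero q] (A : Finset (DirichletCharacter ℂ q × ℝ)) (hA : Sep A)
    (T : ℝ) (hT : 1 ≤ T) (hAT : ∀ p ∈ A, |p.2| ≤ T) : (A.card : ℝ) ≤ 4 * (q * T) := by
  classical
  have : Fintype (DirichletCharacter ℂ q) := Fintype.ofFinite _
  have hinj : Set.InjOn key (A : Set (DirichletCharacter ℂ q × ℝ)) := by
    intro x hx y hy hxy
    by_contra hne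
    have e1 : x.1 = y.1 := by
      have h5 : (key x).1 = (key y).1 := by rw [hxy]
      exact h5
    have e2 : ⌊x.2⌋ = ⌊y.2⌋ := by
      have h5 : (key x).2 = (key y).2 := by rw [hxy]
      exact h5
    have h1 := hA x hx y hy hne e1
    have h2 := Int.abs_sub_lt_one_of_floor_eq_floor e2
    linarith
  have hsub : A.image key ⊆ (Finset.univ : Finset (DirichletCharacter ℂ q)) ×ˢ
      Finset.Icc ⌊-T⌋ ⌊T⌋ := by
    intro k hk
    obtain ⟨p, hp, rfl⟩ := Finset.mem_image.1 hk
    have h1 := abs_le.1 (hAT p hp)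
    rw [Finset.mem_product]
    exact ⟨Finset.mem_univ _, Finset.mem_Icc.2 ⟨Int.floor_le_floor h1.1, Int.floor_le_floor h1.2⟩⟩
  have hcard : A.card ≤ Fintype.card (DirichletCharacter ℂ q) * (Finset.Icc ⌊-T⌋ ⌊T⌋).card := by
    rw [← Finset.card_image_of_injOn hinj]
    refine (Finset.card_le_card hsub).trans ?_
    rw [Finset.card_product, Finset.card_univ]
  have hchar : Fintype.card (DirichletCharacter ℂ q) ≤ q := by
    rw [← Nat.card_eq_fintype_card, DirichletCharacter.card_eq_totient_of_hasEnoughRootsOfUnity]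
    exact Nat.totient_le q
  have hint : ((Finset.Icc ⌊-T⌋ ⌊T⌋).card : ℝ) ≤ 4 * T := by
    rw [Int.card_Icc]
    have h1 : ⌊-T⌋ ≤ ⌊T⌋ := Int.floor_le_floor (by linarith)
    have h2 : (((⌊T⌋ + 1 - ⌊-T⌋).toNat : ℕ) : ℝ) = ((⌊T⌋ + 1 - ⌊-T⌋ : ℤ) : ℝ) := by
      have h3 : ((⌊T⌋ + 1 - ⌊-T⌋).toNat : ℤ) = ⌊T⌋ + 1 - ⌊-T⌋ := Int.toNat_of_nonneg (by omega)
      exact_mod_cast h3
    rw [h2]
    push_cast
    have h4 := Int.floor_le T
    have h5 := Int.lt_floor_add_one (-T)
    linarith
  calc (A.card : ℝ) ≤ Fintype.card (DirichletCharacter ℂ q) * ((Finset.Icc ⌊-T⌋ ⌊T⌋).card : ℝ) := by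
        exact_mod_cast hcard
    _ ≤ q * (4 * T) := by
        refine mul_le_mul (by exact_mod_cast hchar) hint (by positivity) (by positivity)
    _ = 4 * (q * T) := by ring

end Pool.Agent.H74.PZ
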