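import Pool.Agent.H74.PZ.Asm
import Pool.Agent.H74.PZ.Zeros

/-!
# Choice of the parameters

`Q = q T ≥ 1`, `ℓ = 2 + log Q ≥ 2`, `C₁ ≥ 1` the constant of `exists_sep`.

`param`: separated sets with zero condition (for `LFunction`), `C₁ ≥ 1`, `K = |A| ≥ Q^α/(C₁ ℓ)`, `K ≥ 1`.  Claim: there is `C₂` depending only on `C₁`
with `|B| ≤ Q^(1 - α²/8) ℓ^(C₂/α)`.

Case `α < 1/ℓ`: trivial bound.  Case `α ≥ 1/ℓ`: `k = ⌈2/α⌉₊ + 1`, `Y = ⌈Q^(1/k)⌉₊` in `sep_bound`.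
-/

namespace Pool.Agent.H74.PZ

open Finset MeasureTheory

lemma prm_small (Q ℓ α C b : ℝ) (hQ : 1 ≤ Q) (hℓ : ℓ = 2 + Real.log Q) (hα : 0 < α) (hα1 : α ≤ 1)
    (hs : α < 1 / ℓ) (hC : 4 ≤ C) (hb : b ≤ 4 * Q) :
    b ≤ Q ^ (1 - α ^ 2 / 8) * ℓ ^ (C / α) := by
  have hlog : 0 ≤ Real.log Q := Real.log_nonneg hQ
  have hℓ2 : 2 ≤ ℓ := by rw [hℓ]; linarith
  have hQ0 : 0 < Q := by linarith
  have h1 : Q ^ (1 - α ^ 2 / 8) = Q * Q ^ (-(α ^ 2 / 8)) := by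
    rw [sub_eq_add_neg, Real.rpow_add hQ0, Real.rpow_one]
  have h2 : α * ℓ < 1 := by
    rw [lt_div_iff₀ (by linarith)] at hs
    exact hs
  have h3 : Real.exp (-1) ≤ Q ^ (-(α ^ 2 / 8)) := by
    rw [Real.rpow_def_of_pos hQ0]
    apply Real.exp_le_exp.mpr
    have h4 : Real.log Q * (α ^ 2 / 8) ≤ 1 := by
      have h5 : Real.log Q ≤ ℓ := by rw [hℓ]; linarith
      have h6 : α ^ 2 ≤ α := by nlinarith
      calc Real.log Q * (α ^ 2 / 8) ≤ ℓ * (α / 8) := by gcongr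
        _ = α * ℓ / 8 := by ring
        _ ≤ 1 := by linarith
    linarith
  have h4 : (1 : ℝ) / 4 ≤ Real.exp (-1) := by
    have := Real.exp_one_lt_d9
    rw [Real.exp_neg, one_div]
    apply inv_anti₀ (Real.exp_pos 1)
    linarith
  have h5 : (16 : ℝ) ≤ ℓ ^ (C / α) := by
    have h6 : (4 : ℝ) ≤ C / α := by
      rw [le_div_iff₀ hα]
      nlinarith
    calc (16 : ℝ) = (2 : ℝ) ^ (4 : ℝ) := by norm_num
      _ ≤ ℓ ^ (4 : ℝ) := Real.rpow_le_rpow (by norm_num) hℓ2 (by norm_num)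
      _ ≤ ℓ ^ (C / α) := Real.rpow_le_rpow_of_exponent_le (by linarith) h6
  calc b ≤ 4 * Q := hb
    _ = Q * (1 / 4) * 16 := by ring
    _ ≤ Q * Q ^ (-(α ^ 2 / 8)) * ℓ ^ (C / α) := by
        gcongr
        exact h4.trans h3
    _ = _ := by rw [h1]

lemma prm_D (q : ℕ) [NeZero q] (T : ℝ) (hT : 1 ≤ T) :
    LS q (q * ⌈T⌉₊) ≤ 120 * (2 + Real.log (q * T)) := by
  have hq : (1 : ℝ) ≤ q := by exact_mod_cast Nat.pos_of_ne_zero (NeZero.ne q)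
  have hc : (⌈T⌉₊ : ℝ) ≤ 2 * T := by
    have := Nat.ceil_lt_add_one (by linarith : 0 ≤ T)
    linarith
  have hQ : 1 ≤ q * T := by nlinarith
  have h1 : ((q * ⌈T⌉₊ : ℕ) : ℝ) + q ≤ 3 * (q * T) := by
    push_cast
    nlinarith
  have h2 : Real.log (((q * ⌈T⌉₊ : ℕ) : ℝ) + q) ≤ Real.log 3 + Real.log (q * T) := by
    rw [← Real.log_mul (by norm_num) (by linarith)]
    apply Real.log_le_log _ h1
    positivity
  have h3 : Real.log 3 ≤ 2 := by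
    have := Real.log_le_sub_one_of_pos (by norm_num : (0 : ℝ) < 3)
    linarith
  have h4 : 0 ≤ Real.log (q * T) := Real.log_nonneg hQ
  unfold LS
  linarith

lemma prm_N (q : ℕ) [NeZero q] (T : ℝ) (hT : 1 ≤ T) :
    ((q * ⌈T⌉₊ : ℕ) : ℝ) ≤ 2 * (q * T) ∧ q * T ≤ ((q * ⌈T⌉₊ : ℕ) : ℝ) ∧
      1 ≤ ((q * ⌈T⌉₊ : ℕ) : ℝ) := by
  have hq : (1 : ℝ) ≤ q := by exact_mod_cast Nat.pos_of_ne_zero (NeZero.ne q)
  have hc : (⌈T⌉₊ : ℝ) ≤ 2 * T := by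
    have := Nat.ceil_lt_add_one (by linarith : 0 ≤ T)
    linarith
  have hc2 : T ≤ (⌈T⌉₊ : ℝ) := Nat.le_ceil T
  push_cast
  refine ⟨by nlinarith, by nlinarith, by nlinarith⟩

lemma prm_Dk (q : ℕ) [NeZero q] (T : ℝ) (hT : 1 ≤ T) (k : ℕ) (hk : 1 ≤ k) :
    LS q ((q * ⌈T⌉₊) ^ k) ≤ 120 * (k * (2 + Real.log (q * T))) ∧
    1 + Real.log (((q * ⌈T⌉₊ : ℕ) : ℝ) ^ k) ≤ k * (2 + Real.log (q * T)) ∧
    0 ≤ 1 + Real.log (((q * ⌈T⌉₊ : ℕ) : ℝ) ^ k) := by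
  have hq : (1 : ℝ) ≤ q := by exact_mod_cast Nat.pos_of_ne_zero (NeZero.ne q)
  have hQ : 1 ≤ q * T := by nlinarith
  obtain ⟨hN1, hN2, hN3⟩ := prm_N q T hT
  set N : ℕ := q * ⌈T⌉₊ with hN
  set Q : ℝ := q * T with hQdef
  have hk1 : (1 : ℝ) ≤ k := by exact_mod_cast hk
  have hlQ : 0 ≤ Real.log Q := Real.log_nonneg hQ
  have hl2 : Real.log (2 * Q) ≤ 1 + Real.log Q := by
    rw [Real.log_mul (by norm_num) (by linarith)]
    have := Real.log_two_lt_d9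
    linarith
  have hlN : Real.log (N : ℝ) ≤ 1 + Real.log Q :=
    (Real.log_le_log (by linarith) hN1).trans hl2
  have hlN0 : 0 ≤ Real.log (N : ℝ) := Real.log_nonneg hN3
  have hNk : (1 : ℝ) ≤ (N : ℝ) ^ k := one_le_pow₀ hN3
  have e2 : 1 + Real.log ((N : ℝ) ^ k) ≤ k * (2 + Real.log Q) := by
    rw [Real.log_pow]
    nlinarith
  refine ⟨?_, e2, by linarith [Real.log_nonneg hNk]⟩
  have h3 : ((N ^ k : ℕ) : ℝ) + q ≤ 2 * (2 * Q) ^ k := by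
    push_cast
    have h4 : (N : ℝ) ^ k ≤ (2 * Q) ^ k := by gcongr
    have h5 : (q : ℝ) ≤ (2 * Q) ^ k := by
      calc (q : ℝ) ≤ 2 * Q := by nlinarith
        _ = (2 * Q) ^ 1 := (pow_one _).symm
        _ ≤ (2 * Q) ^ k := pow_le_pow_right₀ (by linarith) hk
    linarith
  have h6 : Real.log (((N ^ k : ℕ) : ℝ) + q) ≤ 1 + k * (1 + Real.log Q) := by
    have h7 : Real.log (((N ^ k : ℕ) : ℝ) + q) ≤ Real.log (2 * (2 * Q) ^ k) :=
      Real.log_le_log (by positivity) h3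
    rw [Real.log_mul (by norm_num) (by positivity), Real.log_pow] at h7
    have := Real.log_two_lt_d9
    nlinarith
  unfold LS
  nlinarith

lemma prm_Z (Z Dk L k ℓ : ℝ) (n : ℕ) (hn : 1 ≤ n) (hk : k = n) (hℓ : 2 ≤ ℓ) (hkℓ : k ≤ 4 * ℓ)
    (hDk0 : 0 ≤ Dk) (hDk : Dk ≤ 120 * (k * ℓ)) (hL0 : 0 ≤ L) (hL : L ≤ k * ℓ)
    (hZ : Z = 3 * Dk * L ^ (16 * n ^ 2)) :
    Z ^ (1 / (2 * k)) ≤ 360 * ℓ ^ (34 * k) := by
  have hk1 : 1 ≤ k := by rw [hk]; exact_mod_cast hn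
  have hkl1 : 1 ≤ k * ℓ := by nlinarith
  have h1 : Z ≤ 360 * (k * ℓ) ^ (16 * n ^ 2 + 1) := by
    rw [hZ]
    calc 3 * Dk * L ^ (16 * n ^ 2) ≤ 3 * (120 * (k * ℓ)) * (k * ℓ) ^ (16 * n ^ 2) := by gcongr
      _ = _ := by ring
  have h2 : k * ℓ ≤ ℓ ^ 4 := by nlinarith [sq_nonneg ℓ, mul_self_nonneg (ℓ ^ 2 - 4)]
  have h3 : Z ≤ 360 * ℓ ^ (4 * (16 * n ^ 2 + 1)) := by
    refine h1.trans ?_
    rw [pow_mul]
    gcongr
  have hZ0 : 0 ≤ Z := by rw [hZ]; positivity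
  have h4 : Z ^ (1 / (2 * k)) ≤ (360 * ℓ ^ (4 * (16 * n ^ 2 + 1))) ^ (1 / (2 * k)) :=
    Real.rpow_le_rpow hZ0 h3 (by positivity)
  refine h4.trans ?_
  rw [Real.mul_rpow (by norm_num) (by positivity)]
  have h5 : (360 : ℝ) ^ (1 / (2 * k)) ≤ 360 := by
    calc (360 : ℝ) ^ (1 / (2 * k)) ≤ (360 : ℝ) ^ (1 : ℝ) := by
          apply Real.rpow_le_rpow_of_exponent_le (by norm_num)
          rw [div_le_one (by linarith)]
          linarith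
      _ = 360 := Real.rpow_one _
  have h6 : (ℓ ^ (4 * (16 * n ^ 2 + 1)) : ℝ) ^ (1 / (2 * k)) ≤ ℓ ^ (34 * k) := by
    rw [← Real.rpow_natCast, ← Real.rpow_mul (by linarith)]
    apply Real.rpow_le_rpow_of_exponent_le (by linarith)
    push_cast
    rw [← hk, mul_one_div, div_le_iff₀ (by linarith)]
    nlinarith
  gcongr

lemma prm_final (Q ℓ α C₁ c : ℝ) (hQ : 1 ≤ Q) (hℓ2 : 2 ≤ ℓ) (hα : 0 < α) (hα1 : α ≤ 1)
    (hC₁ : 1 ≤ C₁) (hc : 0 ≤ c) (hc2 : (2 : ℝ) ^ c = 500000000 * C₁) (b K D Z Y k : ℝ)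
    (hk0 : 1 ≤ k) (hk1 : 2 / α + 1 ≤ k) (hk2 : k ≤ 4 / α)
    (hK : 0 < K) (hQK : Q ^ α ≤ C₁ * ℓ * K) (hD0 : 0 ≤ D) (hD : D ≤ 120 * ℓ) (hZ0 : 0 ≤ Z)
    (hZ : Z ^ (1 / (2 * k)) ≤ 360 * ℓ ^ (34 * k)) (hY0 : 0 ≤ Y) (hY : Y ≤ 2 * Q ^ (1 / k))
    (hb : b ≤ 6 * Q * D * (Z / K) ^ (1 / (2 * k)) + 60 * D ^ 3 * Y ^ 2 * Q / K) :
    b ≤ Q ^ (1 - α ^ 2 / 8) * ℓ ^ ((150 + c) / α) := by
  have hQ0 : 0 < Q := by linarith
  have hℓ0 : 0 < ℓ := by linarith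
  have hℓ1 : 1 ≤ ℓ := by linarith
  have hkpos : 0 < k := by linarith
  have hQa : 0 < Q ^ α := Real.rpow_pos_of_pos hQ0 _
  set R : ℝ := Q ^ (-(α ^ 2 / 8)) with hR
  have hRpos : 0 < R := Real.rpow_pos_of_pos hQ0 _
  have hCl : 1 ≤ C₁ * ℓ := by nlinarith
  -- 1 / K
  have hK1 : 1 / K ≤ C₁ * ℓ * Q ^ (-α) := by
    rw [div_le_iff₀ hK]
    calc (1 : ℝ) = Q ^ α * Q ^ (-α) := by
          rw [← Real.rpow_add hQ0, add_neg_cancel, Real.rpow_zero]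
      _ ≤ C₁ * ℓ * K * Q ^ (-α) := by gcongr
      _ = _ := by ring
  have hE : 0 < 1 / (2 * k) := by positivity
  have hE1 : 1 / (2 * k) ≤ 1 := by
    rw [div_le_one (by linarith)]; linarith
  -- first term
  have h1 : (Z / K) ^ (1 / (2 * k)) ≤ 360 * ℓ ^ (34 * k) * (C₁ * ℓ) * R := by
    rw [Real.div_rpow hZ0 hK.le, div_eq_mul_one_div]
    have h2 : 1 / K ^ (1 / (2 * k)) ≤ C₁ * ℓ * R := by
      have h3 : 1 / K ^ (1 / (2 * k)) = (1 / K) ^ (1 / (2 * k)) := by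
        rw [Real.div_rpow (by norm_num) hK.le, Real.one_rpow]
      rw [h3]
      calc (1 / K) ^ (1 / (2 * k)) ≤ (C₁ * ℓ * Q ^ (-α)) ^ (1 / (2 * k)) :=
            Real.rpow_le_rpow (by positivity) hK1 hE.le
        _ = (C₁ * ℓ) ^ (1 / (2 * k)) * (Q ^ (-α)) ^ (1 / (2 * k)) := by
            rw [Real.mul_rpow (by positivity) (by positivity)]
        _ ≤ (C₁ * ℓ) * R := by
            apply mul_le_mul _ _ (by positivity) (by positivity)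
            · calc (C₁ * ℓ) ^ (1 / (2 * k)) ≤ (C₁ * ℓ) ^ (1 : ℝ) :=
                  Real.rpow_le_rpow_of_exponent_le hCl hE1
                _ = _ := Real.rpow_one _
            · rw [← Real.rpow_mul hQ0.le, hR]
              apply Real.rpow_le_rpow_of_exponent_le hQ
              rw [neg_mul, neg_le_neg_iff, mul_one_div, div_le_div_iff₀ (by norm_num) (by positivity)]
              have h4 : α * k ≤ 4 := by
                rw [le_div_iff₀ hα] at hk2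
                linarith
              nlinarith
    calc Z ^ (1 / (2 * k)) * (1 / K ^ (1 / (2 * k))) ≤ (360 * ℓ ^ (34 * k)) * (C₁ * ℓ * R) := by
          apply mul_le_mul hZ h2 (by positivity) (by positivity)
      _ = _ := by ring
  -- second term
  have h5 : Y ^ 2 / K ≤ 4 * (C₁ * ℓ) * R := by
    have h6 : Y ^ 2 ≤ 4 * Q ^ (2 / k) := by
      calc Y ^ 2 ≤ (2 * Q ^ (1 / k)) ^ 2 := by gcongr
        _ = 4 * (Q ^ (1 / k)) ^ 2 := by ring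
        _ = 4 * Q ^ (2 / k) := by
            rw [← Real.rpow_natCast, ← Real.rpow_mul hQ0.le]
            congr 2
            push_cast
            ring
    calc Y ^ 2 / K = Y ^ 2 * (1 / K) := by ring
      _ ≤ (4 * Q ^ (2 / k)) * (C₁ * ℓ * Q ^ (-α)) := by gcongr
      _ = 4 * (C₁ * ℓ) * (Q ^ (2 / k) * Q ^ (-α)) := by ring
      _ ≤ 4 * (C₁ * ℓ) * R := by
          rw [← Real.rpow_add hQ0]
          have h7 : Q ^ (2 / k + -α) ≤ R := by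
            apply Real.rpow_le_rpow_of_exponent_le hQ
            have h8 : 2 / k ≤ α - α ^ 2 / 8 := by
              rw [div_le_iff₀ hkpos]
              have h9 : 2 + α ≤ α * k := by
                have := mul_le_mul_of_nonneg_left hk1 hα.le
                have h10 : α * (2 / α + 1) = 2 + α := by field_simp
                linarith
              nlinarith
            linarith
          gcongr
  have hRQ : Q ^ (1 - α ^ 2 / 8) = Q * R := by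
    rw [sub_eq_add_neg, Real.rpow_add hQ0, Real.rpow_one]
  have h34 : ℓ ^ (34 * k) ≤ ℓ ^ (136 / α) := by
    apply Real.rpow_le_rpow_of_exponent_le hℓ1
    calc 34 * k ≤ 34 * (4 / α) := by gcongr
      _ = 136 / α := by ring
  have ha1 : 1 ≤ 1 / α := by rw [le_div_iff₀ hα]; linarith
  have hl2 : ℓ ^ 2 * ℓ ^ (136 / α) ≤ ℓ ^ (150 / α) := by
    rw [← Real.rpow_natCast, ← Real.rpow_add hℓ0]
    apply Real.rpow_le_rpow_of_exponent_le hℓ1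
    push_cast
    have : 150 / α = 136 / α + 14 * (1 / α) := by ring
    rw [this]
    linarith
  have hl4 : ℓ ^ 4 ≤ ℓ ^ (150 / α) := by
    rw [← Real.rpow_natCast]
    apply Real.rpow_le_rpow_of_exponent_le hℓ1
    push_cast
    have : 150 / α = 150 * (1 / α) := by ring
    rw [this]
    linarith
  have hcl : 500000000 * C₁ ≤ ℓ ^ (c / α) := by
    rw [← hc2]
    calc (2 : ℝ) ^ c ≤ ℓ ^ c := Real.rpow_le_rpow (by norm_num) hℓ2 hc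
      _ ≤ ℓ ^ (c / α) := by
          apply Real.rpow_le_rpow_of_exponent_le hℓ1
          rw [le_div_iff₀ hα]
          nlinarith
  have hsplit : ℓ ^ ((150 + c) / α) = ℓ ^ (150 / α) * ℓ ^ (c / α) := by
    rw [← Real.rpow_add hℓ0]
    congr 1
    ring
  have hP : 0 < ℓ ^ (150 / α) := Real.rpow_pos_of_pos hℓ0 _
  calc b ≤ 6 * Q * D * (Z / K) ^ (1 / (2 * k)) + 60 * D ^ 3 * Q * (Y ^ 2 / K) := by
        refine hb.trans (le_of_eq ?_)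
        ring
    _ ≤ 6 * Q * (120 * ℓ) * (360 * ℓ ^ (136 / α) * (C₁ * ℓ) * R) +
        60 * (120 * ℓ) ^ 3 * Q * (4 * (C₁ * ℓ) * R) := by
        gcongr
        exact h1.trans (by gcongr)
    _ = Q * R * C₁ * (259200 * (ℓ ^ 2 * ℓ ^ (136 / α)) + 414720000 * ℓ ^ 4) := by ring
    _ ≤ Q * R * C₁ * (259200 * ℓ ^ (150 / α) + 414720000 * ℓ ^ (150 / α)) := by gcongr
    _ ≤ Q * R * (500000000 * C₁) * ℓ ^ (150 / α) := by
        have : 0 ≤ Q * R * C₁ * ℓ ^ (150 / α) := by positivity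
        nlinarith
    _ ≤ Q * R * ℓ ^ (c / α) * ℓ ^ (150 / α) := by gcongr
    _ = _ := by rw [hRQ, hsplit]; ring

theorem param (C₁ : ℝ) (hC₁ : 1 ≤ C₁) : ∃ C₂ : ℝ, 0 < C₂ ∧ ∀ (q : ℕ) [NeZero q] (T α : ℝ),
    1 ≤ T → 0 < α → α ≤ 1 → ∀ A B : Finset (DirichletCharacter ℂ q × ℝ), Sep A → Sep B →
    (∀ p ∈ A, |p.2| ≤ T) → (∀ p ∈ B, |p.2| ≤ T) →
    (∀ p ∈ A, ∀ p' ∈ B,
      (p.1 * p'.1).LFunction (1 / 2 + ((p.2 + p'.2 : ℝ) : ℂ) * Complex.I) = 0) →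
    (q * T) ^ α ≤ C₁ * (2 + Real.log (q * T)) * A.card →
    (B.card : ℝ) ≤ (q * T) ^ (1 - α ^ 2 / 8) * (2 + Real.log (q * T)) ^ (C₂ / α) := by
  have hlog2 : 0 < Real.log 2 := Real.log_pos (by norm_num)
  set c : ℝ := Real.log (500000000 * C₁) / Real.log 2 with hc
  have hc0 : 0 ≤ c := div_nonneg (Real.log_nonneg (by linarith)) hlog2.le
  have hc2 : (2 : ℝ) ^ c = 500000000 * C₁ := by
    rw [Real.rpow_def_of_pos (by norm_num), hc, mul_div_cancel₀ _ hlog2.ne',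
      Real.exp_log (by linarith)]
  refine ⟨150 + c, by linarith, ?_⟩
  intro q _ T α hT hα hα1 A B hA hB hAT hBT h0 hK
  have hq : (1 : ℝ) ≤ q := by exact_mod_cast Nat.pos_of_ne_zero (NeZero.ne q)
  have hQ : 1 ≤ q * T := by nlinarith
  set Q : ℝ := q * T with hQdef
  set ℓ : ℝ := 2 + Real.log Q with hℓ
  have hlQ : 0 ≤ Real.log Q := Real.log_nonneg hQ
  have hℓ2 : 2 ≤ ℓ := by linarith
  have hQ0 : 0 < Q := by linarith
  by_cases hs : α < 1 / ℓ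
  · exact prm_small Q ℓ α (150 + c) B.card hQ hℓ hα hα1 hs (by linarith) (sep_card B hB T hT hBT)
  rw [not_lt] at hs
  have hαℓ : 1 ≤ α * ℓ := by
    rw [div_le_iff₀ (by linarith)] at hs
    exact hs
  have hKpos : (0 : ℝ) < A.card := by
    have h1 : 1 ≤ Q ^ α := Real.one_le_rpow hQ hα.le
    by_contra hcon
    have h2 : (A.card : ℝ) = 0 := le_antisymm (not_lt.mp hcon) (Nat.cast_nonneg _)
    rw [h2, mul_zero] at hK
    linarith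
  set k : ℕ := ⌈2 / α⌉₊ + 1 with hk
  have hk1 : 2 / α + 1 ≤ (k : ℝ) := by
    rw [hk]; push_cast
    linarith [Nat.le_ceil (2 / α)]
  have hk2 : (k : ℝ) ≤ 4 / α := by
    rw [hk]; push_cast
    have h1 := Nat.ceil_lt_add_one (by positivity : 0 ≤ 2 / α)
    have h2 : 2 ≤ 2 / α := by rw [le_div_iff₀ hα]; linarith
    have h3 : 4 / α = 2 / α + 2 / α := by ring
    rw [h3]
    linarith
  have hk0 : 1 ≤ k := by omega
  have hk0' : (1 : ℝ) ≤ k := by exact_mod_cast hk0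
  have hkℓ : (k : ℝ) ≤ 4 * ℓ := by
    refine hk2.trans ?_
    rw [div_le_iff₀ hα]
    linarith
  set Y : ℕ := ⌈Q ^ (1 / (k : ℝ))⌉₊ with hYdef
  have hQk1 : 1 ≤ Q ^ (1 / (k : ℝ)) := Real.one_le_rpow hQ (by positivity)
  have hY1 : Q ^ (1 / (k : ℝ)) ≤ Y := Nat.le_ceil _
  have hY2 : (Y : ℝ) ≤ 2 * Q ^ (1 / (k : ℝ)) := by
    have := Nat.ceil_lt_add_one (by linarith : 0 ≤ Q ^ (1 / (k : ℝ)))
    linarith
  have hY : 1 ≤ Y := by
    have : (1 : ℝ) ≤ Y := hQk1.trans hY1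
    exact_mod_cast this
  have hQY : Q ≤ (Y : ℝ) ^ k := by
    calc Q = (Q ^ (1 / (k : ℝ))) ^ k := by
          rw [← Real.rpow_natCast, ← Real.rpow_mul hQ0.le, one_div_mul_cancel (by positivity),
            Real.rpow_one]
      _ ≤ (Y : ℝ) ^ k := by gcongr
  obtain ⟨hN1, hN2, hN3⟩ := prm_N q T hT
  have hYN : Y ≤ q * ⌈T⌉₊ := by
    apply Nat.ceil_le.mpr
    calc Q ^ (1 / (k : ℝ)) ≤ Q ^ (1 : ℝ) := by
          apply Real.rpow_le_rpow_of_exponent_le hQ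
          rw [div_le_one (by positivity)]
          exact hk0'
      _ = Q := Real.rpow_one _
      _ ≤ _ := hN2
  obtain ⟨Mo, hMo0, hMo, hB2⟩ := sep_bound A B hA hB T hT hAT hBT Y k hk0 hY hYN hQY h0
  obtain ⟨hDk, hL, hL0⟩ := prm_Dk q T hT k hk0
  have hD := prm_D q T hT
  set D : ℝ := LS q (q * ⌈T⌉₊) with hDdef
  set Dk : ℝ := LS q ((q * ⌈T⌉₊) ^ k) with hDkdef
  set L : ℝ := 1 + Real.log (((q * ⌈T⌉₊ : ℕ) : ℝ) ^ k) with hLdef
  have hDpos : 0 < D := LS_pos _ _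
  have hDkpos : 0 < Dk := LS_pos _ _
  set Z : ℝ := 3 * Dk * L ^ (16 * k ^ 2) with hZdef
  have hZ0 : 0 ≤ Z := by positivity
  have hZ := prm_Z Z Dk L k ℓ k hk0 rfl hℓ2 hkℓ hDkpos.le hDk hL0 hL hZdef
  set K : ℝ := (A.card : ℝ) with hKdef
  refine prm_final Q ℓ α C₁ c hQ hℓ2 hα hα1 hC₁ hc0 hc2 B.card K D Z Y k hk0' hk1 hk2 hKpos hK
    hDpos.le hD hZ0 hZ (by positivity) hY2 ?_
  have hMo2 : Mo ≤ K ^ 2 * (Z / K) ^ (1 / (2 * (k : ℝ))) := by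
    have hk2n : 2 * k ≠ 0 := by omega
    rw [← pow_le_pow_iff_left₀ hMo0 (by positivity) hk2n]
    refine hMo.trans (le_of_eq ?_)
    have e1 : ((Z / K) ^ (1 / (2 * (k : ℝ)))) ^ (2 * k) = Z / K := by
      rw [← Real.rpow_natCast, ← Real.rpow_mul (by positivity)]
      push_cast
      rw [one_div_mul_cancel (by positivity), Real.rpow_one]
    rw [mul_pow, e1, ← pow_mul]
    have e2 : 2 * (2 * k) = (4 * k - 1) + 1 := by omega
    rw [e2, pow_succ]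
    field_simp
  have hB3 : (B.card : ℝ) * K ^ 2 ≤
      (6 * Q * D * (Z / K) ^ (1 / (2 * (k : ℝ))) + 60 * D ^ 3 * (Y : ℝ) ^ 2 * Q / K) * K ^ 2 := by
    calc (B.card : ℝ) * K ^ 2 ≤ 6 * Q * D * Mo + 60 * D ^ 3 * (Y : ℝ) ^ 2 * Q * K := hB2
      _ ≤ 6 * Q * D * (K ^ 2 * (Z / K) ^ (1 / (2 * (k : ℝ)))) +
          60 * D ^ 3 * (Y : ℝ) ^ 2 * Q * K := by gcongr
      _ = _ := by field_simp
  exact le_of_mul_le_mul_right hB3 (by positivity)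

end Pool.Agent.H74.PZ
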