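import Pool.Agent.H74.PZ.Exp2
import Pool.Agent.H74.PZ.Par

/-!
# The large sieve over residue classes and a real variable

`res_ls`: for fixed `y`, `FF s x r y = ∑_{χ ∈ C} z_χ(y) χ(r)` with `C = s.image Prod.fst` and
`z_χ(y) = ∑_{p ∈ s, p.1 = χ} x_p e^{-i p.2 y}`.  Exchange the finite sum over `r` with the integral
(`integral_finset_sum`, integrable by `exp_integrable` with `norm_FF_le`, `continuous_FF`), use `parseval` pointwise, exchange again,
and apply `exp_ls` for each `χ` to the set of reals `(s.filter (p.1 = χ)).image Prod.snd` (separated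
by `Sep`) and the coefficients `c a = x (χ, a)`.

`unit_ls`: `e^{-|y-a|/2} ≥ e^{-1/2} ≥ 12/20` for `a ≤ y ≤ a+1`.  `long_ls`: cover `[0, L]` by
`⌈L⌉₊ ≤ L + 1` unit intervals.
-/

namespace Pool.Agent.H74.PZ

open Finset MeasureTheory

variable {q : ℕ} [NeZero q]

namespace Res

open Classical in
/-- the ordinates of the points with character `χ` -/
noncomputable def fib (s : Finset (DirichletCharacter ℂ q × ℝ)) (χ : DirichletCharacter ℂ q) :
    Finset ℝ := (s.filter (fun p => p.1 = χ)).image Prod.snd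

open Classical in
lemma sum_fib {E : Type*} [AddCommMonoid E] (s : Finset (DirichletCharacter ℂ q × ℝ))
    (f : DirichletCharacter ℂ q × ℝ → E) :
    ∑ p ∈ s, f p = ∑ χ ∈ s.image Prod.fst, ∑ a ∈ fib s χ, f (χ, a) := by
  rw [← Finset.sum_fiberwise_of_maps_to (s := s) (t := s.image Prod.fst) (g := Prod.fst)
    (fun p hp => Finset.mem_image_of_mem _ hp)]
  refine Finset.sum_congr rfl fun χ _ => ?_
  unfold fib
  rw [Finset.sum_image]
  · refine Finset.sum_congr rfl fun p hp => ?_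
    have h := (Finset.mem_filter.1 hp).2
    rw [← h]
  · intro p hp p' hp' h
    have h1 := (Finset.mem_filter.1 hp).2
    have h2 := (Finset.mem_filter.1 hp').2
    exact Prod.ext (h1.trans h2.symm) h

open Classical in
lemma fib_sep (s : Finset (DirichletCharacter ℂ q × ℝ)) (hs : Sep s)
    (χ : DirichletCharacter ℂ q) :
    ∀ a ∈ fib s χ, ∀ b ∈ fib s χ, a ≠ b → 1 ≤ |a - b| := by
  intro a ha b hb hab
  unfold fib at ha hb
  obtain ⟨p, hp, rfl⟩ := Finset.mem_image.1 ha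
  obtain ⟨p', hp', rfl⟩ := Finset.mem_image.1 hb
  have h1 := Finset.mem_filter.1 hp
  have h2 := Finset.mem_filter.1 hp'
  exact hs p h1.1 p' h2.1 (fun h => hab (by rw [h])) (h1.2.trans h2.2.symm)

open Classical in
lemma FF_eq (s : Finset (DirichletCharacter ℂ q × ℝ))
    (x : DirichletCharacter ℂ q × ℝ → ℂ) (r : ZMod q) (y : ℝ) :
    FF s x r y = ∑ χ ∈ s.image Prod.fst, (∑ a ∈ fib s χ, x (χ, a) * ee a y) * χ r := by
  unfold FF
  rw [sum_fib]
  refine Finset.sum_congr rfl fun χ _ => ?_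
  rw [Finset.sum_mul]
  exact Finset.sum_congr rfl fun a _ => by ring

lemma continuous_z (t : Finset ℝ) (c : ℝ → ℂ) : Continuous (fun y => ∑ a ∈ t, c a * ee a y) :=
  continuous_finsetSum _ fun a _ => continuous_const.mul (continuous_ee a)

lemma norm_z (t : Finset ℝ) (c : ℝ → ℂ) (y : ℝ) :
    ‖∑ a ∈ t, c a * ee a y‖ ≤ ∑ a ∈ t, ‖c a‖ := by
  refine (norm_sum_le _ _).trans (Finset.sum_le_sum fun a _ => ?_)
  rw [norm_mul, norm_ee, mul_one]

end Res

theorem res_ls (s : Finset (DirichletCharacter ℂ q × ℝ)) (hs : Sep s)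
    (x : DirichletCharacter ℂ q × ℝ → ℂ) (y0 : ℝ) :
    ∑ r : ZMod q, ∫ y : ℝ, Real.exp (-|y - y0| / 2) * ‖FF s x r y‖ ^ 2 ≤
      12 * q.totient * ∑ p ∈ s, ‖x p‖ ^ 2 := by
  classical
  rw [← integral_finsetSum _ (fun r _ => exp_integrable y0 _ (continuous_FF s x r) _
    (norm_FF_le s x r))]
  have h1 : ∀ y : ℝ, ∑ r : ZMod q, Real.exp (-|y - y0| / 2) * ‖FF s x r y‖ ^ 2 =
      ∑ χ ∈ s.image Prod.fst, (q.totient : ℝ) * (Real.exp (-|y - y0| / 2) *
        ‖∑ a ∈ Res.fib s χ, x (χ, a) * ee a y‖ ^ 2) := by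
    intro y
    rw [← Finset.mul_sum]
    have h2 : ∑ r : ZMod q, ‖FF s x r y‖ ^ 2 =
        q.totient * ∑ χ ∈ s.image Prod.fst, ‖∑ a ∈ Res.fib s χ, x (χ, a) * ee a y‖ ^ 2 := by
      rw [← parseval]
      exact Finset.sum_congr rfl fun r _ => by rw [Res.FF_eq]
    rw [h2, Finset.mul_sum, Finset.mul_sum]
    exact Finset.sum_congr rfl fun χ _ => by ring
  simp_rw [h1]
  rw [integral_finsetSum _ (fun χ _ => (exp_integrable y0 _
    (Res.continuous_z (Res.fib s χ) (fun a => x (χ, a))) _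
    (Res.norm_z (Res.fib s χ) (fun a => x (χ, a)))).const_mul _)]
  rw [Res.sum_fib s (fun p => ‖x p‖ ^ 2), Finset.mul_sum]
  refine Finset.sum_le_sum fun χ _ => ?_
  rw [integral_const_mul]
  have h3 := exp_ls (Res.fib s χ) (Res.fib_sep s hs χ) (fun a => x (χ, a)) y0
  calc (q.totient : ℝ) * ∫ y : ℝ, Real.exp (-|y - y0| / 2) *
        ‖∑ a ∈ Res.fib s χ, x (χ, a) * ee a y‖ ^ 2
      ≤ (q.totient : ℝ) * (12 * ∑ a ∈ Res.fib s χ, ‖x (χ, a)‖ ^ 2) :=
        mul_le_mul_of_nonneg_left h3 (Nat.cast_nonneg _)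
    _ = 12 * q.totient * ∑ a ∈ Res.fib s χ, ‖x (χ, a)‖ ^ 2 := by ring

theorem unit_ls (s : Finset (DirichletCharacter ℂ q × ℝ)) (hs : Sep s)
    (x : DirichletCharacter ℂ q × ℝ → ℂ) (a : ℝ) :
    ∑ r : ZMod q, ∫ y in a..(a + 1), ‖FF s x r y‖ ^ 2 ≤
      20 * q.totient * ∑ p ∈ s, ‖x p‖ ^ 2 := by
  have h0 := res_ls s hs x a
  have hexp : Real.exp (1 / 2) ≤ 5 / 3 := by
    have h1 : Real.exp (1 / 2) ^ 2 = Real.exp 1 := by
      rw [← Real.exp_nat_mul]; norm_num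
    have h2 : Real.exp 1 < 2.7182818286 := Real.exp_one_lt_d9
    have h3 : 0 < Real.exp (1 / 2) := Real.exp_pos _
    nlinarith
  have h1 : ∀ r : ZMod q, ∫ y in a..(a + 1), ‖FF s x r y‖ ^ 2 ≤
      5 / 3 * ∫ y : ℝ, Real.exp (-|y - a| / 2) * ‖FF s x r y‖ ^ 2 := by
    intro r
    have hint := exp_integrable a _ (continuous_FF s x r) _ (norm_FF_le s x r)
    have hc : Continuous (fun y => ‖FF s x r y‖ ^ 2) := (continuous_FF s x r).norm.pow 2
    calc ∫ y in a..(a + 1), ‖FF s x r y‖ ^ 2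
        ≤ ∫ y in a..(a + 1), 5 / 3 * (Real.exp (-|y - a| / 2) * ‖FF s x r y‖ ^ 2) := by
          apply intervalIntegral.integral_mono_on (by linarith)
          · exact hc.intervalIntegrable _ _
          · exact (hint.const_mul _).intervalIntegrable
          · intro y hy
            have h2 : |y - a| ≤ 1 := by
              rw [abs_le]; constructor <;> linarith [hy.1, hy.2]
            have h3 : 1 ≤ 5 / 3 * Real.exp (-|y - a| / 2) := by
              have h4 : Real.exp (-(1 / 2)) ≤ Real.exp (-|y - a| / 2) := by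
                apply Real.exp_le_exp.2; linarith
              have h5 : Real.exp (-(1 / 2)) * Real.exp (1 / 2) = 1 := by
                rw [← Real.exp_add]; simp
              have h6 : 0 < Real.exp (-(1 / 2 : ℝ)) := Real.exp_pos _
              nlinarith
            have h4 : 0 ≤ ‖FF s x r y‖ ^ 2 := by positivity
            calc ‖FF s x r y‖ ^ 2 = 1 * ‖FF s x r y‖ ^ 2 := by ring
              _ ≤ (5 / 3 * Real.exp (-|y - a| / 2)) * ‖FF s x r y‖ ^ 2 :=
                mul_le_mul_of_nonneg_right h3 h4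
              _ = _ := by ring
      _ = 5 / 3 * ∫ y in a..(a + 1), Real.exp (-|y - a| / 2) * ‖FF s x r y‖ ^ 2 := by
          rw [intervalIntegral.integral_const_mul]
      _ ≤ 5 / 3 * ∫ y : ℝ, Real.exp (-|y - a| / 2) * ‖FF s x r y‖ ^ 2 := by
          apply mul_le_mul_of_nonneg_left _ (by norm_num)
          rw [intervalIntegral.integral_of_le (by linarith)]
          exact setIntegral_le_integral hint
            (Filter.Eventually.of_forall fun y => by positivity)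
  calc ∑ r : ZMod q, ∫ y in a..(a + 1), ‖FF s x r y‖ ^ 2
      ≤ ∑ r : ZMod q, 5 / 3 * ∫ y : ℝ, Real.exp (-|y - a| / 2) * ‖FF s x r y‖ ^ 2 :=
        Finset.sum_le_sum fun r _ => h1 r
    _ = 5 / 3 * ∑ r : ZMod q, ∫ y : ℝ, Real.exp (-|y - a| / 2) * ‖FF s x r y‖ ^ 2 := by
        rw [Finset.mul_sum]
    _ ≤ 5 / 3 * (12 * q.totient * ∑ p ∈ s, ‖x p‖ ^ 2) :=
        mul_le_mul_of_nonneg_left h0 (by norm_num)
    _ = 20 * q.totient * ∑ p ∈ s, ‖x p‖ ^ 2 := by ring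

theorem long_ls (s : Finset (DirichletCharacter ℂ q × ℝ)) (hs : Sep s)
    (x : DirichletCharacter ℂ q × ℝ → ℂ) (L : ℝ) (hL : 0 ≤ L) :
    ∑ r : ZMod q, ∫ y in (0 : ℝ)..L, ‖FF s x r y‖ ^ 2 ≤
      20 * (L + 1) * q.totient * ∑ p ∈ s, ‖x p‖ ^ 2 := by
  have hc : ∀ r : ZMod q, Continuous (fun y => ‖FF s x r y‖ ^ 2) :=
    fun r => (continuous_FF s x r).norm.pow 2
  have h1 : ∀ r : ZMod q, ∫ y in (0 : ℝ)..L, ‖FF s x r y‖ ^ 2 ≤
      ∑ k ∈ range ⌈L⌉₊, ∫ y in (k : ℝ)..((k : ℝ) + 1), ‖FF s x r y‖ ^ 2 := by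
    intro r
    have h2 := intervalIntegral.sum_integral_adjacent_intervals (μ := volume)
      (f := fun y => ‖FF s x r y‖ ^ 2) (a := fun k : ℕ => (k : ℝ)) (n := ⌈L⌉₊)
      (fun k _ => (hc r).intervalIntegrable _ _)
    simp only [Nat.cast_add, Nat.cast_one, Nat.cast_zero] at h2
    rw [h2]
    apply intervalIntegral.integral_mono_interval le_rfl hL (Nat.le_ceil L)
    · exact Filter.Eventually.of_forall fun y => by positivity
    · exact (hc r).intervalIntegrable _ _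
  have hN : ((⌈L⌉₊ : ℕ) : ℝ) ≤ L + 1 := (Nat.ceil_lt_add_one hL).le
  calc ∑ r : ZMod q, ∫ y in (0 : ℝ)..L, ‖FF s x r y‖ ^ 2
      ≤ ∑ r : ZMod q, ∑ k ∈ range ⌈L⌉₊, ∫ y in (k : ℝ)..((k : ℝ) + 1), ‖FF s x r y‖ ^ 2 :=
        Finset.sum_le_sum fun r _ => h1 r
    _ = ∑ k ∈ range ⌈L⌉₊, ∑ r : ZMod q, ∫ y in (k : ℝ)..((k : ℝ) + 1), ‖FF s x r y‖ ^ 2 :=
        Finset.sum_comm
    _ ≤ ∑ _k ∈ range ⌈L⌉₊, 20 * q.totient * ∑ p ∈ s, ‖x p‖ ^ 2 :=
        Finset.sum_le_sum fun k _ => unit_ls s hs x k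
    _ = (⌈L⌉₊ : ℝ) * (20 * q.totient * ∑ p ∈ s, ‖x p‖ ^ 2) := by
        rw [Finset.sum_const, card_range, nsmul_eq_mul]
    _ ≤ (L + 1) * (20 * q.totient * ∑ p ∈ s, ‖x p‖ ^ 2) :=
        mul_le_mul_of_nonneg_right hN (by positivity)
    _ = _ := by ring

end Pool.Agent.H74.PZ
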