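import Pool.Agent.H74.PZ.Defs
import Pool.Agent.H90.LBounds
import Pool.Agent.PairCorr.JensenSum

/-!
# Zeros on the critical line in a window of length one

`zeros_window`.  Let `g(s) = L(s, χ)` if `χ ≠ 1` and `g = LFunctionTrivChar₁ q` (`= (s - 1) L(s, 1)` for `s ≠ 1`) if `χ = 1`; `g` is
entire, and zero at every zero `1/2 + i t` of `L(s, χ)`.  Centre `c = 2 + i t₀'`, `t₀' = t₀ + 1/2`: the zeros have
`|1/2 + i t - c| ≤ √(9/4 + 1/4) < 1.6 = r`, `R = 1.75`; on the closed disc of radius `R` one has `Re s ≥ 1/4`,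
`‖s‖ ≤ |t₀| + 5`, and `‖g s‖ ≤ 1 + 32 q ‖s‖` for `χ ≠ 1` (H90 `norm_LFunction_sub_le`, `N = 1`), and for `χ = 1`
(H90 `LFunctionTrivChar₁_eq`, `JJ_norm_le`) `‖g s‖ ≤ ‖s‖ + (‖s‖ + 1) ‖s‖ · 20 q`.  In both cases
`‖g‖ ≤ 1188 q (|t₀| + 1)^2`, so `circleAverage (log ‖g‖) ≤ log (1188 q (|t₀| + 1)^2)`.  At the centre
`|g c| ≥ 1/4` (H90 `norm_LFunction_ge`; for `χ = 1` times `|c - 1| ≥ 1`).  `jensen_sum_le` (each zero has order `≥ 1`) gives
`|Z| log (1.75/1.6) ≤ log (1188 q (|t₀|+1)^2) + log 4 ≤ 10 + 2 log (q (|t₀| + 1))`.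
-/

namespace Pool.Agent.H74.PZ

open Finset MeasureTheory

/-- the number of zeros of an entire function on a vertical segment, by Jensen's formula -/
theorem zw_card {g : ℂ → ℂ} (hg : Differentiable ℂ g) {c : ℂ} {M : ℝ} (hM : 1 ≤ M)
    (hb : ∀ z, ‖z - c‖ = 7 / 4 → ‖g z‖ ≤ M) (hc : 1 / 4 ≤ ‖g c‖) (Z : Finset ℝ)
    (hZ : ∀ t ∈ Z, ‖(1 / 2 + (t : ℂ) * Complex.I) - c‖ ≤ 8 / 5 ∧
      g (1 / 2 + (t : ℂ) * Complex.I) = 0) :
    (Z.card : ℝ) * (3 / 35) ≤ Real.log M + 2 := by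
  classical
  have hfc : g c ≠ 0 := by
    intro h
    rw [h, norm_zero] at hc
    norm_num at hc
  have hinj : Function.Injective (fun t : ℝ => (1 / 2 + (t : ℂ) * Complex.I)) := by
    intro a b hab
    have h := congrArg Complex.im hab
    simpa using h
  have hJ := Pool.Agent.PairCorr.jensen_sum_le (f := g) (c := c) (r := 8 / 5) (R := 7 / 4)
    (by norm_num) (by norm_num) (fun z _ => hg.analyticAt z) hfc
    (Z.image (fun t : ℝ => (1 / 2 + (t : ℂ) * Complex.I))) (by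
      intro ρ hρ
      rw [Finset.mem_image] at hρ
      obtain ⟨t, ht, rfl⟩ := hρ
      exact (hZ t ht).1)
  have hord : ∀ t ∈ Z, (1 : ℝ) ≤ (analyticOrderNatAt g (1 / 2 + (t : ℂ) * Complex.I) : ℝ) := by
    intro t ht
    have hne0 : analyticOrderAt g (1 / 2 + (t : ℂ) * Complex.I) ≠ 0 := by
      intro h
      exact (hg.analyticAt _).analyticOrderAt_eq_zero.mp h (hZ t ht).2
    have hnetop : analyticOrderAt g (1 / 2 + (t : ℂ) * Complex.I) ≠ ⊤ := by
      intro h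
      rw [analyticOrderAt_eq_top] at h
      have h2 := AnalyticOnNhd.eqOn_zero_of_preconnected_of_eventuallyEq_zero
        (f := g) (U := Set.univ) (fun z _ => hg.analyticAt z) isPreconnected_univ
        (Set.mem_univ (1 / 2 + (t : ℂ) * Complex.I)) h
      exact hfc (h2 (Set.mem_univ c))
    have h1 : analyticOrderNatAt g (1 / 2 + (t : ℂ) * Complex.I) ≠ 0 := by
      intro h
      apply hne0
      unfold analyticOrderNatAt at h
      rw [ENat.toNat_eq_zero] at h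
      exact h.resolve_right hnetop
    have h2 : 1 ≤ analyticOrderNatAt g (1 / 2 + (t : ℂ) * Complex.I) := Nat.one_le_iff_ne_zero.mpr h1
    exact_mod_cast h2
  have hsum : (Z.card : ℝ) ≤ ∑ ρ ∈ Z.image (fun t : ℝ => (1 / 2 + (t : ℂ) * Complex.I)),
      (analyticOrderNatAt g ρ : ℝ) := by
    rw [Finset.sum_image (fun a _ b _ hab => hinj hab)]
    calc (Z.card : ℝ) = ∑ t ∈ Z, (1 : ℝ) := by simp
      _ ≤ _ := Finset.sum_le_sum hord
  have hlogM : 0 ≤ Real.log M := Real.log_nonneg hM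
  have havg : Real.circleAverage (fun z => Real.log ‖g z‖) c (7 / 4) ≤ Real.log M := by
    apply Real.circleAverage_mono_on_of_le_circle
    · exact MeromorphicOn.circleIntegrable_log_norm
        (fun z _ => (hg.analyticAt z).meromorphicAt)
    · intro z hz
      rw [mem_sphere_iff_norm, abs_of_pos (by norm_num : (0 : ℝ) < 7 / 4)] at hz
      rcases eq_or_ne (g z) 0 with h | h
      · rw [h, norm_zero, Real.log_zero]
        exact hlogM
      · exact Real.log_le_log (norm_pos_iff.2 h) (hb z hz)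
  have hlogc : -2 ≤ Real.log ‖g c‖ := by
    have h1 : Real.log (1 / 4) ≤ Real.log ‖g c‖ := Real.log_le_log (by norm_num) hc
    have h2 : Real.log (1 / 4) = - (2 * Real.log 2) := by
      rw [one_div, Real.log_inv, show (4 : ℝ) = 2 ^ 2 by norm_num, Real.log_pow]
      norm_num
    have h3 : Real.log 2 ≤ 1 := by
      have := Real.log_two_lt_d9
      linarith
    linarith
  have h54 : (3 : ℝ) / 35 ≤ Real.log (7 / 4 / (8 / 5)) := by
    have := Real.one_sub_inv_le_log_of_pos (x := 7 / 4 / (8 / 5)) (by norm_num)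
    norm_num at this ⊢
    exact this
  have hcard : 0 ≤ (Z.card : ℝ) := Nat.cast_nonneg _
  have h5 : (Z.card : ℝ) * (3 / 35) ≤ (Z.card : ℝ) * Real.log (7 / 4 / (8 / 5)) :=
    mul_le_mul_of_nonneg_left h54 hcard
  have h6 : (Z.card : ℝ) * Real.log (7 / 4 / (8 / 5)) ≤
      (∑ ρ ∈ Z.image (fun t : ℝ => (1 / 2 + (t : ℂ) * Complex.I)),
      (analyticOrderNatAt g ρ : ℝ)) * Real.log (7 / 4 / (8 / 5)) :=
    mul_le_mul_of_nonneg_right hsum (by linarith)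
  linarith

/-- the bound on the disc, nonprincipal case -/
theorem zw_bound_ne {q : ℕ} [NeZero q] (χ : DirichletCharacter ℂ q) (hχ : χ ≠ 1) (s : ℂ)
    (hs : 1 / 4 ≤ s.re) : ‖χ.LFunction s‖ ≤ 33 * q * (‖s‖ + 1) ^ 2 := by
  have hs0 : 0 < s.re := by linarith
  have hq1 : (1 : ℝ) ≤ q := by exact_mod_cast Nat.pos_of_ne_zero (NeZero.ne q)
  have h := Pool.Agent.H90.norm_LFunction_sub_le χ hχ 1 le_rfl s hs0
  have h1 : ‖∑ n ∈ (Finset.Icc 1 1 : Finset ℕ), χ (n : ZMod q) * (n : ℂ) ^ (-s)‖ ≤ 1 := by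
    simp
  have h2 : 8 * (q : ℝ) * ‖s‖ * ((1 : ℕ) : ℝ) ^ (-s.re) / s.re ≤ 32 * q * ‖s‖ := by
    rw [Nat.cast_one, Real.one_rpow, mul_one, div_le_iff₀ hs0]
    have h3 : 0 ≤ (q : ℝ) * ‖s‖ := by positivity
    nlinarith
  have h4 : ‖χ.LFunction s‖ ≤ 1 + 32 * q * ‖s‖ := by
    calc ‖χ.LFunction s‖ = ‖∑ n ∈ (Finset.Icc 1 1 : Finset ℕ), χ (n : ZMod q) * (n : ℂ) ^ (-s)
          + (χ.LFunction s - ∑ n ∈ (Finset.Icc 1 1 : Finset ℕ), χ (n : ZMod q) * (n : ℂ) ^ (-s))‖ := by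
          congr 1
          ring
      _ ≤ _ := norm_add_le _ _
      _ ≤ _ := add_le_add h1 (h.trans h2)
  have hn := norm_nonneg s
  have h5 : 0 ≤ (q : ℝ) * ‖s‖ := by positivity
  have h6 : 0 ≤ (q : ℝ) * (‖s‖ * ‖s‖) := by positivity
  have h7 : 33 * (q : ℝ) * (‖s‖ + 1) ^ 2 = 33 * (q * (‖s‖ * ‖s‖)) + 66 * (q * ‖s‖) + 33 * q := by
    ring
  rw [h7]
  linarith

/-- the bound on the disc, principal case -/
theorem zw_bound_one (q : ℕ) [NeZero q] (s : ℂ)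
    (hs : 1 / 4 ≤ s.re) :
    ‖DirichletCharacter.LFunctionTrivChar₁ q s‖ ≤ 33 * q * (‖s‖ + 1) ^ 2 := by
  have hs0 : 0 < s.re := by linarith
  have hq1 : (1 : ℝ) ≤ q := by exact_mod_cast Nat.pos_of_ne_zero (NeZero.ne q)
  obtain ⟨c, B, hc, hB, hB0, h⟩ := Pool.Agent.H90.LFunctionTrivChar₁_eq (q := q) s hs0
  rw [h]
  have h1 := Pool.Agent.H90.JJ_norm_le B (5 * q) hB 1 le_rfl hB0 s hs0
  rw [Real.one_rpow, mul_one] at h1
  have h3 : 5 * (q : ℝ) / s.re ≤ 20 * q := by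
    rw [div_le_iff₀ hs0]
    nlinarith
  have hsn : 0 ≤ ‖s‖ := norm_nonneg s
  calc ‖c * s + (s - 1) * (s * Pool.Agent.H90.JJ B s)‖
      ≤ ‖c * s‖ + ‖(s - 1) * (s * Pool.Agent.H90.JJ B s)‖ := norm_add_le _ _
    _ = ‖c‖ * ‖s‖ + ‖s - 1‖ * (‖s‖ * ‖Pool.Agent.H90.JJ B s‖) := by
        rw [norm_mul, norm_mul, norm_mul]
    _ ≤ 1 * ‖s‖ + (‖s‖ + 1) * (‖s‖ * (20 * q)) := by
        gcongr
        · calc ‖s - 1‖ ≤ ‖s‖ + ‖(1 : ℂ)‖ := norm_sub_le _ _
            _ = ‖s‖ + 1 := by simp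
        · exact h1.trans h3
    _ ≤ 33 * q * (‖s‖ + 1) ^ 2 := by nlinarith [mul_nonneg hsn hsn]

/-- geometry of the disc of radius `7/4` around `2 + i (t₀ + 1/2)` -/
theorem zw_geom (t₀ : ℝ) (z : ℂ)
    (hz : ‖z - (2 + ((t₀ + 1 / 2 : ℝ) : ℂ) * Complex.I)‖ = 7 / 4) :
    1 / 4 ≤ z.re ∧ ‖z‖ + 1 ≤ 6 * (|t₀| + 1) := by
  constructor
  · have h := Complex.abs_re_le_norm (z - (2 + ((t₀ + 1 / 2 : ℝ) : ℂ) * Complex.I))
    rw [hz] at h
    have h2 : (z - (2 + ((t₀ + 1 / 2 : ℝ) : ℂ) * Complex.I)).re = z.re - 2 := by simp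
    rw [h2, abs_le] at h
    linarith [h.1]
  · have h1 : ‖z‖ ≤ ‖z - (2 + ((t₀ + 1 / 2 : ℝ) : ℂ) * Complex.I)‖
        + ‖(2 + ((t₀ + 1 / 2 : ℝ) : ℂ) * Complex.I)‖ := by
      calc ‖z‖ = ‖(z - (2 + ((t₀ + 1 / 2 : ℝ) : ℂ) * Complex.I))
            + (2 + ((t₀ + 1 / 2 : ℝ) : ℂ) * Complex.I)‖ := by
            congr 1
            ring
        _ ≤ _ := norm_add_le _ _
    have h2 : ‖(2 + ((t₀ + 1 / 2 : ℝ) : ℂ) * Complex.I)‖ ≤ 2 + (|t₀| + 1 / 2) := by
      calc ‖(2 + ((t₀ + 1 / 2 : ℝ) : ℂ) * Complex.I)‖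
          ≤ ‖(2 : ℂ)‖ + ‖((t₀ + 1 / 2 : ℝ) : ℂ) * Complex.I‖ := norm_add_le _ _
        _ = 2 + |t₀ + 1 / 2| := by
            rw [norm_mul, Complex.norm_I, mul_one, Complex.norm_real, Real.norm_eq_abs,
              Complex.norm_ofNat]
        _ ≤ _ := by
            gcongr
            calc |t₀ + 1 / 2| ≤ |t₀| + |1 / 2| := abs_add_le _ _
              _ = _ := by rw [abs_of_pos (by norm_num : (0 : ℝ) < 1 / 2)]
    rw [hz] at h1
    have := abs_nonneg t₀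
    linarith

theorem zw_dist (t₀ t : ℝ) (h1 : t₀ ≤ t) (h2 : t ≤ t₀ + 1) :
    ‖(1 / 2 + (t : ℂ) * Complex.I) - (2 + ((t₀ + 1 / 2 : ℝ) : ℂ) * Complex.I)‖ ≤ 8 / 5 := by
  have hre : ((1 / 2 + (t : ℂ) * Complex.I) - (2 + ((t₀ + 1 / 2 : ℝ) : ℂ) * Complex.I)).re
      = -(3 / 2) := by
    simp
    norm_num
  have him : ((1 / 2 + (t : ℂ) * Complex.I) - (2 + ((t₀ + 1 / 2 : ℝ) : ℂ) * Complex.I)).im
      = t - (t₀ + 1 / 2) := by
    simp
  rw [Complex.norm_eq_sqrt_sq_add_sq, hre, him]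
  apply Real.sqrt_le_iff.mpr
  refine ⟨by norm_num, ?_⟩
  have h3 : (t - (t₀ + 1 / 2)) ^ 2 ≤ 1 / 4 := by nlinarith
  norm_num
  norm_num at h3
  linarith

theorem zeros_window : ∃ C : ℝ, 1 ≤ C ∧ ∀ (q : ℕ) [NeZero q] (χ : DirichletCharacter ℂ q)
    (t₀ : ℝ) (Z : Finset ℝ), (∀ t ∈ Z, t₀ ≤ t ∧ t ≤ t₀ + 1 ∧
      χ.LFunction (1 / 2 + (t : ℂ) * Complex.I) = 0) →
    (Z.card : ℝ) ≤ C * (2 + Real.log (q * (|t₀| + 1))) := by
  refine ⟨60, by norm_num, ?_⟩
  intro q _ χ t₀ Z hZ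
  have hq1 : (1 : ℝ) ≤ q := by exact_mod_cast Nat.pos_of_ne_zero (NeZero.ne q)
  have hT : 1 ≤ |t₀| + 1 := by linarith [abs_nonneg t₀]
  set T : ℝ := |t₀| + 1 with hTdef
  set M : ℝ := 1188 * q * T ^ 2 with hMdef
  have hqT : 1 ≤ q * T := by nlinarith
  have hM : 1 ≤ M := by
    have : q * T ≤ q * T ^ 2 := by
      apply mul_le_mul_of_nonneg_left _ (by linarith)
      nlinarith
    rw [hMdef]
    nlinarith
  have hbd : ∀ z : ℂ, ‖z‖ + 1 ≤ 6 * T → 33 * (q : ℝ) * (‖z‖ + 1) ^ 2 ≤ M := by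
    intro z hz
    have h0 : 0 ≤ ‖z‖ + 1 := by positivity
    have h1 : (‖z‖ + 1) ^ 2 ≤ (6 * T) ^ 2 := pow_le_pow_left₀ h0 hz 2
    calc 33 * (q : ℝ) * (‖z‖ + 1) ^ 2 ≤ 33 * (q : ℝ) * (6 * T) ^ 2 :=
          mul_le_mul_of_nonneg_left h1 (by positivity)
      _ = M := by rw [hMdef]; ring
  have hcre : (2 + ((t₀ + 1 / 2 : ℝ) : ℂ) * Complex.I).re = 2 := by simp
  have hLc : 1 / 4 ≤ ‖χ.LFunction (2 + ((t₀ + 1 / 2 : ℝ) : ℂ) * Complex.I)‖ := by
    have h := Pool.Agent.H90.norm_LFunction_ge χ (2 + ((t₀ + 1 / 2 : ℝ) : ℂ) * Complex.I)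
      (by rw [hcre]; norm_num)
    rw [hcre] at h
    norm_num at h
    norm_num
    exact h
  have key : (Z.card : ℝ) * (3 / 35) ≤ Real.log M + 2 := by
    by_cases hχ : χ = 1
    · apply zw_card (DirichletCharacter.differentiable_LFunctionTrivChar₁ q)
        (c := 2 + ((t₀ + 1 / 2 : ℝ) : ℂ) * Complex.I) hM
      · intro z hz
        obtain ⟨h1, h2⟩ := zw_geom t₀ z hz
        exact (zw_bound_one q z h1).trans (hbd z h2)
      · have hne : (2 + ((t₀ + 1 / 2 : ℝ) : ℂ) * Complex.I) ≠ 1 := by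
          intro h
          have := congrArg Complex.re h
          rw [hcre, Complex.one_re] at this
          norm_num at this
        have h1 : DirichletCharacter.LFunctionTrivChar₁ q (2 + ((t₀ + 1 / 2 : ℝ) : ℂ) * Complex.I) =
            ((2 + ((t₀ + 1 / 2 : ℝ) : ℂ) * Complex.I) - 1) *
              DirichletCharacter.LFunction χ (2 + ((t₀ + 1 / 2 : ℝ) : ℂ) * Complex.I) := by
          rw [hχ]
          unfold DirichletCharacter.LFunctionTrivChar₁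
          rw [Function.update_of_ne hne]
        rw [h1, norm_mul]
        have h2 : 1 ≤ ‖(2 + ((t₀ + 1 / 2 : ℝ) : ℂ) * Complex.I) - 1‖ := by
          have h := Complex.abs_re_le_norm ((2 + ((t₀ + 1 / 2 : ℝ) : ℂ) * Complex.I) - 1)
          rw [Complex.sub_re, hcre, Complex.one_re] at h
          norm_num at h
          norm_num
          exact h
        calc (1 : ℝ) / 4 = 1 * (1 / 4) := by ring
          _ ≤ _ := mul_le_mul h2 hLc (by norm_num) (by positivity)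
      · intro t ht
        obtain ⟨h1, h2, h3⟩ := hZ t ht
        refine ⟨zw_dist t₀ t h1 h2, ?_⟩
        have hne : (1 / 2 + (t : ℂ) * Complex.I) ≠ 1 := by
          intro h
          have := congrArg Complex.re h
          norm_num at this
        unfold DirichletCharacter.LFunctionTrivChar₁
        rw [Function.update_of_ne hne]
        rw [hχ] at h3
        change (_ - 1) * DirichletCharacter.LFunction (1 : DirichletCharacter ℂ q) _ = 0
        rw [h3, mul_zero]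
    · apply zw_card (DirichletCharacter.differentiable_LFunction hχ)
        (c := 2 + ((t₀ + 1 / 2 : ℝ) : ℂ) * Complex.I) hM
      · intro z hz
        obtain ⟨h1, h2⟩ := zw_geom t₀ z hz
        exact (zw_bound_ne χ hχ z h1).trans (hbd z h2)
      · exact hLc
      · intro t ht
        obtain ⟨h1, h2, h3⟩ := hZ t ht
        exact ⟨zw_dist t₀ t h1 h2, h3⟩
  have hlogM : Real.log M ≤ 8 + 2 * Real.log (q * T) := by
    have h1 : M ≤ Real.exp 8 * (q * T) ^ 2 := by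
      have he : (1188 : ℝ) ≤ Real.exp 8 := by
        have h2 : (2.7 : ℝ) < Real.exp 1 := by
          have := Real.exp_one_gt_d9
          linarith
        have h3 : Real.exp 8 = Real.exp 1 ^ 8 := by
          rw [← Real.exp_nat_mul]
          norm_num
        rw [h3]
        calc (1188 : ℝ) ≤ 2.7 ^ 8 := by norm_num
          _ ≤ _ := pow_le_pow_left₀ (by norm_num) h2.le 8
      have hqq : (q : ℝ) * T ^ 2 ≤ (q * T) ^ 2 := by
        rw [mul_pow]
        apply mul_le_mul_of_nonneg_right _ (by positivity)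
        nlinarith
      calc M = 1188 * (q * T ^ 2) := by rw [hMdef]; ring
        _ ≤ Real.exp 8 * (q * T) ^ 2 := mul_le_mul he hqq (by positivity) (by positivity)
    have h2 : Real.log (Real.exp 8 * (q * T) ^ 2) = 8 + 2 * Real.log (q * T) := by
      rw [Real.log_mul (Real.exp_pos _).ne' (by positivity), Real.log_exp, Real.log_pow]
      norm_num
    rw [← h2]
    exact Real.log_le_log (by linarith) h1
  have hlog0 : 0 ≤ Real.log (q * T) := Real.log_nonneg hqT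
  linarith

end Pool.Agent.H74.PZ
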